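import Pool.Agent.Run7.h23.All

/-!
# The twists: counting

`good_card3` is adapted from `Pool.Agent.N922.PQ.Cnt2` (helper922).
-/

set_option autoImplicit false
set_option linter.all false

open Polynomial IsDedekindDomain WeierstrassCurve WeierstrassCurve.Affine NumberField
open Pool.Agent.TH115.GD
open scoped Classical IntermediateField

namespace Run7.h23

open Pool.Agent.N922.PQ
open Pool.Agent.N874.PP (Tup chA chB gq tau Two Ev Sq1 U0 sW IsBeta Rt sg)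
open Pool.Agent.N874.PM (PLoc Lies SelR ShaR)

/-- Many curves of the family are not bad. -/
theorem good_card3 (hFAM : S_FAM3) (hBAD : S_BAD) (κ : ℕ) {T : Finset ℤ} {A B : ℤ → ℤ}
    (hT : GoodT T A B) (Φ : ℤ → Prop)
    (hEX : ∀ r : ℕ, ∃ (S : Finset ℤ) (s : ℤ → ℤ), GoodS S s ∧ S.card = r ∧ Disjoint S T ∧
      ∀ Q ∈ S, Φ Q) :
    ∃ (S : Finset ℤ) (s : ℤ → ℤ) (c : ℝ), GoodS S s ∧ Disjoint S T ∧ (∀ Q ∈ S, Φ Q) ∧
      0 < c ∧ ∃ X₀ : ℕ, ∀ X ≥ X₀,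
      c * (X : ℝ) ^ 5 ≤ ({p : ℤ × ℤ | (Fam X S s T A B p.1 p.2 ∧ (p.1 % 4 = 3 ∧ p.2 % 4 = 3)) ∧
        ¬ LBad κ X S s p.1 p.2}.ncard : ℝ) := by
  obtain ⟨c, hc, hfam⟩ := hFAM T A B hT
  obtain ⟨K, hK⟩ := hBAD κ
  obtain ⟨r, hr⟩ : ∃ r : ℕ, 2 * (K : ℝ) / c < 2 ^ r :=
    pow_unbounded_of_one_lt _ (by norm_num)
  obtain ⟨S, s, hS, hcard, hdis, hΦ⟩ := hEX r
  obtain ⟨X₁, h1⟩ := hfam S s hS hdis
  obtain ⟨X₂, h2⟩ := hK S s hS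
  set P : ℝ := ∏ Q ∈ S, (Q : ℝ) ^ 2 with hP
  have hP0 : 0 < P := Finset.prod_pos fun Q hQ => by
    have : (0 : ℝ) < Q := by exact_mod_cast (hS Q hQ).1.1
    positivity
  refine ⟨S, s, c / (2 * P), hS, hdis, hΦ, by positivity, max X₁ X₂, fun X hX => ?_⟩
  have hF := h1 X ((le_max_left _ _).trans hX)
  obtain ⟨hfin, hB⟩ := h2 X ((le_max_right _ _).trans hX)
  have hd := Set.le_ncard_diff {p : ℤ × ℤ | LBad κ X S s p.1 p.2}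
    {p : ℤ × ℤ | Fam X S s T A B p.1 p.2 ∧ (p.1 % 4 = 3 ∧ p.2 % 4 = 3)} hfin
  have e : {p : ℤ × ℤ | Fam X S s T A B p.1 p.2 ∧ (p.1 % 4 = 3 ∧ p.2 % 4 = 3)} \
      {p : ℤ × ℤ | LBad κ X S s p.1 p.2} =
      {p : ℤ × ℤ | (Fam X S s T A B p.1 p.2 ∧ (p.1 % 4 = 3 ∧ p.2 % 4 = 3)) ∧
        ¬ LBad κ X S s p.1 p.2} := rfl
  rw [e] at hd
  set F : ℕ := {p : ℤ × ℤ | Fam X S s T A B p.1 p.2 ∧ (p.1 % 4 = 3 ∧ p.2 % 4 = 3)}.ncard
  set Bd : ℕ := {p : ℤ × ℤ | LBad κ X S s p.1 p.2}.ncard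
  set G : ℕ := {p : ℤ × ℤ | (Fam X S s T A B p.1 p.2 ∧ (p.1 % 4 = 3 ∧ p.2 % 4 = 3)) ∧
    ¬ LBad κ X S s p.1 p.2}.ncard
  have hd' : (F : ℝ) ≤ Bd + G := by
    have : F ≤ Bd + G := by omega
    exact_mod_cast this
  have hB' : (2 : ℝ) ^ r * P * Bd ≤ K * (X : ℝ) ^ 5 := by
    rw [hcard] at hB
    have h3 : ((2 ^ r * (∏ Q ∈ S, Q) ^ 2 * (Bd : ℤ) : ℤ) : ℝ) ≤ ((K * X ^ 5 : ℤ) : ℝ) := by
      exact_mod_cast hB
    have e2 : ((2 ^ r * (∏ Q ∈ S, Q) ^ 2 * (Bd : ℤ) : ℤ) : ℝ) = (2 : ℝ) ^ r * P * Bd := by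
      rw [hP, Finset.prod_pow]
      push_cast
      ring
    rw [e2] at h3
    refine h3.trans (le_of_eq ?_)
    push_cast
    ring
  have hF' : c * (X : ℝ) ^ 5 ≤ P * F := hF
  rw [div_lt_iff₀ hc] at hr
  have hPB : P * (Bd : ℝ) ≤ c / 2 * (X : ℝ) ^ 5 := by
    have h2r : (0 : ℝ) < 2 ^ r := by positivity
    rw [← mul_le_mul_iff_right₀ h2r]
    calc 2 ^ r * (P * (Bd : ℝ)) = 2 ^ r * P * Bd := by ring
      _ ≤ K * (X : ℝ) ^ 5 := hB'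
      _ = (2 * (K : ℝ)) * ((X : ℝ) ^ 5 / 2) := by ring
      _ ≤ (2 ^ r * c) * ((X : ℝ) ^ 5 / 2) := by gcongr
      _ = 2 ^ r * (c / 2 * (X : ℝ) ^ 5) := by ring
  have hPG : c / 2 * (X : ℝ) ^ 5 ≤ P * G := by
    have : (P : ℝ) * F ≤ P * Bd + P * G := by
      rw [← mul_add]
      exact mul_le_mul_of_nonneg_left hd' hP0.le
    linarith
  calc c / (2 * P) * (X : ℝ) ^ 5 = c / 2 * (X : ℝ) ^ 5 / P := by
        field_simp
    _ ≤ P * G / P := by gcongr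
    _ = G := by field_simp


/-- From the family to the minimal curves, with the twist by `t`. -/
theorem crv_t {X H : ℕ} {S T : Finset ℤ} {s A B : ℤ → ℤ} {a b : ℤ} (hS : GoodS S s)
    (hT : GoodT T A B) (hF : Fam X S s T A B a b) {J : Finset ℤ} (hJ : J ⊆ S) {t : ℤ}
    (ht : t = 1 ∨ t = -1 ∨ t = 2 ∨ t = -2)
    (hH : 27 * ((X : ℤ) * (2 * ∏ Q ∈ S, Q)) ^ 6 ≤ H) :
    Crv H (a * (t * ∏ Q ∈ J, Q) ^ 2) (b * (t * ∏ Q ∈ J, Q) ^ 3) := by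
  have hSpos : 0 < ∏ Q ∈ S, Q := Finset.prod_pos fun Q hQ => (hS Q hQ).1.1
  have hX0 : (0 : ℤ) ≤ X := Int.natCast_nonneg X
  set Y : ℤ := (X : ℤ) * ∏ Q ∈ S, Q with hY
  have hY0 : 0 ≤ Y := mul_nonneg hX0 hSpos.le
  obtain ⟨H', hH'⟩ : ∃ H' : ℕ, ((H' : ℕ) : ℤ) = 27 * Y ^ 6 :=
    ⟨(27 * Y ^ 6).toNat, Int.toNat_of_nonneg (by positivity)⟩
  have hc := Pool.Agent.N707.PQ.crv X H' S T s A B a b hS hT hF J hJ (by rw [hH'])
  have hH2 : 64 * (H' : ℤ) ≤ H := by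
    rw [hH']
    refine le_trans (le_of_eq ?_) hH
    rw [hY]
    ring
  have ht0 : t ≠ 0 := by rcases ht with h | h | h | h <;> rw [h] <;> norm_num
  have ht6 : t ^ 6 ≤ 64 := by rcases ht with h | h | h | h <;> rw [h] <;> norm_num
  have ht6' : 0 ≤ t ^ 6 := by positivity
  obtain ⟨haodd, hbodd⟩ := odd_of (fam_nt hT hF hT.1)
  have hD8 : (∏ Q ∈ J, Q) % 8 = 1 := prod_mod8 fun Q hQ => (hS Q (hJ hQ)).2.1
  set D : ℤ := ∏ Q ∈ J, Q with hD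
  refine ⟨?_, ?_, ?_, ?_⟩
  · have e : 4 * (a * (t * D) ^ 2) ^ 3 + 27 * (b * (t * D) ^ 3) ^ 2 =
        t ^ 6 * (4 * (a * D ^ 2) ^ 3 + 27 * (b * D ^ 3) ^ 2) := by ring
    rw [e]
    exact mul_ne_zero (pow_ne_zero _ ht0) hc.disc
  · rintro p hp ⟨h4, h6⟩
    by_cases hp2 : p = 2
    · subst hp2
      obtain ⟨u, hu⟩ : Odd (a * D ^ 2) := by
        refine haodd.mul (Odd.pow ?_)
        rw [Int.odd_iff]
        omega
      have e : a * (t * D) ^ 2 = t ^ 2 * (a * D ^ 2) := by ring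
      rw [e, hu] at h4
      have ht2 : t ^ 2 = 1 ∨ t ^ 2 = 4 := by
        rcases ht with h | h | h | h <;> rw [h] <;> norm_num
      norm_num at h4
      rcases ht2 with h | h <;> rw [h] at h4 <;> omega
    · have hpp : Prime (p : ℤ) := Nat.prime_iff_prime_int.1 hp
      have hcop : IsCoprime (p : ℤ) t := by
        rw [Prime.coprime_iff_not_dvd hpp]
        intro h
        have h2 : (p : ℤ) ∣ 2 := by
          refine h.trans ?_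
          rcases ht with h | h | h | h <;> rw [h] <;> norm_num
        have h3 : p ∣ 2 := by exact_mod_cast h2
        exact hp2 ((Nat.prime_dvd_prime_iff_eq hp Nat.prime_two).1 h3)
      refine hc.min p hp ⟨?_, ?_⟩
      · have e : a * (t * D) ^ 2 = t ^ 2 * (a * D ^ 2) := by ring
        rw [e] at h4
        exact (hcop.pow).dvd_of_dvd_mul_left h4
      · have e : b * (t * D) ^ 3 = t ^ 3 * (b * D ^ 3) := by ring
        rw [e] at h6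
        exact (hcop.pow).dvd_of_dvd_mul_left h6
  · have e : a * (t * D) ^ 2 = t ^ 2 * (a * D ^ 2) := by ring
    rw [e, abs_mul, mul_pow, abs_of_nonneg (sq_nonneg t)]
    have h1 := hc.hA
    have h2 : 0 ≤ |a * D ^ 2| ^ 3 := by positivity
    calc 4 * ((t ^ 2) ^ 3 * |a * D ^ 2| ^ 3) = t ^ 6 * (4 * |a * D ^ 2| ^ 3) := by ring
      _ ≤ 64 * (4 * |a * D ^ 2| ^ 3) := by gcongr
      _ ≤ 64 * H' := by gcongr
      _ ≤ H := hH2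
  · have e : b * (t * D) ^ 3 = t ^ 3 * (b * D ^ 3) := by ring
    rw [e]
    have h1 := hc.hB
    have h2 : 0 ≤ (b * D ^ 3) ^ 2 := by positivity
    calc 27 * (t ^ 3 * (b * D ^ 3)) ^ 2 = t ^ 6 * (27 * (b * D ^ 3) ^ 2) := by ring
      _ ≤ 64 * (27 * (b * D ^ 3) ^ 2) := by gcongr
      _ ≤ 64 * H' := by gcongr
      _ ≤ H := hH2

/-- The rank of the group of points is at most one. -/
def RankLe (M : Type) [Field M] (W : WeierstrassCurve M) : Prop :=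
  Module.finrank ℤ (Pt W M) ≤ 1

theorem rank_pt (M R : Type) [Field M] [NumberField M] [CommRing R] [IsDedekindDomain R]
    [Algebra R M] [IsFractionRing R M] {A B : M} (hd : 4 * A ^ 3 + 27 * B ^ 2 ≠ 0)
    (hS : SelR2 R (sW A B)) : RankLe M (sW A B) :=
  rank_le (Pool.Agent.N273.PQ.mw M A B hd) fun P P' => div_two (R := R) (by norm_num) hd hS P P'

/-- Every prime divisor of `d` is in `T₀` or the cubic polynomial has no zero modulo it. -/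
def AdmC (T₀ : Finset ℤ) (A B d : ℤ) : Prop :=
  ∀ P : ℤ, IsPr P → P ∣ d → P ∈ T₀ ∨ ∀ z : ℤ, ¬ P ∣ z ^ 3 + A * z + B

/-- All the twists by admissible `d` at the same time. -/
def GoodW (M : Type) [Field M] (R : Type) [CommRing R] [IsDedekindDomain R] [Algebra R M]
    [IsFractionRing R M] (R₀ : Type) [CommRing R₀] [IsDedekindDomain R₀] [Algebra R₀ ℚ]
    [IsFractionRing R₀ ℚ] (T₀ : Finset ℤ) (t : ℤ) (p : ℤ × ℤ) : Prop :=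
  ∀ d : ℤ, d ≠ 0 → AdmC T₀ p.1 p.2 d →
    (¬ Bd (t * d) → GoodV (M := M) R (p.1 * d ^ 2, p.2 * d ^ 3)) ∧
    SelR2 R₀ (sW (((p.1 * d ^ 2 : ℤ)) : ℚ) (((p.2 * d ^ 3 : ℤ)) : ℚ)) ∧
    RankLe ℚ (sW (((p.1 * d ^ 2 : ℤ)) : ℚ) (((p.2 * d ^ 3 : ℤ)) : ℚ))

theorem adm_of {T T₀ : Finset ℤ} (h2 : (2 : ℤ) ∈ T) (hTT : T₀ ⊆ T) {a b D t d : ℤ}
    (ht : t = 1 ∨ t = -1 ∨ t = 2 ∨ t = -2)
    (h : AdmC T₀ (a * (t * D) ^ 2) (b * (t * D) ^ 3) d) : Adm T a b (t * d) := by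
  intro P hP hPd
  rcases hP.2.dvd_or_dvd hPd with h1 | h1
  · left
    have h3 : P ∣ 2 := by
      refine h1.trans ?_
      rcases ht with h | h | h | h <;> rw [h] <;> norm_num
    have h4 := Pool.Agent.N707.PQ.pr_eq hP.1 hP.2 ⟨by norm_num, Int.prime_two⟩ h3
    rw [h4]
    exact h2
  · rcases h P hP h1 with h3 | h3
    · exact Or.inl (hTT h3)
    · right
      intro z hz
      apply h3 (t * D * z)
      have e : (t * D * z) ^ 3 + a * (t * D) ^ 2 * (t * D * z) + b * (t * D) ^ 3 =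
          (t * D) ^ 3 * (z ^ 3 + a * z + b) := by ring
      rw [e]
      exact hz.mul_left _

/-- The main theorem, with a bound of order `X ^ 5`. -/
theorem mainW (M : Type) [Field M] [NumberField M]
    [IsGalois ℚ M] (R : Type) [CommRing R] [IsDedekindDomain R] [Algebra R M]
    [IsFractionRing R M] [IsIntegralClosure R ℤ M] (R₀ : Type) [CommRing R₀] [IsDedekindDomain R₀]
    [Algebra R₀ ℚ] [IsFractionRing R₀ ℚ] [IsIntegralClosure R₀ ℤ ℚ] {n : ℕ}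
    (hM : Module.finrank ℚ M = 2 ^ n)
    (hur : ∀ w : HeightOneSpectrum R, Ov 2 w → w.valuation M 2 = WithZero.exp (-1 : ℤ))
    (T₀ : Finset ℤ) (hT₀ : ∀ P ∈ T₀, IsPr P) (t : ℤ) (ht : t = 1 ∨ t = -1 ∨ t = 2 ∨ t = -2) :
    ∃ (P X₀ : ℕ) (c : ℝ), 0 < c ∧ 1 ≤ P ∧ ∀ X : ℕ, X₀ ≤ X → ∀ H : ℕ, 27 * (X * P) ^ 6 ≤ H →
      c * (X : ℝ) ^ 5 ≤ ({p : ℤ × ℤ | Crv H p.1 p.2 ∧ GoodW M R R₀ T₀ t p}.ncard : ℝ) := by
  haveI : Algebra.IsIntegral ℤ R := IsIntegralClosure.isIntegral_algebra ℤ M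
  haveI : CharZero R := charZero_of R M
  have ht0 : t ≠ 0 := by rcases ht with h | h | h | h <;> rw [h] <;> norm_num
  obtain ⟨w₀, hw₀⟩ := exists_over R
  obtain ⟨κ, hLB'⟩ := lb
  obtain ⟨γ, g, δ, hG, hdeg⟩ := Pool.Agent.N40.PQ.gen M
  -- the prime divisors of `δ`
  obtain ⟨T₁, hT₁, hδ₁⟩ : ∃ T : Finset ℤ, (∀ P ∈ T, IsPr P) ∧
      ∀ P : ℤ, IsPr P → P ∣ δ → P ∈ T := by
    have hf : {P : ℤ | IsPr P ∧ P ∣ δ}.Finite := by
      refine (Set.finite_Icc (-|δ|) |δ|).subset ?_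
      rintro P ⟨-, h⟩
      have h3 : |P| ≤ |δ| := Int.le_of_dvd (abs_pos.2 hG.ne) ((abs_dvd_abs P δ).2 h)
      exact abs_le.1 h3
    refine ⟨hf.toFinset, fun P hP => ?_, fun P h1 h2 => ?_⟩
    · exact (hf.mem_toFinset.1 hP).1
    · exact hf.mem_toFinset.2 ⟨h1, h2⟩
  obtain ⟨T, A, B, hTT, hT⟩ := Pool.Agent.N954.PQ.tch (T₁ ∪ T₀) (fun P hP => by
    rcases Finset.mem_union.1 hP with h | h
    · exact hT₁ P h
    · exact hT₀ P h)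
  have hδ : ∀ P : ℤ, IsPr P → P ∣ δ → P ∈ T := fun P h1 h2 =>
    hTT (Finset.mem_union_left _ (hδ₁ P h1 h2))
  have hTT₀ : T₀ ⊆ T := Finset.subset_union_right.trans hTT
  obtain ⟨S, s, c, hS, hdis, hsp, hc, X₀, hX₀⟩ := good_card3 fam3 bad κ hT
    (fun Q => SplitMod Q g) (Pool.Agent.N40.PQ.spl M γ g δ hG hdeg T)
  have hSpos : 0 < ∏ Q ∈ S, Q := Finset.prod_pos fun Q hQ => (hS Q hQ).1.1
  refine ⟨(2 * ∏ Q ∈ S, Q).toNat, X₀, c / 2 ^ S.card,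
    by positivity, by omega, fun X hX Hh hHh => ?_⟩
  have hN := hX₀ X hX
  set Hs := {p : ℤ × ℤ | Crv Hh p.1 p.2 ∧ GoodW M R R₀ T₀ t p} with hH
  set G := {p : ℤ × ℤ | (Fam X S s T A B p.1 p.2 ∧ (p.1 % 4 = 3 ∧ p.2 % 4 = 3)) ∧
    ¬ LBad κ X S s p.1 p.2} with hG'
  have hHf : Hs.Finite := (crv_fin Hh).subset fun p hp => hp.1
  have hbd : 27 * ((X : ℤ) * (2 * ∏ Q ∈ S, Q)) ^ 6 ≤ Hh := by
    have h1 : ((27 * (X * (2 * ∏ Q ∈ S, Q).toNat) ^ 6 : ℕ) : ℤ) ≤ Hh := by exact_mod_cast hHh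
    have e1 : (((2 * ∏ Q ∈ S, Q).toNat : ℕ) : ℤ) = 2 * ∏ Q ∈ S, Q :=
      Int.toNat_of_nonneg (by positivity)
    rw [Nat.cast_mul, Nat.cast_pow, Nat.cast_mul, e1] at h1
    exact_mod_cast h1
  have hcard := card_fib hHf S
    (fun (J : Finset ℤ) (p : ℤ × ℤ) => (p.1 * (t * ∏ Q ∈ J, Q) ^ 2, p.2 * (t * ∏ Q ∈ J, Q) ^ 3))
    (G := G) (by
      rintro p ⟨⟨hpF, hpa, hpb⟩, hnb⟩
      obtain ⟨J, hJ, hsel, hsel2⟩ := sel_all parts2 hLB' M R R₀ hM hur hS hpF hpa hpb hnb hT hG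
        hsp hδ hdis
      refine ⟨J, hJ, crv_t hS hT hpF hJ ht hbd, ?_⟩
      intro d hd hadm
      have hadm' : Adm T p.1 p.2 (t * d) := adm_of hT.1 hTT₀ ht hadm
      have htd : t * d ≠ 0 := mul_ne_zero ht0 hd
      have hD0 : (∏ Q ∈ J, Q) ≠ 0 := by
        rw [Finset.prod_ne_zero_iff]
        exact fun Q hQ => (hS Q (hJ hQ)).1.2.ne_zero
      have hD8 : (∏ Q ∈ J, Q) % 8 = 1 := prod_mod8 fun Q hQ => (hS Q (hJ hQ)).2.1
      have eA : p.1 * (t * ∏ Q ∈ J, Q) ^ 2 * d ^ 2 = p.1 * ((∏ Q ∈ J, Q) * (t * d)) ^ 2 := by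
        ring
      have eB : p.2 * (t * ∏ Q ∈ J, Q) ^ 3 * d ^ 3 = p.2 * ((∏ Q ∈ J, Q) * (t * d)) ^ 3 := by
        ring
      have hdisc : 4 * (p.1 * ((∏ Q ∈ J, Q) * (t * d)) ^ 2) ^ 3 +
          27 * (p.2 * ((∏ Q ∈ J, Q) * (t * d)) ^ 3) ^ 2 ≠ 0 := by
        have e : 4 * (p.1 * ((∏ Q ∈ J, Q) * (t * d)) ^ 2) ^ 3 +
          27 * (p.2 * ((∏ Q ∈ J, Q) * (t * d)) ^ 3) ^ 2 =
          ((∏ Q ∈ J, Q) * (t * d)) ^ 6 * dsc p.1 p.2 := by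
          unfold dsc
          ring
        rw [e]
        exact mul_ne_zero (pow_ne_zero _ (mul_ne_zero hD0 htd)) hpF.sq.ne_zero
      show (_ → GoodV (M := M) R (p.1 * (t * ∏ Q ∈ J, Q) ^ 2 * d ^ 2,
        p.2 * (t * ∏ Q ∈ J, Q) ^ 3 * d ^ 3)) ∧
        SelR2 R₀ (sW (((p.1 * (t * ∏ Q ∈ J, Q) ^ 2 * d ^ 2 : ℤ)) : ℚ)
          (((p.2 * (t * ∏ Q ∈ J, Q) ^ 3 * d ^ 3 : ℤ)) : ℚ)) ∧
        RankLe ℚ (sW (((p.1 * (t * ∏ Q ∈ J, Q) ^ 2 * d ^ 2 : ℤ)) : ℚ)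
          (((p.2 * (t * ∏ Q ∈ J, Q) ^ 3 * d ^ 3 : ℤ)) : ℚ))
      rw [eA, eB]
      have hs2 := hsel2 (t * d) htd hadm'
      have hdQ : 4 * (((p.1 * ((∏ Q ∈ J, Q) * (t * d)) ^ 2 : ℤ)) : ℚ) ^ 3 +
          27 * (((p.2 * ((∏ Q ∈ J, Q) * (t * d)) ^ 3 : ℤ)) : ℚ) ^ 2 ≠ 0 := by
        exact_mod_cast hdisc
      refine ⟨fun hbd' => ?_, hs2, ?_⟩
      · have hs1 := hsel (t * d) htd hbd' hadm'
        have h6M : (6 : M) ≠ 0 := by norm_num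
        have hdM : 4 * (((p.1 * ((∏ Q ∈ J, Q) * (t * d)) ^ 2 : ℤ)) : M) ^ 3 +
            27 * (((p.2 * ((∏ Q ∈ J, Q) * (t * d)) ^ 3 : ℤ)) : M) ^ 2 ≠ 0 := by
          exact_mod_cast hdisc
        obtain ⟨h2, h3⟩ := Pool.Agent.N650.PM.gfr M R _ _ h6M hdM hs1
        have hfin := Pool.Agent.N273.PQ.finm M _ _ hdM h2
        obtain ⟨ha, hb⟩ := odd_of (fam_nt hT hpF hT.1)
        have htor := tor_tw M R w₀ (hur w₀ hw₀) hpa hpb (fun x hx => by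
          have h5 := nr' M R n hM w₀ hw₀ p.1 p.2 ha hb (algebraMap M _ x) (by
            rw [Pool.Agent.N301.PV.vx]
            exact hx)
          have e : (algebraMap M (w₀.adicCompletion M) x) ^ 3 +
              (p.1 : w₀.adicCompletion M) * algebraMap M (w₀.adicCompletion M) x +
              (p.2 : w₀.adicCompletion M) =
              algebraMap M (w₀.adicCompletion M) (x ^ 3 + (p.1 : M) * x + (p.2 : M)) := by
            rw [map_add, map_add, map_mul, map_pow, map_intCast, map_intCast]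
          rw [e, Pool.Agent.N301.PV.vx] at h5
          exact h5) (mul_ne_zero hD0 htd) (not_bd_mul hD8 htd hbd') hfin (by
          haveI := hfin
          exact odd_card (G := Pt (sW (((p.1 * ((∏ Q ∈ J, Q) * (t * d)) ^ 2 : ℤ)) : M)
            (((p.2 * ((∏ Q ∈ J, Q) * (t * d)) ^ 3 : ℤ)) : M)) M) h2)
        exact ⟨hs1, htor, h3⟩
      · exact rank_pt ℚ R₀ hdQ hs2) (by
      intro J hJ x hx y hy hxy
      have hD0 : (t * ∏ Q ∈ J, Q) ≠ 0 := by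
        refine mul_ne_zero ht0 ?_
        rw [Finset.prod_ne_zero_iff]
        exact fun Q hQ => (hS Q (hJ hQ)).1.2.ne_zero
      rw [Prod.mk.injEq] at hxy
      exact twist_inj hD0 hxy.1 hxy.2)
  have hcard' : (G.ncard : ℝ) ≤ 2 ^ S.card * Hs.ncard := by exact_mod_cast hcard
  calc c / 2 ^ S.card * (X : ℝ) ^ 5
      = c * (X : ℝ) ^ 5 / 2 ^ S.card := by ring
    _ ≤ (G.ncard : ℝ) / 2 ^ S.card := by gcongr
    _ ≤ (2 ^ S.card * Hs.ncard) / 2 ^ S.card := by gcongr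
    _ = Hs.ncard := by field_simp

/-- The theorem on the proportion. -/
theorem finalW (M : Type) [Field M] [NumberField M]
    [IsGalois ℚ M] (R : Type) [CommRing R] [IsDedekindDomain R] [Algebra R M]
    [IsFractionRing R M] [IsIntegralClosure R ℤ M] (R₀ : Type) [CommRing R₀] [IsDedekindDomain R₀]
    [Algebra R₀ ℚ] [IsFractionRing R₀ ℚ] [IsIntegralClosure R₀ ℤ ℚ] {n : ℕ}
    (hM : Module.finrank ℚ M = 2 ^ n)
    (hur : ∀ w : HeightOneSpectrum R, Ov 2 w → w.valuation M 2 = WithZero.exp (-1 : ℤ))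
    (T₀ : Finset ℤ) (hT₀ : ∀ P ∈ T₀, IsPr P) (t : ℤ) (ht : t = 1 ∨ t = -1 ∨ t = 2 ∨ t = -2) :
    ∃ c : ℝ, 0 < c ∧ ∃ H₀ : ℕ, ∀ H ≥ H₀, {p : ℤ × ℤ | Crv H p.1 p.2}.Finite ∧
    c * ({p : ℤ × ℤ | Crv H p.1 p.2}.ncard : ℝ) ≤
      ({p : ℤ × ℤ | Crv H p.1 p.2 ∧ GoodW M R R₀ T₀ t p}.ncard : ℝ) := by
  obtain ⟨P, X₀, c, hc, hP, h⟩ := mainW M R R₀ hM hur T₀ hT₀ t ht
  exact Pool.Agent.N607.PQ.cnt (fun p => GoodW M R R₀ T₀ t p) P X₀ c hc hP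
    fun X hX Hh hHh => h X hX Hh hHh

end Run7.h23
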