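import Pool.Agent.Run7.h23.Two
import Pool.Agent.Run7.h23.Fam3

/-!
# All the twists together; the rank
-/

set_option autoImplicit false
set_option linter.all false

open Polynomial IsDedekindDomain WeierstrassCurve WeierstrassCurve.Affine NumberField
open Pool.Agent.TH115.GD
open scoped Classical IntermediateField

namespace Run7.h23

open Pool.Agent.N922.PQ
open Pool.Agent.N874.PP (Tup chA chB gq tau Two Ev Sq1 U0 sW IsBeta Rt sg)
open Pool.Agent.N874.PM (PLoc Lies SelR ShaR)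

/-- The theorem on the Selmer groups: one subset `J` for all the twists. -/
theorem sel_all (H : Parts2) {κ : ℕ} (hLB : LBk κ) (M : Type) [Field M] [NumberField M]
    [IsGalois ℚ M] (R : Type) [CommRing R] [IsDedekindDomain R] [Algebra R M]
    [IsFractionRing R M] [IsIntegralClosure R ℤ M] (R₀ : Type) [CommRing R₀] [IsDedekindDomain R₀]
    [Algebra R₀ ℚ] [IsFractionRing R₀ ℚ] [IsIntegralClosure R₀ ℤ ℚ] {n : ℕ}
    (hM : Module.finrank ℚ M = 2 ^ n)
    (hur : ∀ w : HeightOneSpectrum R, Ov 2 w → w.valuation M 2 = WithZero.exp (-1 : ℤ))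
    {a b : ℤ} {X' : ℕ}
    {S T : Finset ℤ} {s A B : ℤ → ℤ} (hS : GoodS S s)
    (hF : Fam X' S s T A B a b) (ha : a % 4 = 3) (hb : b % 4 = 3) (hnb : ¬ LBad κ X' S s a b)
    (hT : GoodT T A B)
    {γ : M} {g : ℤ[X]} {δ : ℤ} (hG : Gen ℚ γ g δ) (hsp : ∀ Q ∈ S, SplitMod Q g)
    (hδ : ∀ P : ℤ, IsPr P → P ∣ δ → P ∈ T) (hdis : Disjoint S T) :
    ∃ J ⊆ S, (∀ e : ℤ, e ≠ 0 → ¬ Bd e → Adm T a b e →
      SelR R (sW (((a * ((∏ Q ∈ J, Q) * e) ^ 2 : ℤ)) : M)
        (((b * ((∏ Q ∈ J, Q) * e) ^ 3 : ℤ)) : M))) ∧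
      ∀ e : ℤ, e ≠ 0 → Adm T a b e →
      SelR2 R₀ (sW (((a * ((∏ Q ∈ J, Q) * e) ^ 2 : ℤ)) : ℚ)
        (((b * ((∏ Q ∈ J, Q) * e) ^ 3 : ℤ)) : ℚ)) := by
  haveI : Algebra.IsIntegral ℤ R := IsIntegralClosure.isIntegral_algebra ℤ M
  haveI : CharZero R := charZero_of R M
  have hao : Odd a := by rw [Int.odd_iff]; omega
  have hbo : Odd b := by rw [Int.odd_iff]; omega
  obtain ⟨w₀, hw₀⟩ := exists_over R
  have hnr := H.nr M R n hM w₀ hw₀ a b hao hbo
  have hnrM : ∀ t : M, t ^ 3 + (a : M) * t + (b : M) ≠ 0 := by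
    intro t ht
    apply hnr (algebraMap M _ t)
    have h1 := congrArg (algebraMap M (w₀.adicCompletion M)) ht
    rw [map_zero, map_add, map_add, map_mul, map_pow, map_intCast, map_intCast] at h1
    exact h1
  have hirrM : Irreducible (ff M a b) := irr_tw' hnrM
  have hirr : Irreducible (ff ℚ a b) := by
    refine irr_tw' fun t ht => hnrM (algebraMap ℚ M t) ?_
    have h1 := congrArg (algebraMap ℚ M) ht
    rw [map_zero, map_add, map_add, map_mul, map_pow, map_intCast, map_intCast] at h1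
    exact h1
  obtain ⟨L, iF, iN, θ, hc, hu⟩ := exists_cub hirr
  obtain ⟨Ω, iF', iA', t, ht, hr, htop, hfin⟩ := exists_field hirrM (ff_monic M a b) (ff_deg M a b)
  haveI : CharZero Ω := charZero_of_injective_algebraMap (algebraMap M Ω).injective
  haveI : FiniteDimensional ℚ Ω := FiniteDimensional.trans ℚ M Ω
  haveI : NumberField Ω := ⟨⟩
  have ht' : t ^ 3 + (a : Ω) * t + (b : Ω) = 0 := by
    simp only [ff, map_add, map_mul, map_pow, aeval_X, aeval_C, map_intCast] at ht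
    exact ht
  obtain ⟨φ, hφ⟩ := hu Ω t ht'
  obtain ⟨J, hJ, hsel⟩ := core2 (L := L) (𝓞 L) H.p.cls H.p.exq H.p.ns H.p.lin H.p.recp H.p.plm
    H.p.sd H.p.ttv hLB hc hS hT hF hnb
  refine ⟨J, hJ, fun e he hbd hadm => ?_, fun e he hadm =>
    two_tw H R₀ hc hS hF ha hb hT hdis hJ hsel he hadm⟩
  letI : Algebra L Ω := φ.toAlgebra
  have hroot : algebraMap L Ω θ = t := hφ
  have htop' : M⟮algebraMap L Ω θ⟯ = ⊤ := by rw [hroot]; exact htop
  have hG' : Gen L (algebraMap M Ω γ) g δ := by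
    refine ⟨top_up (K := ℚ) hG.top htop', hG.monic, ?_, hG.ne, hG.comb⟩
    rw [aeval_algebraMap_apply, hG.root, map_zero]
  exact selR_abs_tw (𝓞 L) (𝓞 Ω) R H hc hS hF ha hb hT hG hG' hsp hδ
    hdis hM hr htop' hur hJ hsel he hbd hadm

/-! ### the rank -/

/-- Points modulo two. -/
theorem div_two {M R : Type} [Field M] [CommRing R] [IsDedekindDomain R] [Algebra R M]
    [IsFractionRing R M] {A B : M} (h6 : (6 : M) ≠ 0) (hd : 4 * A ^ 3 + 27 * B ^ 2 ≠ 0)
    (hS : SelR2 R (sW A B)) (P P' : Pt (sW A B) M) :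
    (∃ Q : Pt (sW A B) M, P = (2 : ℕ) • Q) ∨ (∃ Q : Pt (sW A B) M, P' = (2 : ℕ) • Q) ∨
      ∃ Q : Pt (sW A B) M, P + P' = (2 : ℕ) • Q := by
  haveI : Algebra.IsSeparable M (Sep M) := IsSepClosure.separable
  haveI : IsGalois M (Sep M) := inferInstance
  obtain ⟨Q0, hR⟩ := Pool.Agent.N721.PP.half h6 hd (act (sW A B) (incl M M (Sep M)) P)
  obtain ⟨Q1, hR1⟩ := Pool.Agent.N721.PP.half h6 hd (act (sW A B) (incl M M (Sep M)) P')
  have hfix : ∀ (P : Pt (sW A B) M) (Q0 : Pt (sW A B) (Sep M)),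
      Q0 + Q0 = act (sW A B) (incl M M (Sep M)) P →
      ∀ σ : Sep M ≃ₐ[M] Sep M, act (sW A B) (rs M σ) (Q0 + Q0) = Q0 + Q0 := fun P Q0 hR σ => by
    rw [hR]; exact rs_act_incl _ σ P
  have hcob : ∀ (P : Pt (sW A B) M) (Q0 : Pt (sW A B) (Sep M)),
      Q0 + Q0 = act (sW A B) (incl M M (Sep M)) P →
      ∀ σ : Sep M ≃ₐ[M] Sep M, (2 : ℕ) • (act (sW A B) (rs M σ) Q0 - Q0) = 0 :=
    fun P Q0 hR σ => by
      rw [two_nsmul, sub_add_sub_comm, ← map_add, hfix P Q0 hR, sub_self]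
  have fin : ∀ (P : Pt (sW A B) M) (Q0 T : Pt (sW A B) (Sep M)),
      Q0 + Q0 = act (sW A B) (incl M M (Sep M)) P → (2 : ℕ) • T = 0 →
      (∀ σ : Sep M ≃ₐ[M] Sep M, act (sW A B) (rs M σ) Q0 - Q0 = act (sW A B) (rs M σ) T - T) →
      ∃ Q : Pt (sW A B) M, P = (2 : ℕ) • Q := by
    intro P Q0 T hR hT2 hT
    obtain ⟨Q, hQ⟩ := fixed_point (K := M) (F := M) (sW A B) (Q0 - T) (fun σ => by
      have h1 := hT σ
      rw [map_sub]
      have h2 : act (sW A B) (rs M σ) Q0 = Q0 + (act (sW A B) (rs M σ) T - T) := by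
        rw [← h1]; abel
      rw [h2]; abel)
    refine ⟨Q, act_inj (sW A B) (incl M M (Sep M)) ?_⟩
    rw [map_nsmul, hQ, smul_sub, hT2, sub_zero, two_nsmul, hR]
  obtain ⟨T, hT2, hT⟩ := hS (fun σ => act (sW A B) (rs M σ) Q0 - Q0)
    (fun σ => act (sW A B) (rs M σ) Q1 - Q1) (cob_isCoc _ Q0)
    (hcob P Q0 hR) (fun v => Pool.Agent.N650.PM.cobLocR _ v Q0) (cob_isCoc _ Q1)
    (hcob P' Q1 hR1) (fun v => Pool.Agent.N650.PM.cobLocR _ v Q1)
  rcases hT with hT | hT | hT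
  · exact Or.inl (fin P Q0 T hR hT2 hT)
  · exact Or.inr (Or.inl (fin P' Q1 T hR1 hT2 hT))
  · refine Or.inr (Or.inr (fin (P + P') (Q0 + Q1) T ?_ hT2 fun σ => ?_))
    · rw [map_add, ← hR, ← hR1]
      abel
    · rw [← hT σ, map_add]
      abel

/-- The rank of a finitely generated group `G` with at most two classes modulo `2 G`. -/
theorem rank_le {G : Type} [AddCommGroup G] (hfg : AddGroup.FG G)
    (h : ∀ P P' : G, (∃ Q : G, P = (2 : ℕ) • Q) ∨ (∃ Q : G, P' = (2 : ℕ) • Q) ∨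
      ∃ Q : G, P + P' = (2 : ℕ) • Q) : Module.finrank ℤ G ≤ 1 := by
  have hM : Module.Finite ℤ G := Module.Finite.iff_addGroup_fg.2 hfg
  let T := Submodule.torsion ℤ G
  have hr : Module.finrank ℤ (G ⧸ T) = Module.finrank ℤ G := by
    unfold Module.finrank
    rw [rank_quotient_eq_of_le_torsion (le_refl T)]
  rw [← hr]
  by_contra hlt
  rw [not_le] at hlt
  haveI : Module.Free ℤ (G ⧸ T) := by infer_instance
  let b := Module.finBasis ℤ (G ⧸ T)
  let i : Fin (Module.finrank ℤ (G ⧸ T)) := ⟨0, by omega⟩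
  let j : Fin (Module.finrank ℤ (G ⧸ T)) := ⟨1, by omega⟩
  have hij : i ≠ j := by
    intro h0
    have := congrArg Fin.val h0
    simp [i, j] at this
  obtain ⟨P, hP⟩ := T.mkQ_surjective (b i)
  obtain ⟨P', hP'⟩ := T.mkQ_surjective (b j)
  have key : ∀ (Q x : G) (k : Fin (Module.finrank ℤ (G ⧸ T))), x = (2 : ℕ) • Q →
      Even (b.repr (T.mkQ x) k) := by
    intro Q x k hx
    rw [hx, map_nsmul, map_nsmul]
    refine ⟨b.repr (T.mkQ Q) k, ?_⟩
    rw [two_nsmul]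
    rfl
  rcases h P P' with ⟨Q, hQ⟩ | ⟨Q, hQ⟩ | ⟨Q, hQ⟩
  · have := key Q P i hQ
    rw [hP, b.repr_self, Finsupp.single_eq_same] at this
    exact absurd this (by decide)
  · have := key Q P' j hQ
    rw [hP', b.repr_self, Finsupp.single_eq_same] at this
    exact absurd this (by decide)
  · have := key Q (P + P') i hQ
    rw [map_add, hP, hP', map_add, Finsupp.add_apply, b.repr_self, b.repr_self,
      Finsupp.single_eq_same, Finsupp.single_eq_of_ne hij] at this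
    exact absurd this (by decide)

end Run7.h23
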