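import Pool.Agent.N922.PQ.Big3

/-!
# Conditions over the extension, for a further twist

Adapted from `Pool.Agent.N922.PQ.Big3` (helper922).
-/

set_option autoImplicit false
set_option linter.all false

open Polynomial IsDedekindDomain NumberField
open scoped Classical IntermediateField

namespace Run7.h23

open Pool.Agent.N922.PQ
open Pool.Agent.N874.PP (Tup chA chB gq tau Two Ev Sq1 U0)
open Pool.Agent.N874.PM (PLoc Lies SelR ShaR S_LOC1M S_LOC2M)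

section top

variable {L M Ω : Type} (O O' R : Type) [Field L] [NumberField L] [Field M] [NumberField M]
  [Field Ω] [NumberField Ω] [Algebra L Ω] [Algebra M Ω]
  [CommRing O] [IsDedekindDomain O] [Algebra O L] [IsFractionRing O L] [IsIntegralClosure O ℤ L]
  [CommRing O'] [IsDedekindDomain O'] [Algebra O' Ω] [IsFractionRing O' Ω]
  [IsIntegralClosure O' ℤ Ω]
  [CommRing R] [IsDedekindDomain R] [Algebra R M] [IsFractionRing R M] [IsIntegralClosure R ℤ M]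

include O in
theorem cnd_tw (hEXQ : S_EXQ) (hUR : S_UR) (hSPD : S_SPD) (hLIE : S_LIE) (hLOC1M : S_LOC1M)
    (hLOC2M : S_LOC2M) {a b : ℤ} {θ : L} {X' : ℕ} {S J T T' : Finset ℤ}
    {s A B : ℤ → ℤ} (hc : IsCub a b θ) (hS : GoodS S s)
    (hF : Fam X' S s T A B a b) {γ : M} {g : ℤ[X]} {δ : ℤ} (hG : Gen ℚ γ g δ)
    (hG' : Gen L (algebraMap M Ω γ) g δ) (hsp : ∀ Q ∈ S, SplitMod Q g)
    (hT' : ∀ P ∈ T', IsPr P) (h2T : (2 : ℤ) ∈ T') (h3T : (3 : ℤ) ∈ T')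
    (hδ : ∀ P : ℤ, IsPr P → P ∣ δ → P ∈ T') (hdis : Disjoint S T')
    (hJ : J ⊆ S) {e : ℤ} (heT : ∀ P : ℤ, IsPr P → P ∣ e → P ∈ T') {h : M[X]}
    (hloc : ∀ w : HeightOneSpectrum R, ¬ Ov 2 w → PLoc (w.adicCompletion M)
      (((a * ((∏ Q ∈ J, Q) * e) ^ 2 : ℤ)) : M) (((b * ((∏ Q ∈ J, Q) * e) ^ 3 : ℤ)) : M) h)
    (h0 : aeval ((((∏ Q ∈ J, Q) * e : ℤ) : Ω) * algebraMap L Ω θ) h ≠ 0) :
    Cnd O' J T' (algebraMap L Ω θ) (aeval ((((∏ Q ∈ J, Q) * e : ℤ) : Ω) * algebraMap L Ω θ) h)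
    := by
  haveI : Algebra.IsIntegral ℤ R := IsIntegralClosure.isIntegral_algebra ℤ M
  haveI : Algebra.IsIntegral ℤ O' := IsIntegralClosure.isIntegral_algebra ℤ Ω
  haveI : CharZero R := charZero_of R M
  haveI : CharZero O' := charZero_of O' Ω
  have hroot : (algebraMap L Ω θ) ^ 3 + algebraMap M Ω (a : M) * algebraMap L Ω θ +
      algebraMap M Ω (b : M) = 0 := by
    have h1 := congrArg (algebraMap L Ω) hc.root
    rw [map_zero, map_add, map_add, map_mul, map_pow, map_intCast, map_intCast] at h1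
    rw [map_intCast, map_intCast]
    exact h1
  -- at the primes in `J`
  have key : ∀ Q ∈ J, ∀ 𝔓 : HeightOneSpectrum O', Ov Q 𝔓 →
      (𝔓.valuation Ω (algebraMap L Ω θ) = 1 → U0 𝔓 ((Q : Ω) * algebraMap L Ω θ)
        (aeval ((((∏ Q ∈ J, Q) * e : ℤ) : Ω) * algebraMap L Ω θ) h)) ∧
      (𝔓.valuation Ω (algebraMap L Ω θ) < 1 →
        Ev 𝔓 (aeval ((((∏ Q ∈ J, Q) * e : ℤ) : Ω) * algebraMap L Ω θ) h)) := by
    intro Q hQ 𝔓 h𝔓
    have hQS := hJ hQ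
    obtain ⟨w, hw, hO⟩ := hLIE M Ω R O' 𝔓
    have hQw : Ov Q w := (hO Q).2 h𝔓
    have hδw : ¬ Ov δ w := not_ov_delta hδ hS hT' hdis hQS hQw
    have hew : ¬ Ov e w := not_ov_delta heT hS hT' hdis hQS hQw
    have hδ𝔓 : ¬ Ov δ 𝔓 := fun h => hδw ((hO δ).2 h)
    have h2w : ¬ Ov 2 w := not_ov_T hS hT' hdis hQS h2T hQw
    have h3w : ¬ Ov 3 w := not_ov_T hS hT' hdis hQS h3T hQw
    obtain ⟨v, hv⟩ := (hUR ℚ M ℤ R γ g δ hG).1 w hδw
    haveI : Finite (R ⧸ w.asIdeal) :=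
      Pool.Agent.N42.PQ.finite_residue (L := M) (hS Q hQS).1.2.ne_zero hQw
    have hprod : ((∏ P ∈ J, P) * e) = Q * ((∏ P ∈ J.erase Q, P) * e) := by
      rw [← mul_assoc]
      congr 1
      exact (Finset.mul_prod_erase J id hQ).symm
    have hvQ : w.valuation M (Q : M) = v.valuation ℚ (Q : ℚ) := by
      rw [← hv, map_intCast (algebraMap ℚ M)]
    have hϖ : w.valuation M (Q : M) = WithZero.exp (-1 : ℤ) := by
      refine le_antisymm (val_le_exp w ?_ ((ov_val Q w).1 hQw)) ?_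
      · exact_mod_cast (hS Q hQS).1.2.ne_zero
      · rw [hvQ]
        exact val_sqfree (hS Q hQS).1.2.irreducible.squarefree v
    have hD' : w.valuation M ((((∏ P ∈ J.erase Q, P) * e : ℤ)) : M) = 1 := by
      refine val_eq_of _ w fun h => ?_
      rcases ov_mul h with h | h
      · obtain ⟨P, hP, hP'⟩ := ov_prod h
        have hPS := hJ (Finset.mem_of_mem_erase hP)
        exact Finset.ne_of_mem_erase hP (below_unique (hS P hPS).1 (hS Q hQS).1 hP' hQw)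
      · exact hew h
    have hb1 : w.valuation M (b : M) < 1 := by
      rw [← ov_val]
      obtain ⟨c, hc⟩ := hF.rb Q hQS
      unfold Ov at hQw ⊢
      rw [hc, Int.cast_mul]
      exact Ideal.mul_mem_right _ _ hQw
    have hns := fun z hz => ns_top R hUR hSPD (a := a) hG (hS Q hQS).1.2 (hsp Q hQS)
      (fam_ns hS hF hQS) w hQw hδw z hz
    have e1 : (((a * ((∏ Q ∈ J, Q) * e) ^ 2 : ℤ)) : M) = (a : M) *
        ((Q : M) * ((((∏ P ∈ J.erase Q, P) * e : ℤ)) : M)) ^ 2 := by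
      rw [hprod]
      simp only [Int.cast_mul, Int.cast_pow]
    have e2 : (((b * ((∏ Q ∈ J, Q) * e) ^ 3 : ℤ)) : M) = (b : M) *
        ((Q : M) * ((((∏ P ∈ J.erase Q, P) * e : ℤ)) : M)) ^ 3 := by
      rw [hprod]
      simp only [Int.cast_mul, Int.cast_pow]
    have e3 : algebraMap M Ω ((Q : M) * ((((∏ P ∈ J.erase Q, P) * e : ℤ)) : M)) =
        ((((∏ P ∈ J, P) * e : ℤ)) : Ω) := by
      rw [hprod, map_mul, map_intCast, map_intCast, Int.cast_mul Q]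
    have hl := hloc w h2w
    rw [e1, e2] at hl
    have h2 := hLOC2M M Ω R O' w 𝔓 hw (a : M) (b : M)
      (Q : M) ((((∏ P ∈ J.erase Q, P) * e : ℤ)) : M) (algebraMap L Ω θ) h hroot
      (val_six h2w h3w) (val_le a w) hb1 hϖ hD' hns hl (by rw [e3]; exact h0)
    rw [e3, map_intCast (algebraMap M Ω)] at h2
    refine ⟨fun h3 => h2.1 h3 ?_, h2.2⟩
    exact odd_top O O' hEXQ hUR hc hF.sq hG' (hS Q hQS).1.2 (hF.rb Q hQS) (fam_ns hS hF hQS) 𝔓
      h𝔓 hδ𝔓 h3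
  refine ⟨fun 𝔓 h1 h2 => ?_, fun Q hQ 𝔓 h1 h2 => (key Q hQ 𝔓 h1).1 h2,
    fun Q hQ 𝔓 h1 h2 => (key Q hQ 𝔓 h1).2 h2⟩
  obtain ⟨w, hw, hO⟩ := hLIE M Ω R O' 𝔓
  have hnT : ∀ P ∈ T', ¬ Ov P w := fun P hP h => h1 P hP ((hO P).1 h)
  have hδw : ¬ Ov δ w := by
    intro h
    obtain ⟨P, hP, hP'⟩ := ov_delta hδ h
    exact hnT P hP hP'
  have hew : ¬ Ov e w := by
    intro h
    obtain ⟨P, hP, hP'⟩ := ov_delta heT h
    exact hnT P hP hP'
  obtain ⟨v, hv⟩ := (hUR ℚ M ℤ R γ g δ hG).1 w hδw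
  have hD : w.valuation M ((((∏ Q ∈ J, Q) * e : ℤ)) : M) = 1 := by
    refine val_eq_of _ w fun h => ?_
    rcases ov_mul h with h | h
    · obtain ⟨Q, hQ, h'⟩ := ov_prod h
      exact h2 Q hQ ((hO Q).1 h')
    · exact hew h
  have hdisc : WithZero.exp (-1 : ℤ) ≤ w.valuation M (4 * (a : M) ^ 3 +
      27 * (b : M) ^ 2) := by
    have e : 4 * (a : M) ^ 3 + 27 * (b : M) ^ 2 =
        algebraMap ℚ M ((dsc a b : ℤ) : ℚ) := by
      rw [map_intCast]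
      simp [dsc]
    rw [e, hv]
    exact val_sqfree hF.sq v
  have e3 : algebraMap M Ω ((((∏ P ∈ J, P) * e : ℤ)) : M) = ((((∏ P ∈ J, P) * e : ℤ)) : Ω) :=
    map_intCast _ _
  have hl := hloc w (hnT 2 h2T)
  have hl' : PLoc (w.adicCompletion M) ((a : M) * ((((∏ Q ∈ J, Q) * e : ℤ)) : M) ^ 2)
      ((b : M) * ((((∏ Q ∈ J, Q) * e : ℤ)) : M) ^ 3) h := by
    have e1 : (((a * ((∏ Q ∈ J, Q) * e) ^ 2 : ℤ)) : M) =
        (a : M) * ((((∏ Q ∈ J, Q) * e : ℤ)) : M) ^ 2 := by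
      simp only [Int.cast_mul, Int.cast_pow]
    have e2 : (((b * ((∏ Q ∈ J, Q) * e) ^ 3 : ℤ)) : M) =
        (b : M) * ((((∏ Q ∈ J, Q) * e : ℤ)) : M) ^ 3 := by
      simp only [Int.cast_mul, Int.cast_pow]
    rw [← e1, ← e2]
    exact hl
  have h3 := hLOC1M M Ω R O' w 𝔓 hw (a : M) (b : M)
    ((((∏ P ∈ J, P) * e : ℤ)) : M) (algebraMap L Ω θ) h hroot
    (val_six (hnT 2 h2T) (hnT 3 h3T)) (val_le a w) (val_le b w) hD hdisc hl'
    (by rw [e3]; exact h0)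
  rw [e3] at h3
  exact h3

end top

end Run7.h23
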