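import Pool.Agent.Run7.h23.Loc

/-!
# The descent of the local condition at `2` for the twists
-/

set_option autoImplicit false
set_option linter.all false

open Polynomial
open scoped Classical

namespace Run7.h23

open Pool.Agent.N922.PQ Pool.Agent.N323.PV
open Pool.Agent.N951.PV (v_int v_rat pol_map cast_congr pl_sq pl_congr)

theorem plt_congr {F : Type} [Field F] {a b e : ℤ} {h h' : F[X]} (hd : ff F a b ∣ h - h')
    (H : PLt F a b e h) : PLt F a b e h' := by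
  rcases H with ⟨g, hg⟩ | ⟨x, y, hy, hxy, g, hg⟩
  · left
    refine ⟨g, ?_⟩
    have e : h' - g ^ 2 = (h - g ^ 2) - (h - h') := by ring
    rw [e]
    exact dvd_sub hg hd
  · right
    refine ⟨x, y, hy, hxy, g, ?_⟩
    have e1 : C (e : F) * ((C x - X) * h') - g ^ 2 =
        (C (e : F) * ((C x - X) * h) - g ^ 2) - C (e : F) * (C x - X) * (h - h') := by ring
    rw [e1]
    exact dvd_sub hg (dvd_mul_of_dvd_right hd _)

theorem plt_sq {F : Type} [Field F] {a b e : ℤ} {h : F[X]} (k : F[X]) (H : PLt F a b e h) :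
    PLt F a b e (k ^ 2 * h) := by
  rcases H with ⟨g, hg⟩ | ⟨x, y, hy, hxy, g, hg⟩
  · left
    refine ⟨k * g, ?_⟩
    have e : k ^ 2 * h - (k * g) ^ 2 = k ^ 2 * (h - g ^ 2) := by ring
    rw [e]
    exact dvd_mul_of_dvd_right hg _
  · right
    refine ⟨x, y, hy, hxy, k * g, ?_⟩
    have e : C (e : F) * ((C x - X) * (k ^ 2 * h)) - (k * g) ^ 2 =
        k ^ 2 * (C (e : F) * ((C x - X) * h) - g ^ 2) := by ring
    rw [e]
    exact dvd_mul_of_dvd_right hg _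

/-- The element `x` is `1 + 2 (g₁ θ + g₂ θ ^ 2)` modulo `4`, up to squares. -/
def Kl {L : Type} [Field L] [CharZero L] (θ : L) (g₁ g₂ : ℤ) (x : L) : Prop :=
  ∃ (c : L) (r s t : ℚ), c ≠ 0 ∧ Odd r.den ∧ Odd s.den ∧ Odd t.den ∧
    x = c ^ 2 * aeval θ (pol ℚ g₁ g₂ r s t)

section loc

variable {L : Type} [Field L] [NumberField L] {a b : ℤ} {θ : L}

/-- If `x` satisfies the local condition of the twist by `e` then so does its normal form. -/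
theorem cls_of (hc : IsCub a b θ) (ha : a % 4 = 3) (hb : b % 4 = 3) {x : L}
    {F Γ : Type} [Field F] [CharZero F] [LinearOrderedCommGroupWithZero Γ] (v : Valuation F Γ)
    (hv2 : v 2 < 1) (hv : ∀ x : F, v x < 1 → v x ≤ v 2)
    (hnr : ∀ x : F, v x ≤ 1 → v (x ^ 3 + a * x + b) = 1) {e : ℤ} (he : e ≠ 0)
    (hPL : ∀ h : ℚ[X], aeval θ h = x → PLt F a b e (h.map (algebraMap ℚ F)))
    {g₁ g₂ : ℤ} (hK : Kl θ g₁ g₂ x) :
    (Even g₁ ∧ Even g₂) ∨ (Gd e ∧ Even g₂) ∨ (Bd e ∧ (Even g₁ ↔ Even g₂)) := by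
  obtain ⟨c, r, s, t, hc0, hr, hs, ht, hα⟩ := hK
  obtain ⟨k, hk⟩ := hc.exists_poly c
  obtain ⟨k', hk'⟩ := hc.exists_poly c⁻¹
  set P : ℚ[X] := pol ℚ g₁ g₂ r s t with hP
  have e1 : aeval θ (k ^ 2 * P) = x := by
    rw [map_mul, map_pow, hk, hα]
  have e2 : aeval θ (k' ^ 2 * (k ^ 2 * P)) = aeval θ P := by
    rw [map_mul, map_pow, hk', e1, hα, ← mul_assoc, ← mul_pow, inv_mul_cancel₀ hc0, one_pow, one_mul]
  have h3 := plt_sq (k'.map (algebraMap ℚ F)) (hPL _ e1)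
  rw [← Polynomial.map_pow, ← Polynomial.map_mul] at h3
  have h4 := plt_congr (cast_congr hc F e2) h3
  rw [hP, pol_map] at h4
  obtain ⟨m, e', rfl, he'⟩ : ∃ (k : ℕ) (e' : ℤ), e = 4 ^ k * e' ∧ e' % 4 ≠ 0 := by
    rcases gd_or_bd he with ⟨k, e', h1, h2⟩ | ⟨k, e', h1, h2⟩
    · exact ⟨k, e', h1, by omega⟩
    · exact ⟨k, e', h1, by omega⟩
  have h5 := cal v hv2 hv ha hb hnr he' g₁ g₂ (v_rat v hv2 r hr) (v_rat v hv2 s hs)
    (v_rat v hv2 t ht) (plt_four h4)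
  rcases h5 with h | ⟨h, h'⟩ | ⟨h, h'⟩
  · exact Or.inl h
  · exact Or.inr (Or.inl ⟨⟨m, e', rfl, h⟩, h'⟩)
  · exact Or.inr (Or.inr ⟨⟨m, e', rfl, h⟩, h'⟩)

/-- The normal form gives the local condition at `2`. -/
theorem loc2_of (hc : IsCub a b θ) (ha : a % 4 = 3) (hb : b % 4 = 3) {x : L} (hx : x ≠ 0)
    (hN : IsSquare (Algebra.norm ℚ x)) :
    ∃ g₁ g₂ : ℤ, Kl θ g₁ g₂ x ∧ (Even g₂ → Loc2 a b θ x) := by
  have hao : Odd a := by rw [Int.odd_iff]; omega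
  have hbo : Odd b := by rw [Int.odd_iff]; omega
  have hab : (4 : ℤ) ∣ a - b := by omega
  obtain ⟨c, g₁, g₂, r, s, t, hc0, hr, hs, ht, hα⟩ :=
    Pool.Agent.N907.PV.t_NF2 L a b θ hc hao hbo x hx hN
  have hr2 : Odd (((g₁ * (1 + g₂) : ℤ) : ℚ) + 2 * r).den := by
    obtain ⟨z, hz⟩ : ∃ z : ℤ, z = g₁ * (1 + g₂) := ⟨_, rfl⟩
    rw [← hz]
    have h1 : (2 * r : ℚ).den ∣ r.den := by
      have := Rat.mul_den_dvd 2 r
      simpa using this
    have h2 : ((z : ℚ) + 2 * r).den ∣ r.den := by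
      have := Rat.add_den_dvd (z : ℚ) (2 * r)
      simp only [Rat.den_intCast, one_mul] at this
      exact this.trans h1
    exact Odd.of_dvd_nat hr h2
  refine ⟨g₁, g₂, ⟨c, _, s, t, hc0, hr2, hs, ht, hα⟩, fun hg2 => ?_⟩
  obtain ⟨k, hk⟩ := hc.exists_poly c
  set P : ℚ[X] := pol ℚ g₁ g₂ ((g₁ * (1 + g₂) : ℤ) + 2 * r) s t with hP
  have e1 : aeval θ (k ^ 2 * P) = x := by
    rw [map_mul, map_pow, hk, hα]
  have h5 : (Even g₁ ∧ Even g₂) ∨ ((4 : ℤ) ∣ 2 * g₁ - (1 - a) ∧ (4 : ℤ) ∣ 2 * g₂ - (3 - a)) := by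
    rcases Int.even_or_odd g₁ with hg1 | hg1
    · exact Or.inl ⟨hg1, hg2⟩
    · right
      rw [Int.odd_iff] at hg1
      rw [Int.even_iff] at hg2
      constructor <;> omega
  -- over `ℚ_2`
  have hnd : ∀ q : ℚ, Odd q.den → ‖(q : ℚ_[2])‖ ≤ 1 := by
    intro q hq
    apply Padic.norm_rat_le_one
    intro h
    exact (Nat.not_even_iff_odd.2 hq) (even_iff_two_dvd.2 h)
  have h6 := Pool.Agent.N951.PV.pt2 a b hao hab g₁ g₂
    ((((g₁ * (1 + g₂) : ℤ) : ℚ) + 2 * r : ℚ) : ℚ_[2]) s t (by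
    have e : ((((g₁ * (1 + g₂) : ℤ) : ℚ) + 2 * r : ℚ) : ℚ_[2]) - ((g₁ * (1 + g₂) : ℤ) : ℚ_[2]) =
        2 * (r : ℚ_[2]) := by
      push_cast
      ring
    rw [e, norm_mul]
    have e3 : ‖(2 : ℚ_[2])‖ = 1 / 2 := by
      have := Padic.norm_p (p := 2)
      rw [Nat.cast_ofNat] at this
      rw [this]
      norm_num
    rw [e3]
    have := hnd r hr
    linarith) (hnd s hs) (hnd t ht) h5
  rw [← pol_map, ← hP] at h6
  intro h' hh'
  have h7 : PL ℚ_[2] a b ((k.map (algebraMap ℚ ℚ_[2])) ^ 2 * P.map (algebraMap ℚ ℚ_[2])) :=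
    pl_sq _ h6
  rw [← Polynomial.map_pow, ← Polynomial.map_mul] at h7
  exact pl_congr (cast_congr hc ℚ_[2] (e1.trans hh'.symm)) h7

/-- Descent of the local condition of a twist by a good number. -/
theorem udt (hc : IsCub a b θ) (ha : a % 4 = 3) (hb : b % 4 = 3) {x : L} (hx : x ≠ 0)
    (hN : IsSquare (Algebra.norm ℚ x))
    {F Γ : Type} [Field F] [CharZero F] [LinearOrderedCommGroupWithZero Γ] (v : Valuation F Γ)
    (hv2 : v 2 < 1) (hv : ∀ x : F, v x < 1 → v x ≤ v 2)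
    (hnr : ∀ x : F, v x ≤ 1 → v (x ^ 3 + a * x + b) = 1) {e : ℤ} (he : e ≠ 0) (hb' : ¬ Bd e)
    (hPL : ∀ h : ℚ[X], aeval θ h = x → PLt F a b e (h.map (algebraMap ℚ F))) :
    Loc2 a b θ x := by
  obtain ⟨g₁, g₂, hK, h2⟩ := loc2_of hc ha hb hx hN
  rcases cls_of hc ha hb v hv2 hv hnr he hPL hK with h | h | h
  · exact h2 h.2
  · exact h2 h.2
  · exact absurd h.1 hb'

end loc

end Run7.h23
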