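import Pool.Agent.N922.PQ.Cnt2
import Pool.Agent.N301.PV.NR
import Pool.Agent.Run7.h23.Udt
import Pool.Agent.Run7.h23.Top

/-!
# The 2-Selmer groups of the twists, over an extension in which `2` is unramified

Adapted from `Pool.Agent.N922.PQ.Big6` (helper922).
-/

set_option autoImplicit false
set_option linter.all false

open Polynomial IsDedekindDomain WeierstrassCurve WeierstrassCurve.Affine NumberField
open Pool.Agent.TH115.GD
open scoped Classical IntermediateField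

namespace Run7.h23

open Pool.Agent.N922.PQ
open Pool.Agent.N874.PP (Tup chA chB gq tau Two Ev Sq1 U0 sW IsBeta Rt)
open Pool.Agent.N874.PM (PLoc Lies SelR ShaR)

/-- A multiple of the generator. -/
theorem cub_mul {L : Type} [Field L] [CharZero L] {a b : ℤ} {θ : L} (hc : IsCub a b θ) {N : ℤ}
    (hN : N ≠ 0) : IsCub (a * N ^ 2) (b * N ^ 3) ((N : L) * θ) where
  root := by
    push_cast
    linear_combination (N : L) ^ 3 * hc.root
  rank := hc.rank
  gen := by
    intro x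
    obtain ⟨r, s, t, rfl⟩ := hc.gen x
    have hN' : (N : L) ≠ 0 := by exact_mod_cast hN
    refine ⟨r, s / N, t / N ^ 2, ?_⟩
    push_cast
    field_simp

section nr

variable {M R : Type} [Field M] [CommRing R] [IsDedekindDomain R] [Algebra R M]
  [IsFractionRing R M]

/-- an integral element at which the cubic polynomial is not a unit gives an element of `R` -/
theorem exists_r' (w : HeightOneSpectrum R) (a b : ℤ) (t : w.adicCompletion M)
    (ht : Valued.v t ≤ 1)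
    (h : Valued.v (t ^ 3 + (a : w.adicCompletion M) * t + (b : w.adicCompletion M)) < 1) :
    ∃ r : R, r ^ 3 + (a : R) * r + (b : R) ∈ w.asIdeal := by
  obtain ⟨x, hx⟩ := Pool.Agent.N301.PV.near_one w t
  have hx1 : w.valuation M x ≤ 1 := by
    rw [← Pool.Agent.N301.PV.vx]
    have e : algebraMap M (w.adicCompletion M) x =
        t - (t - algebraMap M (w.adicCompletion M) x) := by ring
    rw [e]
    exact (Valuation.map_sub _ _ _).trans (max_le ht hx.le)
  obtain ⟨r, hr⟩ := w.exists_valuation_sub_lt_of_integer (K := M) hx1 1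
  have hr1 : w.valuation M (algebraMap R M r - x) < 1 := by exact_mod_cast hr
  refine ⟨r, ?_⟩
  rw [← w.valuation_lt_one_iff_mem (K := M), ← Pool.Agent.N301.PV.vx]
  obtain ⟨ρ, hρ⟩ : ∃ ρ, ρ = algebraMap M (w.adicCompletion M) (algebraMap R M r) := ⟨_, rfl⟩
  have e1 : algebraMap M (w.adicCompletion M) (algebraMap R M (r ^ 3 + (a : R) * r + (b : R))) =
      ρ ^ 3 + (a : w.adicCompletion M) * ρ + (b : w.adicCompletion M) := by
    rw [hρ]
    simp only [map_add, map_mul, map_pow, map_intCast]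
  have hd : Valued.v (ρ - t) < 1 := by
    have e : ρ - t = algebraMap M (w.adicCompletion M) (algebraMap R M r - x) -
        (t - algebraMap M (w.adicCompletion M) x) := by
      rw [hρ, map_sub]
      ring
    rw [e]
    refine lt_of_le_of_lt (Valuation.map_sub _ _ _) (max_lt ?_ hx)
    rw [Pool.Agent.N301.PV.vx]
    exact hr1
  have hρ1 : Valued.v ρ ≤ 1 := by
    have e : ρ = (ρ - t) + t := by ring
    rw [e]
    exact (Valuation.map_add _ _ _).trans (max_le hd.le ht)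
  have e2 : ρ ^ 3 + (a : w.adicCompletion M) * ρ + (b : w.adicCompletion M) =
      (ρ - t) * (ρ * ρ + ρ * t + t * t + (a : w.adicCompletion M)) +
        (t ^ 3 + (a : w.adicCompletion M) * t + (b : w.adicCompletion M)) := by
    ring
  rw [e1, e2]
  have hmul : ∀ {x y : w.adicCompletion M}, Valued.v x ≤ 1 → Valued.v y ≤ 1 →
      Valued.v (x * y) ≤ 1 := by
    intro x y hx hy
    rw [map_mul]
    exact mul_le_one' hx hy
  have h3 : Valued.v (ρ * ρ + ρ * t + t * t + (a : w.adicCompletion M)) ≤ 1 := by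
    refine (Valuation.map_add _ _ _).trans (max_le ?_ (Pool.Agent.N301.PV.vint _ a))
    refine (Valuation.map_add _ _ _).trans (max_le ?_ (hmul ht ht))
    exact (Valuation.map_add _ _ _).trans (max_le (hmul hρ1 hρ1) (hmul hρ1 ht))
  refine lt_of_le_of_lt (Valuation.map_add _ _ _) (max_lt ?_ h)
  rw [map_mul]
  calc _ ≤ Valued.v (ρ - t) * 1 := mul_le_mul' le_rfl h3
    _ = Valued.v (ρ - t) := mul_one _
    _ < 1 := hd

end nr

/-- The values of the cubic polynomial are units. -/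
theorem nr' (M R : Type) [Field M] [NumberField M] [IsGalois ℚ M] [CommRing R]
    [IsDedekindDomain R] [Algebra R M] [IsFractionRing R M] [IsIntegralClosure R ℤ M] (n : ℕ)
    (hn : Module.finrank ℚ M = 2 ^ n) (w : HeightOneSpectrum R) (hw : Ov 2 w) (a b : ℤ)
    (ha : Odd a) (hb : Odd b) (t : w.adicCompletion M) (ht : Valued.v t ≤ 1) :
    Valued.v (t ^ 3 + (a : w.adicCompletion M) * t + (b : w.adicCompletion M)) = 1 := by
  have hle : Valued.v (t ^ 3 + (a : w.adicCompletion M) * t + (b : w.adicCompletion M)) ≤ 1 := by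
    refine (Valuation.map_add _ _ _).trans (max_le ?_ (Pool.Agent.N301.PV.vint _ b))
    refine (Valuation.map_add _ _ _).trans (max_le ?_ ?_)
    · rw [map_pow]
      exact pow_le_one' ht 3
    · rw [map_mul]
      exact mul_le_one' (Pool.Agent.N301.PV.vint _ a) ht
  refine le_antisymm hle (not_lt.1 fun hlt => ?_)
  obtain ⟨r, hr⟩ := exists_r' w a b t ht hlt
  let e : R ≃+* 𝓞 M := (IsIntegralClosure.equiv ℤ R M (𝓞 M)).toRingEquiv
  have hp : (w.asIdeal.comap (e.symm : 𝓞 M →+* R)).IsPrime := inferInstance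
  refine Pool.Agent.N301.PV.no_root M n hn (w.asIdeal.comap (e.symm : 𝓞 M →+* R)) ?_ a b ha hb
    (e r) ?_
  · rw [Ideal.mem_comap, map_ofNat]
    have h : ((2 : ℤ) : R) ∈ w.asIdeal := hw
    simpa using h
  · rw [Ideal.mem_comap]
    have h : (e.symm : 𝓞 M →+* R) ((e r) ^ 3 + (a : 𝓞 M) * (e r) + (b : 𝓞 M)) =
        r ^ 3 + (a : R) * r + (b : R) := by
      simp
    rw [h]
    exact hr

/-- The completion at a prime over `2`. -/
theorem val_two_comp {M R : Type} [Field M] [NumberField M] [CommRing R] [IsDedekindDomain R]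
    [Algebra R M] [IsFractionRing R M] {w : HeightOneSpectrum R}
    (hw : w.valuation M 2 = WithZero.exp (-1 : ℤ)) :
    Valued.v (2 : w.adicCompletion M) < 1 ∧
      ∀ z : w.adicCompletion M, Valued.v z < 1 → Valued.v z ≤ Valued.v (2 : w.adicCompletion M) := by
  have hv2 : Valued.v (2 : w.adicCompletion M) = WithZero.exp (-1 : ℤ) := by
    have h1 := HeightOneSpectrum.valuedAdicCompletion_eq_valuation' (K := M) w (2 : M)
    rw [hw] at h1
    have e : ((2 : M) : w.adicCompletion M) = 2 := by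
      have := map_ofNat (algebraMap M (w.adicCompletion M)) 2
      exact this
    rw [e] at h1
    exact h1
  refine ⟨?_, fun z hz => ?_⟩
  · rw [hv2, ← WithZero.exp_zero, WithZero.exp_lt_exp]
    norm_num
  · rw [hv2]
    by_cases h0 : Valued.v z = 0
    · rw [h0]
      exact zero_le'
    · rw [← WithZero.exp_log h0, ← WithZero.exp_zero, WithZero.exp_lt_exp] at hz
      rw [← WithZero.exp_log h0, WithZero.exp_le_exp]
      omega

section abs

variable {L M Ω : Type} (O O' R : Type) [Field L] [NumberField L] [Field M] [NumberField M]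
  [Field Ω] [NumberField Ω] [Algebra L Ω] [Algebra M Ω]
  [CommRing O] [IsDedekindDomain O] [Algebra O L] [IsFractionRing O L] [IsIntegralClosure O ℤ L]
  [CommRing O'] [IsDedekindDomain O'] [Algebra O' Ω] [IsFractionRing O' Ω]
  [IsIntegralClosure O' ℤ Ω]
  [CommRing R] [IsDedekindDomain R] [Algebra R M] [IsFractionRing R M] [IsIntegralClosure R ℤ M]
  [IsGalois ℚ M]

/-- The base of the descent. -/
theorem base_tw {a b : ℤ} {θ : L} (hc : IsCub a b θ) (ha : a % 4 = 3) (hb : b % 4 = 3) {n : ℕ}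
    (hM : Module.finrank ℚ M = 2 ^ n)
    (hur : ∀ w : HeightOneSpectrum R, Ov 2 w → w.valuation M 2 = WithZero.exp (-1 : ℤ))
    {N : ℤ} (hN0 : N ≠ 0) (hNb : ¬ Bd N)
    {x : L} (hx : x ≠ 0) (hN : IsSquare (Algebra.norm ℚ x))
    (hC : C2w M R (a * N ^ 2) (b * N ^ 3) (algebraMap L Ω ((N : L) * θ)) (algebraMap L Ω x)) :
    Loc2 a b θ x := by
  haveI : Algebra.IsIntegral ℤ R := IsIntegralClosure.isIntegral_algebra ℤ M
  haveI : CharZero R := charZero_of R M
  obtain ⟨w, hw⟩ := exists_over R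
  obtain ⟨k1, k2⟩ := val_two_comp (hur w hw)
  have hao : Odd a := by rw [Int.odd_iff]; omega
  have hbo : Odd b := by rw [Int.odd_iff]; omega
  refine udt hc ha hb hx hN (F := w.adicCompletion M) (Valued.v) k1 k2
    (fun t ht => nr' M R n hM w hw a b hao hbo t ht) hN0 hNb fun h hh => ?_
  have hNM : (N : M) ≠ 0 := by exact_mod_cast hN0
  have hNL : (N : Ω) ≠ 0 := by exact_mod_cast hN0
  have h1 := hC w hw ((h.map (algebraMap ℚ M)).comp (C (1 / (N : M)) * X)) (by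
    rw [aeval_comp, map_mul, aeval_X, aeval_C, map_mul, map_intCast, map_div₀, map_one,
      map_intCast, ← mul_assoc, one_div, inv_mul_cancel₀ hNL, one_mul, aeval_map_algebraMap,
      aeval_algebraMap_apply, hh])
  have h2 := plt_of_pl hN0 h1
  have hNF : (N : w.adicCompletion M) ≠ 0 := by exact_mod_cast hN0
  have e : ((((h.map (algebraMap ℚ M)).comp (C (1 / (N : M)) * X)).map
      (algebraMap M (w.adicCompletion M)))).comp (C (N : w.adicCompletion M) * X) =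
      h.map (algebraMap ℚ (w.adicCompletion M)) := by
    rw [Polynomial.map_comp, Polynomial.map_mul, map_C, map_X, Polynomial.map_map,
      map_div₀, map_one, map_intCast, comp_assoc]
    have e1 : (C (1 / (N : w.adicCompletion M)) * X : (w.adicCompletion M)[X]).comp
        (C (N : w.adicCompletion M) * X) = X := by
      rw [mul_comp, C_comp, X_comp, ← mul_assoc, ← C_mul, one_div, inv_mul_cancel₀ hNF, C_1,
        one_mul]
    rw [e1, comp_X]
    congr 1
    exact RingHom.ext_rat _ _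
  rw [e] at h2
  exact h2

/-- The conditions of `core2` for a subset `J`. -/
def Kil (O : Type) [CommRing O] [IsDedekindDomain O] [Algebra O L] [IsFractionRing O L]
    (J : Finset ℤ) (a b : ℤ) (θ : L) : Prop :=
  ∀ α : L, α ≠ 0 → IsSquare (Algebra.norm ℚ α) → Loc2 a b θ α →
      (∀ 𝔓 : HeightOneSpectrum O, (∀ Q ∈ J, ¬ Ov Q 𝔓) → Ev 𝔓 α) →
      (∀ Q ∈ J, ∀ 𝔓 : HeightOneSpectrum O, Ov Q 𝔓 → 𝔓.valuation L θ = 1 →
        U0 𝔓 ((Q : L) * θ) α) →
      (∀ Q ∈ J, ∀ 𝔓 : HeightOneSpectrum O, Ov Q 𝔓 → 𝔓.valuation L θ < 1 → Ev 𝔓 α) →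
      IsSquare α

/-- The primes which divide `e` are in `T` or such that the cubic polynomial has no zero modulo
them. -/
def Adm (T : Finset ℤ) (a b e : ℤ) : Prop :=
  ∀ P : ℤ, IsPr P → P ∣ e → P ∈ T ∨ ∀ z : ℤ, ¬ P ∣ z ^ 3 + a * z + b

/-- The set of the primes in `T` or dividing `e`. -/
theorem exists_T' {T : Finset ℤ} (hT : ∀ P ∈ T, IsPr P) {e : ℤ} (he : e ≠ 0) :
    ∃ T' : Finset ℤ, T ⊆ T' ∧ (∀ P ∈ T', IsPr P) ∧ (∀ P : ℤ, IsPr P → P ∣ e → P ∈ T') ∧
      ∀ P ∈ T', P ∈ T ∨ P ∣ e := by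
  have hf : {P : ℤ | IsPr P ∧ P ∣ e}.Finite := by
    refine (Set.finite_Icc (-|e|) |e|).subset ?_
    rintro P ⟨-, h⟩
    have h3 : |P| ≤ |e| := Int.le_of_dvd (abs_pos.2 he) ((abs_dvd_abs P e).2 h)
    exact abs_le.1 h3
  refine ⟨T ∪ hf.toFinset, Finset.subset_union_left, fun P hP => ?_, fun P h1 h2 => ?_,
    fun P hP => ?_⟩
  · rcases Finset.mem_union.1 hP with h | h
    · exact hT P h
    · exact (hf.mem_toFinset.1 h).1
  · exact Finset.mem_union_right _ (hf.mem_toFinset.2 ⟨h1, h2⟩)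
  · rcases Finset.mem_union.1 hP with h | h
    · exact Or.inl h
    · exact Or.inr (hf.mem_toFinset.1 h).2

/-- `1` modulo `8` times a number which is not bad. -/
theorem not_bd_mul {D e : ℤ} (hD : D % 8 = 1) (he : e ≠ 0) (hb : ¬ Bd e) : ¬ Bd (D * e) := by
  rintro ⟨k, f, h1, h2⟩
  rcases gd_or_bd he with ⟨l, e', h3, h4⟩ | h3
  · -- compare the powers of `4`
    rw [h3] at h1
    have h5 : 4 ^ l * (D * e') = 4 ^ k * f := by rw [← h1]; ring
    have h6 : (D * e') % 4 = 1 ∨ (D * e') % 4 = 2 := by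
      have h7 : D % 4 = 1 := by omega
      rw [Int.mul_emod, h7, one_mul, Int.emod_emod_of_dvd _ (dvd_refl 4)]
      exact h4
    rcases lt_trichotomy l k with hlk | hlk | hlk
    · obtain ⟨j, rfl⟩ := Nat.exists_eq_add_of_lt hlk
      have h8 : (D * e') = 4 * (4 ^ j * f) := by
        have h9 : (4 : ℤ) ^ l ≠ 0 := pow_ne_zero _ (by norm_num)
        apply mul_left_cancel₀ h9
        rw [h5, pow_add, pow_add]
        ring
      omega
    · rw [hlk] at h5
      have h9 : (4 : ℤ) ^ k ≠ 0 := pow_ne_zero _ (by norm_num)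
      have h8 := mul_left_cancel₀ h9 h5
      omega
    · obtain ⟨j, rfl⟩ := Nat.exists_eq_add_of_lt hlk
      have h8 : f = 4 * (4 ^ j * (D * e')) := by
        have h9 : (4 : ℤ) ^ k ≠ 0 := pow_ne_zero _ (by norm_num)
        apply mul_left_cancel₀ h9
        rw [← h5, pow_add, pow_add]
        ring
      omega
  · exact hb h3

/-- The local conditions at the primes over `2`. -/
theorem c2w_of {N : ℤ} {a b : ℤ} {t : Ω}
    (hmin : minpoly M t = ff M (a * N ^ 2) (b * N ^ 3)) (h : M[X])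
    (hPL : ∀ w : HeightOneSpectrum R, Ov 2 w →
      PLoc (w.adicCompletion M) (((a * N ^ 2 : ℤ)) : M) (((b * N ^ 3 : ℤ)) : M) h) :
    C2w M R (a * N ^ 2) (b * N ^ 3) t (aeval t h) := by
  intro w hw h' hh'
  have h1 : PL (w.adicCompletion M) (a * N ^ 2) (b * N ^ 3)
      (h.map (algebraMap M (w.adicCompletion M))) := by
    have h2 := hPL w hw
    have e1 : algebraMap M (w.adicCompletion M) ((a * N ^ 2 : ℤ) : M) =
        ((a * N ^ 2 : ℤ) : w.adicCompletion M) := map_intCast _ _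
    have e2 : algebraMap M (w.adicCompletion M) ((b * N ^ 3 : ℤ) : M) =
        ((b * N ^ 3 : ℤ) : w.adicCompletion M) := map_intCast _ _
    unfold PLoc at h2
    rw [e1, e2] at h2
    exact h2
  refine Pool.Agent.N922.PQ.pl_congr ?_ h1
  have h4 : ff M (a * N ^ 2) (b * N ^ 3) ∣ h - h' := by
    rw [← hmin]
    apply minpoly.dvd
    rw [map_sub, hh', sub_self]
  have h5 := Polynomial.map_dvd (algebraMap M (w.adicCompletion M)) h4
  rw [ff_map, Polynomial.map_sub] at h5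
  exact h5

include O O' in
/-- The element of `Ω` which belongs to a Selmer class of a twist. -/
theorem sel_elt (H : Parts2) {a b : ℤ} {θ : L} {X' : ℕ}
    {S T : Finset ℤ} {s A B : ℤ → ℤ} (hc : IsCub a b θ) (hS : GoodS S s)
    (hF : Fam X' S s T A B a b)
    (hT : GoodT T A B)
    {γ : M} {g : ℤ[X]} {δ : ℤ} (hG : Gen ℚ γ g δ)
    (hG' : Gen L (algebraMap M Ω γ) g δ) (hsp : ∀ Q ∈ S, SplitMod Q g)
    {n : ℕ} (hM : Module.finrank ℚ M = 2 ^ n) (hΩ : Module.finrank M Ω = 3)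
    (htop : M⟮algebraMap L Ω θ⟯ = ⊤)
    {J : Finset ℤ} (hJ : J ⊆ S) {e : ℤ} (he : e ≠ 0)
    {T' : Finset ℤ} (hTT : T ⊆ T') (hT' : ∀ P ∈ T', IsPr P)
    (hδ' : ∀ P : ℤ, IsPr P → P ∣ δ → P ∈ T') (heT : ∀ P : ℤ, IsPr P → P ∣ e → P ∈ T')
    (hdis' : Disjoint S T') {N : ℤ} (hN : N = (∏ Q ∈ J, Q) * e)
    (f : (Sep M ≃ₐ[M] Sep M) → Pt (sW (((a * N ^ 2 : ℤ)) : M) (((b * N ^ 3 : ℤ)) : M)) (Sep M))
    (hf : IsCoc (sW (((a * N ^ 2 : ℤ)) : M) (((b * N ^ 3 : ℤ)) : M)) f)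
    (h2f : ∀ σ, (2 : ℕ) • f σ = 0)
    (hloc : ∀ v : HeightOneSpectrum R, LocTriv (sW (((a * N ^ 2 : ℤ)) : M)
      (((b * N ^ 3 : ℤ)) : M)) (Comp R M v) (Sep (Comp R M v)) f) :
    ∃ (β : Sep M → Sep M) (h : M[X]),
      IsBeta (((a * N ^ 2 : ℤ)) : M) (((b * N ^ 3 : ℤ)) : M) f β ∧
      (∀ t : Sep M, Rt (((a * N ^ 2 : ℤ)) : M) (((b * N ^ 3 : ℤ)) : M) t → aeval t h = β t ^ 2) ∧
      Rt (((a * N ^ 2 : ℤ)) : M) (((b * N ^ 3 : ℤ)) : M) ((N : Ω) * algebraMap L Ω θ) ∧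
      aeval ((N : Ω) * algebraMap L Ω θ) h ≠ 0 ∧
      IsSquare (Algebra.norm M (aeval ((N : Ω) * algebraMap L Ω θ) h)) ∧
      Cnd O' J T' (algebraMap L Ω θ) (aeval ((N : Ω) * algebraMap L Ω θ) h) ∧
      C2w M R (a * N ^ 2) (b * N ^ 3) (algebraMap L Ω ((N : L) * θ))
        (aeval ((N : Ω) * algebraMap L Ω θ) h) := by
  haveI : Algebra.IsIntegral ℤ R := IsIntegralClosure.isIntegral_algebra ℤ M
  haveI : CharZero R := charZero_of R M
  obtain ⟨hao, hbo⟩ := odd_of (fam_nt hT hF hT.1)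
  have h6M : (6 : M) ≠ 0 := by norm_num
  have hnr : ∀ w : HeightOneSpectrum R, Ov 2 w → ∀ t : w.adicCompletion M,
      t ^ 3 + (a : w.adicCompletion M) * t + (b : w.adicCompletion M) ≠ 0 :=
    fun w hw => H.nr M R n hM w hw a b hao hbo
  have hD1 : 0 < (∏ Q ∈ J, Q) := Finset.prod_pos fun Q hQ => (hS Q (hJ hQ)).1.1
  have hN0 : N ≠ 0 := by rw [hN]; exact mul_ne_zero hD1.ne' he
  obtain ⟨w₀, hw₀⟩ := exists_over R
  have hirrD := irr_tw' (F := M) (a := a * N ^ 2) (b := b * N ^ 3)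
    (fun t ht => by
      apply no_root_tw' (hnr w₀ hw₀) hN0 (algebraMap M _ t)
      have h1 := congrArg (algebraMap M (w₀.adicCompletion M)) ht
      rw [map_zero, map_add, map_add, map_mul, map_pow, map_intCast, map_intCast] at h1
      exact h1)
  have hdisc : 4 * (((a * N ^ 2 : ℤ)) : M) ^ 3 + 27 * (((b * N ^ 3 : ℤ)) : M) ^ 2 ≠ 0 := by
    have e : 4 * (((a * N ^ 2 : ℤ)) : M) ^ 3 + 27 * (((b * N ^ 3 : ℤ)) : M) ^ 2 =
        ((N ^ 6 * dsc a b : ℤ) : M) := by
      simp only [dsc, Int.cast_mul, Int.cast_add, Int.cast_pow, Int.cast_ofNat]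
      ring
    rw [e, Int.cast_ne_zero]
    exact mul_ne_zero (pow_ne_zero _ hN0) hF.sq.ne_zero
  have hroot : (algebraMap L Ω θ) ^ 3 + (a : Ω) * algebraMap L Ω θ + (b : Ω) = 0 := by
    have h1 := congrArg (algebraMap L Ω) hc.root
    rw [map_zero, map_add, map_add, map_mul, map_pow, map_intCast, map_intCast] at h1
    exact h1
  obtain ⟨β, hβ⟩ := H.p.gb M _ _ h6M hdisc hirrD f hf h2f
  obtain ⟨h, hh, hn⟩ := H.p.gn M _ _ h6M hdisc hirrD f hf h2f β hβ
  have hRt : Rt (((a * N ^ 2 : ℤ)) : M) (((b * N ^ 3 : ℤ)) : M)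
      ((N : Ω) * algebraMap L Ω θ) := by
    unfold Rt
    rw [map_intCast, map_intCast]
    simp only [Int.cast_mul, Int.cast_pow]
    linear_combination (N : Ω) ^ 3 * hroot
  have hn2 := hn Ω _ hRt hΩ
  have hmin : minpoly M (algebraMap L Ω ((N : L) * θ)) = ff M (a * N ^ 2) (b * N ^ 3) := by
    haveI : FiniteDimensional M Ω := FiniteDimensional.of_finrank_pos (by rw [hΩ]; norm_num)
    have hd : minpoly M (algebraMap L Ω ((N : L) * θ)) ∣ ff M (a * N ^ 2) (b * N ^ 3) := by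
      apply minpoly.dvd
      simp only [ff, map_add, map_mul, map_pow, aeval_X, aeval_C, map_intCast]
      have h1 := hRt
      unfold Rt at h1
      rw [map_intCast, map_intCast] at h1
      push_cast at h1 ⊢
      exact h1
    exact (minpoly.eq_of_irreducible_of_monic hirrD (by
      have h1 := hRt
      unfold Rt at h1
      rw [map_intCast, map_intCast] at h1
      simp only [map_add, map_mul, map_pow, aeval_X, aeval_C, map_intCast]
      exact h1) (ff_monic M _ _)).symm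
  have hcnd := cnd_tw O O' R H.p.exq H.p.ur H.p.spd H.p.lie H.p.loc1 H.p.loc2 hc hS hF hG hG' hsp
    hT' (hTT hT.1) (hTT hT.2.1) hδ' hdis' hJ heT (h := h)
    (fun w hw => by
      rw [← hN]
      exact H.p.glr M R _ _ h6M hdisc f hf h2f β h hβ hh w (val_two hw) (hloc w))
    (by rw [← hN]; exact hn2.1)
  rw [← hN] at hcnd
  have hc2 := c2w_of R (N := N) hmin h (fun w hw =>
    H.p.glr2 M R _ _ h6M hdisc f hf h2f β h hβ hh w (fun t ht => by
      apply no_root_tw' (hnr w hw) hN0 t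
      rw [map_intCast, map_intCast] at ht
      exact ht) (hloc w))
  have e1 : algebraMap L Ω ((N : L) * θ) = (N : Ω) * algebraMap L Ω θ := by
    rw [map_mul, map_intCast]
  refine ⟨β, h, hβ, hh, hRt, hn2.1, hn2.2, hcnd, ?_⟩
  rw [e1] at hc2 ⊢
  exact hc2

include Ω O O' in
theorem selR_abs_tw (H : Parts2) {a b : ℤ} {θ : L} {X' : ℕ}
    {S T : Finset ℤ} {s A B : ℤ → ℤ} (hc : IsCub a b θ) (hS : GoodS S s)
    (hF : Fam X' S s T A B a b) (ha : a % 4 = 3) (hb : b % 4 = 3)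
    (hT : GoodT T A B)
    {γ : M} {g : ℤ[X]} {δ : ℤ} (hG : Gen ℚ γ g δ)
    (hG' : Gen L (algebraMap M Ω γ) g δ) (hsp : ∀ Q ∈ S, SplitMod Q g)
    (hδ : ∀ P : ℤ, IsPr P → P ∣ δ → P ∈ T) (hdis : Disjoint S T)
    {n : ℕ} (hM : Module.finrank ℚ M = 2 ^ n) (hΩ : Module.finrank M Ω = 3)
    (htop : M⟮algebraMap L Ω θ⟯ = ⊤)
    (hur : ∀ w : HeightOneSpectrum R, Ov 2 w → w.valuation M 2 = WithZero.exp (-1 : ℤ))
    {J : Finset ℤ} (hJ : J ⊆ S) (hsel : Kil O J a b θ) {e : ℤ} (he : e ≠ 0) (hbd : ¬ Bd e)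
    (hadm : Adm T a b e) :
    SelR R (sW (((a * ((∏ Q ∈ J, Q) * e) ^ 2 : ℤ)) : M) (((b * ((∏ Q ∈ J, Q) * e) ^ 3 : ℤ)) : M)) := by
  have hao : Odd a := by rw [Int.odd_iff]; omega
  have hbo : Odd b := by rw [Int.odd_iff]; omega
  have h6M : (6 : M) ≠ 0 := by norm_num
  have h2K : (2 : ℚ) ≠ 0 := by norm_num
  have hT0 : ∀ P ∈ T, IsPr P := fun P hP => (hT.2.2 P hP).1
  haveI : Algebra.IsIntegral ℤ R := IsIntegralClosure.isIntegral_algebra ℤ M
  haveI : Algebra.IsIntegral ℤ O' := IsIntegralClosure.isIntegral_algebra ℤ Ω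
  haveI : Algebra.IsIntegral ℤ O := IsIntegralClosure.isIntegral_algebra ℤ L
  haveI : CharZero R := charZero_of R M
  haveI : CharZero O' := charZero_of O' Ω
  haveI : CharZero O := charZero_of O L
  obtain ⟨T', hTT, hT', heT, hTor⟩ := exists_T' hT0 he
  have hδ' : ∀ P : ℤ, IsPr P → P ∣ δ → P ∈ T' := fun P h1 h2 => hTT (hδ P h1 h2)
  have hnoz : ∀ P ∈ T', ∀ z : ℤ, ¬ P ∣ z ^ 3 + a * z + b := by
    intro P hP
    rcases hTor P hP with h | h
    · exact fam_nt hT hF h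
    · rcases hadm P (hT' P hP) h with h' | h'
      · exact fam_nt hT hF h'
      · exact h'
  have hdis' : Disjoint S T' := by
    rw [Finset.disjoint_left]
    intro Q hQ hQT
    apply hnoz Q hQT 0
    have e0 : (0 : ℤ) ^ 3 + a * 0 + b = b := by ring
    rw [e0]
    exact hF.rb Q hQ
  have hnr : ∀ w : HeightOneSpectrum R, Ov 2 w → ∀ t : w.adicCompletion M,
      t ^ 3 + (a : w.adicCompletion M) * t + (b : w.adicCompletion M) ≠ 0 :=
    fun w hw => H.nr M R n hM w hw a b hao hbo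
  have hD1 : 0 < (∏ Q ∈ J, Q) := Finset.prod_pos fun Q hQ => (hS Q (hJ hQ)).1.1
  have hD8 : (∏ Q ∈ J, Q) % 8 = 1 := prod_mod8 fun Q hQ => (hS Q (hJ hQ)).2.1
  obtain ⟨N, hN⟩ : ∃ N : ℤ, N = (∏ Q ∈ J, Q) * e := ⟨_, rfl⟩
  have hN0 : N ≠ 0 := by rw [hN]; exact mul_ne_zero hD1.ne' he
  have hNb : ¬ Bd N := by rw [hN]; exact not_bd_mul hD8 he hbd
  rw [← hN]
  intro f hf h2f hloc
  obtain ⟨β, h, hβ, hh, hRt, hx0, hx2, hcnd, hc2⟩ := sel_elt O O' R H hc hS hF hT hG hG' hsp hM hΩ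
    htop hJ he hTT hT' hδ' heT hdis' hN f hf h2f hloc
  have hirrD := irr_tw' (F := M) (a := a * N ^ 2) (b := b * N ^ 3)
    (fun t ht => by
      obtain ⟨w₀, hw₀⟩ := exists_over R
      apply no_root_tw' (hnr w₀ hw₀) hN0 (algebraMap M _ t)
      have h1 := congrArg (algebraMap M (w₀.adicCompletion M)) ht
      rw [map_zero, map_add, map_add, map_mul, map_pow, map_intCast, map_intCast] at h1
      exact h1)
  have hdisc : 4 * (((a * N ^ 2 : ℤ)) : M) ^ 3 + 27 * (((b * N ^ 3 : ℤ)) : M) ^ 2 ≠ 0 := by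
    have e : 4 * (((a * N ^ 2 : ℤ)) : M) ^ 3 + 27 * (((b * N ^ 3 : ℤ)) : M) ^ 2 =
        ((N ^ 6 * dsc a b : ℤ) : M) := by
      simp only [dsc, Int.cast_mul, Int.cast_add, Int.cast_pow, Int.cast_ofNat]
      ring
    rw [e, Int.cast_ne_zero]
    exact mul_ne_zero (pow_ne_zero _ hN0) hF.sq.ne_zero
  have hdsc' : dsc (a * N ^ 2) (b * N ^ 3) ≠ 0 := by
    intro h0
    apply hdisc
    have h1 : ((dsc (a * N ^ 2) (b * N ^ 3) : ℤ) : M) = 0 := by rw [h0, Int.cast_zero]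
    unfold dsc at h1
    push_cast at h1 ⊢
    exact h1
  have htop' : M⟮algebraMap L Ω ((N : L) * θ)⟯ = ⊤ := by
    have e1 : algebraMap L Ω ((N : L) * θ) = algebraMap M Ω (N : M) * algebraMap L Ω θ := by
      rw [map_mul, map_intCast, map_intCast]
    rw [eq_top_iff, ← htop, IntermediateField.adjoin_simple_le_iff]
    have h1 := IntermediateField.mem_adjoin_simple_self M (algebraMap L Ω ((N : L) * θ))
    have h2 : algebraMap L Ω θ = algebraMap M Ω ((N : M)⁻¹) * algebraMap L Ω ((N : L) * θ) := by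
      have hNM : (N : M) ≠ 0 := by exact_mod_cast hN0
      rw [e1, ← mul_assoc, ← map_mul, inv_mul_cancel₀ hNM, map_one, one_mul]
    rw [h2]
    exact mul_mem (IntermediateField.algebraMap_mem _ _) h1
  obtain ⟨c1, c2, c3⟩ := H.c2w L M Ω R (a * N ^ 2) (b * N ^ 3) ((N : L) * θ) hdsc'
    (fun w hw t => by
      exact no_root_tw' (hnr w hw) hN0 t) (cub_mul hc hN0) hΩ htop'
  have hsq := H.p.tow n ℚ L M Ω h2K hM hc.rank hΩ
    (fun x => Cnd O' J T' (algebraMap L Ω θ) x ∧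
      C2w M R (a * N ^ 2) (b * N ^ 3) (algebraMap L Ω ((N : L) * θ)) x)
    (fun x hx => ⟨cnd_sq hx, c1 x⟩)
    (fun x y hx hy h h' => ⟨cnd_mul H.p.cls (fun Q hQ => ⟨(hS Q (hJ hQ)).1.2,
        not_dvd_two (hS Q (hJ hQ)).2.1 (hS Q (hJ hQ)).1.1 (hS Q (hJ hQ)).1.2⟩)
      (fun Q hQ 𝔓 h1 h2 => odd_top O O' H.p.exq H.p.ur hc hF.sq hG' (hS Q (hJ hQ)).1.2
        (hF.rb Q (hJ hQ)) (fam_ns hS hF (hJ hQ)) 𝔓 h1
        (not_ov_delta hδ' hS hT' hdis' (hJ hQ) h1) h2) hx hy h.1 h'.1, c2 x y h.2 h'.2⟩)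
    (fun σ x h => ⟨cnd_sig H.p.sig rfl σ h.1, c3 σ x h.2⟩)
    (fun x hx hC hN' => base_sq O O' hsel (H.p.ur L Ω O O' _ g δ hG').2
      (fun Q hQ => H.p.spd L Ω O' _ g δ hG' Q (hS Q (hJ hQ)).1.2 (hsp Q (hJ hQ)))
      (fun P hP => H.p.p3 L O a b θ hc hF.sq P (hT' P hP).2 (hnoz P hP))
      (fun 𝔓 h => ov_delta hδ' h)
      (fun Q hQ 𝔓 h => not_ov_delta hδ' hS hT' hdis' (hJ hQ) h) hx hC.1
      (base_tw R hc ha hb hM hur hN0 hNb hx hN' hC.2) hN')
    _ hx0 ⟨hcnd, hc2⟩ hx2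
  exact H.p.gt M _ _ h6M hdisc hirrD f hf h2f β h hβ hh _ _ hRt hΩ hsq

end abs

end Run7.h23
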