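import Pool.Agent.Run7.h23.Par
import Pool.Agent.Run7.h23.Sel
import Pool.Agent.N707.PQ.Crv

/-!
# The conditions over an arbitrary extension

Adapted from `Pool.Agent.N922.PQ.Big` (helper922), `Pool.Agent.N874.TW.Cnd` (helper874).
-/

set_option autoImplicit false
set_option linter.all false

open Polynomial IsDedekindDomain NumberField
open scoped Classical IntermediateField

namespace Run7.h23

open Pool.Agent.N922.PQ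
open Pool.Agent.N874.PP (Ev Sq1 U0)

section cond

variable {Ω : Type} [Field Ω] (O' : Type)
  [CommRing O'] [IsDedekindDomain O'] [Algebra O' Ω] [IsFractionRing O' Ω]

/-- The conditions. -/
structure Cn2 (J : Finset ℤ) (T : Set ℤ) (θ η x : Ω) : Prop where
  ev : ∀ 𝔓 : HeightOneSpectrum O', (∀ P ∈ T, ¬ Ov P 𝔓) → (∀ Q ∈ J, ¬ Ov Q 𝔓) →
    𝔓.valuation Ω η = 1 → Ev 𝔓 x
  u0 : ∀ Q ∈ J, ∀ 𝔓 : HeightOneSpectrum O', Ov Q 𝔓 → 𝔓.valuation Ω θ = 1 →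
    U0 𝔓 ((Q : Ω) * θ) x

variable {O'} {J : Finset ℤ} {T : Set ℤ} {θ η : Ω}

theorem cn2_sq {x : Ω} (hx : x ≠ 0) : Cn2 O' J T θ η (x ^ 2) where
  ev 𝔓 _ _ _ := ev_sq 𝔓 x
  u0 Q _ 𝔓 _ _ := by
    refine ⟨fun _ => ⟨x, ?_⟩, fun h => absurd (ev_sq 𝔓 x) h⟩
    rw [sub_self, map_zero, zero_lt_iff]
    exact (Valuation.ne_zero_iff _).2 (pow_ne_zero _ hx)

theorem cn2_mul [NumberField Ω] [IsIntegralClosure O' ℤ Ω] (hCLS : S_CLS)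
    (hJ : ∀ Q ∈ J, Prime Q ∧ ¬ Q ∣ 2)
    (hϖ : ∀ Q ∈ J, ∀ 𝔓 : HeightOneSpectrum O', Ov Q 𝔓 → 𝔓.valuation Ω θ = 1 →
      ¬ Ev 𝔓 ((Q : Ω) * θ)) {x y : Ω} (hx : x ≠ 0) (hy : y ≠ 0)
    (h : Cn2 O' J T θ η x) (h' : Cn2 O' J T θ η y) : Cn2 O' J T θ η (x * y) where
  ev 𝔓 h1 h2 h3 := ev_mul (h.ev 𝔓 h1 h2 h3) (h'.ev 𝔓 h1 h2 h3)
  u0 Q hQ 𝔓 h1 h3 := by
    have h4 := hϖ Q hQ 𝔓 h1 h3
    have h5 : (Q : Ω) * θ ≠ 0 := by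
      intro h0
      apply h4
      rw [h0]
      exact ⟨0, by simp⟩
    exact ((hCLS Ω O' Q 𝔓 _ (hJ Q hQ).1 (hJ Q hQ).2 h1 h5 h4 x y hx hy).2).2
      ⟨fun _ => h'.u0 Q hQ 𝔓 h1 h3, fun _ => h.u0 Q hQ 𝔓 h1 h3⟩

theorem cn2_sig [NumberField Ω] [IsIntegralClosure O' ℤ Ω] (hSIG : S_SIG) {L : Type} [Field L]
    [Algebra L Ω] {θ₀ η₀ : L} (hθ : θ = algebraMap L Ω θ₀) (hη : η = algebraMap L Ω η₀)
    (σ : Ω ≃ₐ[L] Ω) {x : Ω} (h : Cn2 O' J T θ η x) : Cn2 O' J T θ η (σ x) := by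
  have hf : ∀ y : L, σ (algebraMap L Ω y) = algebraMap L Ω y := fun y => σ.commutes y
  have hp : ∀ P : ℤ, σ (P : Ω) = (P : Ω) := fun P => map_intCast σ P
  have key := hSIG Ω O' (σ : Ω ≃+* Ω)
  have hev : ∀ (𝔓 𝔓' : HeightOneSpectrum O'), (∀ y : Ω, 𝔓'.valuation Ω y = 𝔓.valuation Ω (σ y)) →
      ∀ y : Ω, Ev 𝔓' y ↔ Ev 𝔓 (σ y) := by
    intro 𝔓 𝔓' hv y
    constructor
    · rintro ⟨z, hz⟩
      exact ⟨σ z, by rw [← hv, ← hv, hz]⟩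
    · rintro ⟨z, hz⟩
      refine ⟨σ.symm z, ?_⟩
      rw [hv, hv, σ.apply_symm_apply, hz]
  have hsq : ∀ (𝔓 𝔓' : HeightOneSpectrum O'), (∀ y : Ω, 𝔓'.valuation Ω y = 𝔓.valuation Ω (σ y)) →
      ∀ y : Ω, Sq1 𝔓' y → Sq1 𝔓 (σ y) := by
    rintro 𝔓 𝔓' hv y ⟨z, hz⟩
    refine ⟨σ z, ?_⟩
    rw [hv, hv, map_sub, map_pow] at hz
    exact hz
  refine ⟨fun 𝔓 h1 h2 h3 => ?_, fun Q hQ 𝔓 h1 h2 => ?_⟩
  · obtain ⟨𝔓', hv, hO⟩ := key 𝔓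
    have hv' : ∀ y : Ω, 𝔓'.valuation Ω y = 𝔓.valuation Ω (σ y) := hv
    exact (hev 𝔓 𝔓' hv' x).1 (h.ev 𝔓' (fun P hP hc => h1 P hP ((hO P).1 hc))
      (fun Q hQ hc => h2 Q hQ ((hO Q).1 hc)) (by rw [hv', hη, hf, ← hη]; exact h3))
  · obtain ⟨𝔓', hv, hO⟩ := key 𝔓
    have hv' : ∀ y : Ω, 𝔓'.valuation Ω y = 𝔓.valuation Ω (σ y) := hv
    have h3 := h.u0 Q hQ 𝔓' ((hO Q).2 h1) (by rw [hv', hθ, hf, ← hθ]; exact h2)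
    refine ⟨fun h4 => hsq 𝔓 𝔓' hv' x (h3.1 ((hev 𝔓 𝔓' hv' x).2 h4)), fun h4 => ?_⟩
    have h5 := hsq 𝔓 𝔓' hv' _ (h3.2 fun h6 => h4 ((hev 𝔓 𝔓' hv' x).1 h6))
    rw [map_mul, map_mul, hp, hθ, hf, ← hθ] at h5
    exact h5

end cond

section base

variable {L Ω : Type} (O O' : Type) [Field L] [NumberField L] [Field Ω] [Algebra L Ω]
  [CommRing O] [IsDedekindDomain O] [Algebra O L] [IsFractionRing O L] [IsIntegralClosure O ℤ L]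
  [CommRing O'] [IsDedekindDomain O'] [Algebra O' Ω] [IsFractionRing O' Ω]

/-- The base of the descent. -/
theorem base2 (hI : S_INT) {θ : L} {a b : ℤ} {J : Finset ℤ} {T : Set ℤ}
    (hc : IsCub a b θ) (hsq : Squarefree (dsc a b)) (hsel : Kil O J a b θ)
    (hJ : ∀ Q ∈ J, IsPr Q ∧ Q ∣ b ∧ ∀ z : ℤ, ¬ Q ∣ z ^ 2 + a)
    (hT : ∀ P ∈ T, IsPr P) (h2T : (2 : ℤ) ∈ T) (h3T : (3 : ℤ) ∈ T)
    (hUR : ∀ P : ℤ, IsPr P → P ∉ T → ∀ 𝔓 : HeightOneSpectrum O, Ov P 𝔓 →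
      𝔓.valuation L (3 * θ ^ 2 + (a : L)) = 1 → ∃ 𝔓' : HeightOneSpectrum O',
      ∀ x : L, 𝔓'.valuation Ω (algebraMap L Ω x) = 𝔓.valuation L x)
    (hSP : ∀ Q ∈ J, ∀ 𝔓 : HeightOneSpectrum O, Ov Q 𝔓 → 𝔓.valuation L θ = 1 →
      ∃ 𝔓' : HeightOneSpectrum O',
      (∀ x : L, 𝔓'.valuation Ω (algebraMap L Ω x) = 𝔓.valuation L x) ∧
      ∀ s : Ω, s ≠ 0 → ∃ s₀ : L, 𝔓'.valuation Ω (s - algebraMap L Ω s₀) < 𝔓'.valuation Ω s)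
    (hp3 : ∀ P ∈ T, ∀ x : L, x ≠ 0 → IsSquare (Algebra.norm ℚ x) →
      ∀ 𝔓 : HeightOneSpectrum O, Ov P 𝔓 → Ev 𝔓 x)
    {x : L} (hx : x ≠ 0)
    (hC : Cn2 O' J T (algebraMap L Ω θ) (algebraMap L Ω (3 * θ ^ 2 + (a : L))) (algebraMap L Ω x))
    (hl2 : Loc2 a b θ x)
    (hN : IsSquare (Algebra.norm ℚ x)) : IsSquare x := by
  haveI : Algebra.IsIntegral ℤ O := IsIntegralClosure.isIntegral_algebra ℤ L
  haveI : CharZero O := charZero_of O L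
  have key : ∀ P : ℤ, IsPr P → P ∉ T → P ∉ J → ∀ 𝔓 : HeightOneSpectrum O, Ov P 𝔓 →
      𝔓.valuation L (3 * θ ^ 2 + (a : L)) = 1 → Ev 𝔓 x := by
    intro P hP hPT hPJ 𝔓 h1 h2
    obtain ⟨𝔓', hv⟩ := hUR P hP hPT 𝔓 h1 h2
    rw [← ev_down hv]
    refine hC.ev 𝔓' (fun P' hP' h => ?_) (fun Q hQ h => ?_) (by rw [hv]; exact h2)
    · have := below_unique (hT P' hP') hP ((ov_down hv P').1 h) h1
      exact hPT (this ▸ hP')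
    · have := below_unique (hJ Q hQ).1 hP ((ov_down hv Q).1 h) h1
      exact hPJ (this ▸ hQ)
  refine hsel x hx hN hl2 (fun 𝔓 h𝔓 => ?_) (fun Q hQ 𝔓 h1 h2 => ?_) (fun Q hQ 𝔓 h1 h2 => ?_)
  · obtain ⟨P, hP, hP𝔓⟩ := exists_below 𝔓
    by_cases hPT : P ∈ T
    · exact hp3 P hPT x hx hN 𝔓 hP𝔓
    · have hPJ : P ∉ J := fun h => h𝔓 P h hP𝔓
      by_cases h1 : 𝔓.valuation L (3 * θ ^ 2 + (a : L)) = 1
      · exact key P hP hPT hPJ 𝔓 hP𝔓 h1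
      · have hn2 : ¬ P ∣ 2 := by
          intro h
          have h4 := Pool.Agent.N707.PQ.pr_eq hP.1 hP.2 ⟨by norm_num, Int.prime_two⟩ h
          exact hPT (h4 ▸ h2T)
        have hn3 : ¬ P ∣ 3 := by
          intro h
          have h4 := Pool.Agent.N707.PQ.pr_eq hP.1 hP.2 ⟨by norm_num, Int.prime_three⟩ h
          exact hPT (h4 ▸ h3T)
        obtain ⟨⟨c, hc'⟩, huniq⟩ := ram hI hc hsq hP.2 hn2 hn3 𝔓 hP𝔓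
          (lt_of_le_of_ne (eta_val hc 𝔓) h1)
        exact par1 hI hc hsq hP.2 𝔓 c hP𝔓 hc' hx hN fun 𝔮 hq hne =>
          key P hP hPT hPJ 𝔮 hq (huniq 𝔮 hq hne)
  · obtain ⟨𝔓', hv, hd⟩ := hSP Q hQ 𝔓 h1 h2
    have hQ' : Ov Q 𝔓' := (ov_down hv Q).2 h1
    have h3 := hC.u0 Q hQ 𝔓' hQ' (by rw [hv]; exact h2)
    refine ⟨fun h4 => sq_down hv hd (h3.1 ((ev_down hv x).2 h4)), fun h4 => ?_⟩
    have h5 := h3.2 fun h6 => h4 ((ev_down hv x).1 h6)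
    have e : algebraMap L Ω x * ((Q : Ω) * algebraMap L Ω θ) =
        algebraMap L Ω (x * ((Q : L) * θ)) := by
      rw [map_mul, map_mul, map_intCast]
    rw [e] at h5
    exact sq_down hv hd h5
  · exact parq' hI hc hsq (hJ Q hQ).1.2 (hJ Q hQ).2.1 (hJ Q hQ).2.2 𝔓 h1 h2 hx hN

end base

end Run7.h23
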