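import Pool.Agent.Run7.h23.Sl
import Pool.Agent.Run7.h23.Sel2

/-!
# The 2-Selmer groups over all the 2-extensions: the fields
-/

set_option autoImplicit false
set_option linter.all false

open Polynomial IsDedekindDomain WeierstrassCurve WeierstrassCurve.Affine NumberField
open Pool.Agent.TH115.GD
open scoped Classical IntermediateField

namespace Run7.h23

open Pool.Agent.N922.PQ
open Pool.Agent.N874.PP (Tup chA chB gq tau Two Ev Sq1 U0 sW IsBeta Rt)
open Pool.Agent.N874.PM (PLoc Lies SelR ShaR)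

/-- No zeros in number fields which are 2-extensions. -/
theorem no_root_M (H : Parts2) (M : Type) [Field M] [NumberField M] [IsGalois ℚ M] (R : Type)
    [CommRing R] [IsDedekindDomain R] [Algebra R M]
    [IsFractionRing R M] [IsIntegralClosure R ℤ M] {n : ℕ}
    (hM : Module.finrank ℚ M = 2 ^ n) {a b : ℤ} (ha : Odd a) (hb : Odd b) (t : M) :
    t ^ 3 + (a : M) * t + (b : M) ≠ 0 := by
  haveI : Algebra.IsIntegral ℤ R := IsIntegralClosure.isIntegral_algebra ℤ M
  haveI : CharZero R := charZero_of R M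
  obtain ⟨w₀, hw₀⟩ := exists_over R
  intro ht
  apply H.nr M R n hM w₀ hw₀ a b ha hb (algebraMap M _ t)
  have h1 := congrArg (algebraMap M (w₀.adicCompletion M)) ht
  rw [map_zero, map_add, map_add, map_mul, map_pow, map_intCast, map_intCast] at h1
  exact h1

/-- The theorem on the Selmer groups: one subset `J` for all the fields and all the twists. -/
theorem selR_uni (hI : S_INT) (H : Parts2) {κ : ℕ} (hLB : LBk κ)
    {a b : ℤ} {X' : ℕ}
    {S T : Finset ℤ} {s A B : ℤ → ℤ} (hS : GoodS S s)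
    (hF : Fam X' S s T A B a b) (ha : a % 4 = 3) (hb : b % 4 = 3) (hnb : ¬ LBad κ X' S s a b)
    (hT : GoodT T A B) :
    ∃ J ⊆ S, ∀ (M : Type) [Field M] [NumberField M] [IsGalois ℚ M] (R : Type) [CommRing R]
      [IsDedekindDomain R] [Algebra R M] [IsFractionRing R M] [IsIntegralClosure R ℤ M] (n : ℕ),
      Module.finrank ℚ M = 2 ^ n → Mok M R S T a b →
      ∀ e : ℤ, e ≠ 0 → ¬ Bd e → Adm T a b e →
      SelR R (sW (((a * ((∏ Q ∈ J, Q) * e) ^ 2 : ℤ)) : M)
        (((b * ((∏ Q ∈ J, Q) * e) ^ 3 : ℤ)) : M)) := by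
  have hao : Odd a := by rw [Int.odd_iff]; omega
  have hbo : Odd b := by rw [Int.odd_iff]; omega
  have hirr : Irreducible (ff ℚ a b) := by
    refine irr_tw' fun t ht => ?_
    apply no_root2 (fam_nt hT hF hT.1) (algebraMap ℚ ℚ_[2] t)
    have h1 := congrArg (algebraMap ℚ ℚ_[2]) ht
    rw [map_zero, map_add, map_add, map_mul, map_pow, map_intCast, map_intCast] at h1
    exact h1
  obtain ⟨L, iF, iN, θ, hc, hu⟩ := exists_cub hirr
  obtain ⟨J, hJ, hsel⟩ := core2 (L := L) (𝓞 L) H.p.cls H.p.exq H.p.ns H.p.lin H.p.recp H.p.plm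
    H.p.sd H.p.ttv hLB hc hS hT hF hnb
  refine ⟨J, hJ, ?_⟩
  intro M _ _ _ R _ _ _ _ _ n hM hMok e he hbd hadm
  have hirrM : Irreducible (ff M a b) := irr_tw' (no_root_M H M R hM hao hbo)
  obtain ⟨Ω, iF', iA', t, ht, hr, htop, hfin⟩ := exists_field hirrM (ff_monic M a b) (ff_deg M a b)
  haveI : CharZero Ω := charZero_of_injective_algebraMap (algebraMap M Ω).injective
  haveI : FiniteDimensional ℚ Ω := FiniteDimensional.trans ℚ M Ω
  haveI : NumberField Ω := ⟨⟩
  have ht' : t ^ 3 + (a : Ω) * t + (b : Ω) = 0 := by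
    simp only [ff, map_add, map_mul, map_pow, aeval_X, aeval_C, map_intCast] at ht
    exact ht
  obtain ⟨φ, hφ⟩ := hu Ω t ht'
  letI : Algebra L Ω := φ.toAlgebra
  have hroot : algebraMap L Ω θ = t := hφ
  have htop' : M⟮algebraMap L Ω θ⟯ = ⊤ := by rw [hroot]; exact htop
  exact selR_abs3 (𝓞 L) (𝓞 Ω) R hI H hc hS hF ha hb hT hMok hM hr htop' hJ hsel he hbd hadm

end Run7.h23
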