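import Pool.Agent.Run7.h23.Cnt3
import Pool.Agent.Run7.h23.Fd

/-!
# All 2-extensions at the same time: counting
-/

set_option autoImplicit false
set_option linter.all false

open Polynomial IsDedekindDomain WeierstrassCurve WeierstrassCurve.Affine NumberField
open Pool.Agent.TH115.GD
open scoped Classical IntermediateField

namespace Run7.h23

open Pool.Agent.N922.PQ
open Pool.Agent.N874.PP (Tup chA chB gq tau Two Ev Sq1 U0 sW IsBeta Rt sg)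
open Pool.Agent.N874.PM (PLoc Lies SelR ShaR)

/-- All the 2-extensions and all the admissible twists at the same time. -/
def GoodU (S T₀ : Finset ℤ) (t : ℤ) (p : ℤ × ℤ) : Prop :=
  ∀ (M : Type) [Field M] [NumberField M] [IsGalois ℚ M] (R : Type) [CommRing R]
    [IsDedekindDomain R] [Algebra R M] [IsFractionRing R M] [IsIntegralClosure R ℤ M] (n : ℕ),
    Module.finrank ℚ M = 2 ^ n → Mok M R S T₀ p.1 p.2 →
    ∀ d : ℤ, d ≠ 0 → AdmC T₀ p.1 p.2 d → ¬ Bd (t * d) →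
    GoodV (M := M) R (p.1 * d ^ 2, p.2 * d ^ 3)

theorem mok_of {M R : Type} [Field M] [CommRing R] [IsDedekindDomain R] [Algebra R M]
    [IsFractionRing R M] {S T T₀ : Finset ℤ} (hTT : T₀ ⊆ T) {a b N : ℤ}
    (h : Mok M R S T₀ (a * N ^ 2) (b * N ^ 3)) : Mok M R S T a b where
  two := h.two
  sun := h.sun
  sres := h.sres
  ram P hP hPT hw z hz := by
    apply h.ram P hP (fun h' => hPT (hTT h')) hw (N * z)
    have e : (N * z) ^ 3 + a * N ^ 2 * (N * z) + b * N ^ 3 =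
        N ^ 3 * (z ^ 3 + a * z + b) := by ring
    rw [e]
    exact hz.mul_left _

/-- The main theorem, with a bound of order `X ^ 5`. -/
theorem mainU (T₀ : Finset ℤ) (hT₀ : ∀ P ∈ T₀, IsPr P) (Φ : ℤ → Prop)
    (hEX : ∀ (T : Finset ℤ) (r : ℕ), ∃ (S : Finset ℤ) (s : ℤ → ℤ), GoodS S s ∧ S.card = r ∧
      Disjoint S T ∧ ∀ Q ∈ S, Φ Q) :
    ∃ S : Finset ℤ, (∀ Q ∈ S, IsPr Q ∧ Q % 8 = 1 ∧ Q ∉ T₀ ∧ Φ Q) ∧
    ∀ t : ℤ, (t = 1 ∨ t = -1 ∨ t = 2 ∨ t = -2) →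
    ∃ (P X₀ : ℕ) (c : ℝ), 0 < c ∧ 1 ≤ P ∧ ∀ X : ℕ, X₀ ≤ X → ∀ H : ℕ, 27 * (X * P) ^ 6 ≤ H →
      c * (X : ℝ) ^ 5 ≤ ({p : ℤ × ℤ | Crv H p.1 p.2 ∧ GoodU S T₀ t p}.ncard : ℝ) := by
  obtain ⟨κ, hLB'⟩ := lb
  obtain ⟨T, A, B, hTT₀, hT⟩ := Pool.Agent.N954.PQ.tch T₀ hT₀
  obtain ⟨S, s, c, hS, hdis, hΦ, hc, X₀, hX₀⟩ := good_card3 fam3 bad κ hT Φ (hEX T)
  refine ⟨S, fun Q hQ => ⟨(hS Q hQ).1, (hS Q hQ).2.1, fun h =>
    Finset.disjoint_left.1 hdis hQ (hTT₀ h), hΦ Q hQ⟩, ?_⟩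
  intro t ht
  have ht0 : t ≠ 0 := by rcases ht with h | h | h | h <;> rw [h] <;> norm_num
  have hSpos : 0 < ∏ Q ∈ S, Q := Finset.prod_pos fun Q hQ => (hS Q hQ).1.1
  refine ⟨(2 * ∏ Q ∈ S, Q).toNat, X₀, c / 2 ^ S.card,
    by positivity, by omega, fun X hX Hh hHh => ?_⟩
  have hN := hX₀ X hX
  set Hs := {p : ℤ × ℤ | Crv Hh p.1 p.2 ∧ GoodU S T₀ t p} with hH
  set G := {p : ℤ × ℤ | (Fam X S s T A B p.1 p.2 ∧ (p.1 % 4 = 3 ∧ p.2 % 4 = 3)) ∧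
    ¬ LBad κ X S s p.1 p.2} with hG'
  have hHf : Hs.Finite := (crv_fin Hh).subset fun p hp => hp.1
  have hbd : 27 * ((X : ℤ) * (2 * ∏ Q ∈ S, Q)) ^ 6 ≤ Hh := by
    have h1 : ((27 * (X * (2 * ∏ Q ∈ S, Q).toNat) ^ 6 : ℕ) : ℤ) ≤ Hh := by exact_mod_cast hHh
    have e1 : (((2 * ∏ Q ∈ S, Q).toNat : ℕ) : ℤ) = 2 * ∏ Q ∈ S, Q :=
      Int.toNat_of_nonneg (by positivity)
    rw [Nat.cast_mul, Nat.cast_pow, Nat.cast_mul, e1] at h1
    exact_mod_cast h1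
  have hcard := card_fib hHf S
    (fun (J : Finset ℤ) (p : ℤ × ℤ) => (p.1 * (t * ∏ Q ∈ J, Q) ^ 2, p.2 * (t * ∏ Q ∈ J, Q) ^ 3))
    (G := G) (by
      rintro p ⟨⟨hpF, hpa, hpb⟩, hnb⟩
      obtain ⟨J, hJ, hsel⟩ := selR_uni Pool.Agent.N849.PQ.int parts2 hLB' hS hpF hpa hpb hnb hT
      refine ⟨J, hJ, crv_t hS hT hpF hJ ht hbd, ?_⟩
      intro M _ _ _ R _ _ _ _ _ n hM hMok d hd hadm hbd'
      haveI : Algebra.IsIntegral ℤ R := IsIntegralClosure.isIntegral_algebra ℤ M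
      haveI : CharZero R := charZero_of R M
      obtain ⟨w₀, hw₀⟩ := exists_over R
      have hMok' : Mok M R S T p.1 p.2 := mok_of hTT₀ hMok
      have hadm' : Adm T p.1 p.2 (t * d) := adm_of hT.1 hTT₀ ht hadm
      have htd : t * d ≠ 0 := mul_ne_zero ht0 hd
      have hD0 : (∏ Q ∈ J, Q) ≠ 0 := by
        rw [Finset.prod_ne_zero_iff]
        exact fun Q hQ => (hS Q (hJ hQ)).1.2.ne_zero
      have hD8 : (∏ Q ∈ J, Q) % 8 = 1 := prod_mod8 fun Q hQ => (hS Q (hJ hQ)).2.1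
      have eA : p.1 * (t * ∏ Q ∈ J, Q) ^ 2 * d ^ 2 = p.1 * ((∏ Q ∈ J, Q) * (t * d)) ^ 2 := by
        ring
      have eB : p.2 * (t * ∏ Q ∈ J, Q) ^ 3 * d ^ 3 = p.2 * ((∏ Q ∈ J, Q) * (t * d)) ^ 3 := by
        ring
      have hdisc : 4 * (p.1 * ((∏ Q ∈ J, Q) * (t * d)) ^ 2) ^ 3 +
          27 * (p.2 * ((∏ Q ∈ J, Q) * (t * d)) ^ 3) ^ 2 ≠ 0 := by
        have e : 4 * (p.1 * ((∏ Q ∈ J, Q) * (t * d)) ^ 2) ^ 3 +
          27 * (p.2 * ((∏ Q ∈ J, Q) * (t * d)) ^ 3) ^ 2 =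
          ((∏ Q ∈ J, Q) * (t * d)) ^ 6 * dsc p.1 p.2 := by
          unfold dsc
          ring
        rw [e]
        exact mul_ne_zero (pow_ne_zero _ (mul_ne_zero hD0 htd)) hpF.sq.ne_zero
      show GoodV (M := M) R (p.1 * (t * ∏ Q ∈ J, Q) ^ 2 * d ^ 2,
        p.2 * (t * ∏ Q ∈ J, Q) ^ 3 * d ^ 3)
      rw [eA, eB]
      have hs1 := hsel M R n hM hMok' (t * d) htd hbd' hadm'
      have h6M : (6 : M) ≠ 0 := by norm_num
      have hdM : 4 * (((p.1 * ((∏ Q ∈ J, Q) * (t * d)) ^ 2 : ℤ)) : M) ^ 3 +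
          27 * (((p.2 * ((∏ Q ∈ J, Q) * (t * d)) ^ 3 : ℤ)) : M) ^ 2 ≠ 0 := by
        exact_mod_cast hdisc
      obtain ⟨h2, h3⟩ := Pool.Agent.N650.PM.gfr M R _ _ h6M hdM hs1
      have hfin := Pool.Agent.N273.PQ.finm M _ _ hdM h2
      obtain ⟨ha, hb⟩ := odd_of (fam_nt hT hpF hT.1)
      have htor := tor_tw M R w₀ (hMok.two w₀ hw₀) hpa hpb (fun x hx => by
        have h5 := nr' M R n hM w₀ hw₀ p.1 p.2 ha hb (algebraMap M _ x) (by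
          rw [Pool.Agent.N301.PV.vx]
          exact hx)
        have e : (algebraMap M (w₀.adicCompletion M) x) ^ 3 +
            (p.1 : w₀.adicCompletion M) * algebraMap M (w₀.adicCompletion M) x +
            (p.2 : w₀.adicCompletion M) =
            algebraMap M (w₀.adicCompletion M) (x ^ 3 + (p.1 : M) * x + (p.2 : M)) := by
          rw [map_add, map_add, map_mul, map_pow, map_intCast, map_intCast]
        rw [e, Pool.Agent.N301.PV.vx] at h5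
        exact h5) (mul_ne_zero hD0 htd) (not_bd_mul hD8 htd hbd') hfin (by
        haveI := hfin
        exact odd_card (G := Pt (sW (((p.1 * ((∏ Q ∈ J, Q) * (t * d)) ^ 2 : ℤ)) : M)
          (((p.2 * ((∏ Q ∈ J, Q) * (t * d)) ^ 3 : ℤ)) : M)) M) h2)
      exact ⟨hs1, htor, h3⟩) (by
      intro J hJ x hx y hy hxy
      have hD0 : (t * ∏ Q ∈ J, Q) ≠ 0 := by
        refine mul_ne_zero ht0 ?_
        rw [Finset.prod_ne_zero_iff]
        exact fun Q hQ => (hS Q (hJ hQ)).1.2.ne_zero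
      rw [Prod.mk.injEq] at hxy
      exact twist_inj hD0 hxy.1 hxy.2)
  have hcard' : (G.ncard : ℝ) ≤ 2 ^ S.card * Hs.ncard := by exact_mod_cast hcard
  calc c / 2 ^ S.card * (X : ℝ) ^ 5
      = c * (X : ℝ) ^ 5 / 2 ^ S.card := by ring
    _ ≤ (G.ncard : ℝ) / 2 ^ S.card := by gcongr
    _ ≤ (2 ^ S.card * Hs.ncard) / 2 ^ S.card := by gcongr
    _ = Hs.ncard := by field_simp

/-- Primes which split completely in `K₀`: every integral element is congruent to an integer. -/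
theorem split_int {K₀ R : Type} [Field K₀] [NumberField K₀] [CommRing R] [IsDedekindDomain R]
    [Algebra R K₀] [IsFractionRing R K₀] [IsIntegralClosure R ℤ K₀] {γ : K₀} {g : ℤ[X]} {δ : ℤ}
    (hG : Gen ℚ γ g δ) {Q : ℤ} (hQ : Prime Q) (hsp : SplitMod Q g) (w : HeightOneSpectrum R)
    (h1 : Ov Q w) (hδ : ¬ Ov δ w) :
    w.valuation K₀ (Q : K₀) = WithZero.exp (-1 : ℤ) ∧
      ∀ y : R, ∃ z : ℤ, y - (z : R) ∈ w.asIdeal := by
  obtain ⟨v, hv⟩ := (Pool.Agent.N362.PQ.ur ℚ K₀ ℤ R γ g δ hG).1 w hδ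
  have hvQ : w.valuation K₀ (Q : K₀) = v.valuation ℚ (Q : ℚ) := by
    rw [← hv, map_intCast (algebraMap ℚ K₀)]
  refine ⟨?_, fun y => ?_⟩
  · refine le_antisymm (val_le_exp w ?_ ((ov_val Q w).1 h1)) ?_
    · exact_mod_cast hQ.ne_zero
    · rw [hvQ]
      exact val_sqfree hQ.irreducible.squarefree v
  · by_cases h0 : y = 0
    · exact ⟨0, by rw [h0]; simp⟩
    · have hy0 : algebraMap R K₀ y ≠ 0 := by
        rw [Ne, IsFractionRing.to_map_eq_zero_iff]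
        exact h0
      obtain ⟨z₀, hz₀⟩ := Pool.Agent.N296.PQ.spd ℚ K₀ R γ g δ hG Q hQ hsp w h1 hδ _ hy0
      have hz1 : w.valuation K₀ (algebraMap R K₀ y - algebraMap ℚ K₀ z₀) < 1 :=
        lt_of_lt_of_le hz₀ (w.valuation_le_one _)
      have hz0 : v.valuation ℚ z₀ ≤ 1 := by
        rw [← hv]
        have e : algebraMap ℚ K₀ z₀ = algebraMap R K₀ y -
            (algebraMap R K₀ y - algebraMap ℚ K₀ z₀) := by ring
        rw [e]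
        exact (Valuation.map_sub _ _ _).trans (max_le (w.valuation_le_one _) hz1.le)
      obtain ⟨z₁, hz₁⟩ := poly_approx v hz0
      refine ⟨z₁, ?_⟩
      rw [← HeightOneSpectrum.valuation_lt_one_iff_mem (K := K₀)]
      change w.valuation K₀ (algebraMap R K₀ (y - (z₁ : R))) < 1
      have e : algebraMap R K₀ (y - (z₁ : R)) = (algebraMap R K₀ y - algebraMap ℚ K₀ z₀) +
          algebraMap ℚ K₀ (z₀ - algebraMap ℤ ℚ z₁) := by
        rw [map_sub, map_sub, map_intCast]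
        simp
      rw [e]
      refine lt_of_le_of_lt (Valuation.map_add _ _ _) (max_lt hz1 ?_)
      rw [hv]
      exact hz₁

/-- The theorem on the proportion. -/
theorem finalU (T₀ : Finset ℤ) (hT₀ : ∀ P ∈ T₀, IsPr P) (K₀ : Type) [Field K₀] [NumberField K₀]
    [IsGalois ℚ K₀] (R₀ : Type) [CommRing R₀] [IsDedekindDomain R₀]
    [Algebra R₀ K₀] [IsFractionRing R₀ K₀] [IsIntegralClosure R₀ ℤ K₀] :
    ∃ S : Finset ℤ, (∀ Q ∈ S, IsPr Q ∧ Q % 8 = 1 ∧ Q ∉ T₀ ∧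
      ∀ w : HeightOneSpectrum R₀, Ov Q w → w.valuation K₀ (Q : K₀) = WithZero.exp (-1 : ℤ) ∧
        ∀ y : R₀, ∃ z : ℤ, y - (z : R₀) ∈ w.asIdeal) ∧
    ∀ t : ℤ, (t = 1 ∨ t = -1 ∨ t = 2 ∨ t = -2) →
    ∃ c : ℝ, 0 < c ∧ ∃ H₀ : ℕ, ∀ H ≥ H₀, {p : ℤ × ℤ | Crv H p.1 p.2}.Finite ∧
    c * ({p : ℤ × ℤ | Crv H p.1 p.2}.ncard : ℝ) ≤
      ({p : ℤ × ℤ | Crv H p.1 p.2 ∧ GoodU S T₀ t p}.ncard : ℝ) := by
  haveI : Algebra.IsIntegral ℤ R₀ := IsIntegralClosure.isIntegral_algebra ℤ K₀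
  haveI : CharZero R₀ := charZero_of R₀ K₀
  obtain ⟨γ, g, δ, hG, hdeg⟩ := Pool.Agent.N40.PQ.gen K₀
  -- the prime divisors of `δ`
  obtain ⟨T₁, hT₁, hδ₁⟩ : ∃ T : Finset ℤ, (∀ P ∈ T, IsPr P) ∧
      ∀ P : ℤ, IsPr P → P ∣ δ → P ∈ T := by
    have hf : {P : ℤ | IsPr P ∧ P ∣ δ}.Finite := by
      refine (Set.finite_Icc (-|δ|) |δ|).subset ?_
      rintro P ⟨-, h⟩
      have h3 : |P| ≤ |δ| := Int.le_of_dvd (abs_pos.2 hG.ne) ((abs_dvd_abs P δ).2 h)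
      exact abs_le.1 h3
    refine ⟨hf.toFinset, fun P hP => ?_, fun P h1 h2 => ?_⟩
    · exact (hf.mem_toFinset.1 hP).1
    · exact hf.mem_toFinset.2 ⟨h1, h2⟩
  obtain ⟨S, hS, h⟩ := mainU T₀ hT₀
    (fun Q => ∀ w : HeightOneSpectrum R₀, Ov Q w → w.valuation K₀ (Q : K₀) = WithZero.exp (-1 : ℤ) ∧
        ∀ y : R₀, ∃ z : ℤ, y - (z : R₀) ∈ w.asIdeal)
    (fun T r => by
      obtain ⟨S, s, hS, hcard, hdis, hsp⟩ := Pool.Agent.N40.PQ.spl K₀ γ g δ hG hdeg (T ∪ T₁) r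
      refine ⟨S, s, hS, hcard, Finset.disjoint_of_subset_right Finset.subset_union_left hdis, ?_⟩
      intro Q hQ w hw
      refine split_int hG (hS Q hQ).1.2 (hsp Q hQ) w hw fun hδ => ?_
      obtain ⟨P, hP, hP'⟩ := ov_delta hδ₁ hδ
      have := below_unique (hS Q hQ).1 (hT₁ P hP) hw hP'
      exact Finset.disjoint_left.1 hdis hQ (Finset.mem_union_right _ (this ▸ hP)))
  refine ⟨S, hS, fun t ht => ?_⟩
  obtain ⟨P, X₀, c, hc, hP, h'⟩ := h t ht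
  exact Pool.Agent.N607.PQ.cnt (fun p => GoodU S T₀ t p) P X₀ c hc hP
    fun X hX Hh hHh => h' X hX Hh hHh

end Run7.h23
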