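import Pool.Agent.Run7.h23.Gz

/-!
# Density of the cubic field at the primes of the family when the residue fields of `M` are small
-/

set_option autoImplicit false
set_option linter.all false

open Polynomial IsDedekindDomain WithZero
open scoped Classical IntermediateField

namespace Run7.h23

open Pool.Agent.N922.PQ
open Pool.Agent.N874.PP (Ev Sq1 U0)

/-- The elements with `y ^ (q ^ 2) = y` are the `i + j t`. -/
theorem res_two {k' : Type} [Field k'] (q : ℕ) [hqf : Fact q.Prime] [CharP k' q] (t : k')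
    (n : ZMod q) (hn : ¬ IsSquare n) (ht : t ^ 2 = ZMod.castHom (dvd_refl q) k' n) (y : k')
    (hy : y ^ (q ^ 2) = y) :
    ∃ i j : ZMod q, y = ZMod.castHom (dvd_refl q) k' i + ZMod.castHom (dvd_refl q) k' j * t := by
  set c := ZMod.castHom (dvd_refl q) k' with hc
  have hcinj : Function.Injective c := c.injective
  have hq1 : 1 < q := hqf.out.one_lt
  have hcq : ∀ i : ZMod q, c i ^ q = c i := by
    intro i
    rw [← map_pow, ZMod.pow_card]
  have htq : t ^ q = t ∨ t ^ q = -t := by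
    have h1 : (t ^ q) ^ 2 = t ^ 2 := by
      rw [← pow_mul, mul_comm, pow_mul, ht, hcq]
    exact sq_eq_sq_iff_eq_or_eq_neg.1 h1
  have hadd : ∀ x z : k', (x + z) ^ q = x ^ q + z ^ q := fun x z => add_pow_char ..
  have hroot : ∀ i j : ZMod q, (c i + c j * t) ^ (q ^ 2) = c i + c j * t := by
    intro i j
    have e : q ^ 2 = q * q := pow_two q
    rw [e, pow_mul, hadd, mul_pow, hcq, hcq]
    rcases htq with h | h
    · rw [h, hadd, mul_pow, hcq, hcq, h]
    · have h2 : c i + c j * t ^ q = c i + c (-j) * t := by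
        rw [h, map_neg]
        ring
      rw [h2, hadd, mul_pow, hcq, hcq, h, map_neg]
      ring
  have hinj : Function.Injective (fun p : ZMod q × ZMod q => c p.1 + c p.2 * t) := by
    rintro ⟨i, j⟩ ⟨i', j'⟩ h
    have h0 : c i + c j * t = c i' + c j' * t := h
    by_cases hj : j = j'
    · subst hj
      have h1 : c i = c i' := by linear_combination h0
      rw [hcinj h1]
    · exfalso
      have hj0 : c j - c j' ≠ 0 := by
        rw [sub_ne_zero]
        exact fun h => hj (hcinj h)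
      apply hn
      have h1 : t = c ((i' - i) / (j - j')) := by
        rw [map_div₀, map_sub, map_sub, eq_div_iff hj0]
        linear_combination h0
      refine ⟨(i' - i) / (j - j'), hcinj ?_⟩
      rw [← ht, h1, map_mul]
      ring
  have hq2 : 1 < q ^ 2 := one_lt_pow₀ hq1 two_ne_zero
  have hf0 : (X ^ (q ^ 2) - X : k'[X]) ≠ 0 := FiniteField.X_pow_card_sub_X_ne_zero k' hq2
  have hmem : ∀ x : k', x ^ (q ^ 2) = x → x ∈ (X ^ (q ^ 2) - X : k'[X]).roots.toFinset := by
    intro x hx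
    rw [Multiset.mem_toFinset, mem_roots hf0, IsRoot.def, eval_sub, eval_pow, eval_X, hx, sub_self]
  have hcard : (X ^ (q ^ 2) - X : k'[X]).roots.toFinset.card ≤ q ^ 2 := by
    refine (Multiset.toFinset_card_le _).trans ((card_roots' _).trans ?_)
    rw [FiniteField.X_pow_card_sub_X_natDegree_eq k' hq2]
  have himg : (Finset.univ.image fun p : ZMod q × ZMod q => c p.1 + c p.2 * t) =
      (X ^ (q ^ 2) - X : k'[X]).roots.toFinset := by
    refine Finset.eq_of_subset_of_card_le ?_ ?_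
    · intro x hx
      obtain ⟨p, -, rfl⟩ := Finset.mem_image.1 hx
      exact hmem _ (hroot _ _)
    · refine hcard.trans ?_
      rw [Finset.card_image_of_injective _ hinj, Finset.card_univ, Fintype.card_prod, ZMod.card,
        pow_two]
  have h1 := hmem y hy
  rw [← himg] at h1
  obtain ⟨p, -, hp⟩ := Finset.mem_image.1 h1
  exact ⟨p.1, p.2, hp.symm⟩

section close

variable {F : Type} [Field F] (V : Valuation F (WithZero (Multiplicative ℤ)))

/-- Powers of close elements. -/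
theorem pow_close {q : ℕ} (hq : V (q : F) = exp (-1 : ℤ)) {x y : F} (hx : V x ≤ 1)
    (hy : V y ≤ 1) (hxy : V (x - y) < 1) (k : ℕ) :
    V (x ^ q ^ k - y ^ q ^ k) ≤ exp (-((k : ℤ) + 1)) := by
  have hq0 : (q : F) ≠ 0 := by
    intro h
    rw [h, map_zero] at hq
    exact exp_ne_zero hq.symm
  have hle : V (x - y) ≤ exp (-1 : ℤ) := by
    by_cases h0 : V (x - y) = 0
    · rw [h0]
      exact zero_le'
    · rw [← exp_log h0, ← exp_zero, exp_lt_exp] at hxy
      rw [← exp_log h0, exp_le_exp]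
      omega
  let X' : V.integer := ⟨x, hx⟩
  let Y' : V.integer := ⟨y, hy⟩
  have hz : V ((x - y) / q) ≤ 1 := by
    rw [map_div₀, hq]
    refine (div_le_one₀ exp_pos).2 hle
  have hd : ((q : ℕ) : V.integer) ∣ X' - Y' := by
    refine ⟨⟨(x - y) / q, hz⟩, ?_⟩
    apply Subtype.ext
    show x - y = ((((q : ℕ) : V.integer) : V.integer) : F) * ((x - y) / q)
    push_cast
    field_simp
  obtain ⟨z, hz'⟩ := dvd_sub_pow_of_dvd_sub hd k
  have h1 := congrArg (fun r : V.integer => (r : F)) hz'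
  have h2 : x ^ q ^ k - y ^ q ^ k = (q : F) ^ (k + 1) * (z : F) := by
    have h3 : ((X' ^ q ^ k - Y' ^ q ^ k : V.integer) : F) = x ^ q ^ k - y ^ q ^ k := by
      push_cast
      rfl
    rw [← h3]
    refine h1.trans ?_
    push_cast
    rfl
  rw [h2, map_mul, map_pow, hq, ← exp_nsmul]
  calc _ ≤ exp ((k + 1) • (-1 : ℤ)) * 1 := mul_le_mul' le_rfl z.2
    _ = exp (-((k : ℤ) + 1)) := by
      rw [mul_one]
      congr 1
      rw [nsmul_eq_mul]
      push_cast
      ring

end close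

section dens

variable {L M Ω : Type} (O' R : Type) [Field L] [Field M] [Field Ω] [CharZero L] [CharZero M]
  [CharZero Ω]
  [Algebra L Ω] [Algebra M Ω]
  [CommRing O'] [IsDedekindDomain O'] [Algebra O' Ω] [IsFractionRing O' Ω]
  [IsIntegralClosure O' ℤ Ω]
  [CommRing R] [IsDedekindDomain R] [Algebra R M] [IsFractionRing R M] [IsIntegralClosure R ℤ M]

/-- The first step. -/
theorem dn1 {q : ℕ} (hq : q.Prime) {a : ℤ} (hns : ∀ z : ℤ, ¬ (q : ℤ) ∣ z ^ 2 + a)
    {θ : L} (hint : IsIntegral ℤ θ) (𝔓 : HeightOneSpectrum O') (w : HeightOneSpectrum R)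
    (hw : ∀ x : M, 𝔓.valuation Ω (algebraMap M Ω x) = w.valuation M x)
    (hwq : w.valuation M (q : M) = exp (-1 : ℤ))
    (hres : ∀ y : R, y ^ (q ^ 2) - y ∈ w.asIdeal)
    (hθa : 𝔓.valuation Ω ((algebraMap L Ω θ) ^ 2 + (a : Ω)) < 1) (m : M)
    (hm : w.valuation M m ≤ 1) :
    ∃ l : L, 𝔓.valuation Ω (algebraMap M Ω m - algebraMap L Ω l) < 1 := by
  haveI : Fact q.Prime := ⟨hq⟩
  obtain ⟨r, hr⟩ := w.exists_valuation_sub_lt_of_integer (K := M) hm 1
  have hr1 : w.valuation M (algebraMap R M r - m) < 1 := by exact_mod_cast hr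
  haveI : Algebra.IsIntegral ℤ R := IsIntegralClosure.isIntegral_algebra ℤ M
  -- `r` in `O'`
  have hrint : IsIntegral ℤ (algebraMap M Ω (algebraMap R M r)) := by
    have h1 : IsIntegral ℤ (algebraMap R M r) :=
      (IsIntegralClosure.isIntegral_iff (R := ℤ) (A := R)).2 ⟨r, rfl⟩
    exact h1.map (algebraMap M Ω).toIntAlgHom
  have htint : IsIntegral ℤ (algebraMap L Ω θ) := hint.map (algebraMap L Ω).toIntAlgHom
  obtain ⟨y, hy⟩ := (IsIntegralClosure.isIntegral_iff (R := ℤ) (A := O')).1 hrint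
  obtain ⟨t, ht⟩ := (IsIntegralClosure.isIntegral_iff (R := ℤ) (A := O')).1 htint
  haveI := 𝔓.isMaximal
  letI : Field (O' ⧸ 𝔓.asIdeal) := Ideal.Quotient.field 𝔓.asIdeal
  set φ := Ideal.Quotient.mk 𝔓.asIdeal with hφ
  have hφ0 : ∀ x : O', φ x = 0 ↔ 𝔓.valuation Ω (algebraMap O' Ω x) < 1 := by
    intro x
    rw [hφ, Ideal.Quotient.eq_zero_iff_mem, HeightOneSpectrum.valuation_lt_one_iff_mem]
  have hqφ : φ (q : O') = 0 := by
    rw [hφ0, map_natCast, ← map_natCast (algebraMap M Ω), hw, hwq, ← exp_zero, exp_lt_exp]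
    norm_num
  haveI : CharP (O' ⧸ 𝔓.asIdeal) q := by
    have h1 : ((q : ℕ) : O' ⧸ 𝔓.asIdeal) = 0 := by
      rw [← hqφ, map_natCast]
    haveI : CharP (O' ⧸ 𝔓.asIdeal) (ringChar (O' ⧸ 𝔓.asIdeal)) := ringChar.charP _
    have h2 := ringChar.dvd h1
    rcases (Nat.dvd_prime hq).1 h2 with h3 | h3
    · exfalso
      haveI : CharP (O' ⧸ 𝔓.asIdeal) 1 := h3 ▸ ringChar.charP _
      exact CharP.false_of_nontrivial_of_char_one (R := O' ⧸ 𝔓.asIdeal)
    · exact h3 ▸ ringChar.charP _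
  set c := ZMod.castHom (dvd_refl q) (O' ⧸ 𝔓.asIdeal) with hc
  have hcz : ∀ z : ℤ, c (z : ZMod q) = φ (z : O') := by
    intro z
    rw [map_intCast, map_intCast]
  have hn : ¬ IsSquare ((-a : ℤ) : ZMod q) := by
    rintro ⟨s, hs⟩
    obtain ⟨z, rfl⟩ := ZMod.intCast_surjective s
    apply hns z
    rw [← ZMod.intCast_zmod_eq_zero_iff_dvd]
    push_cast at hs ⊢
    linear_combination -hs
  have ht2 : (φ t) ^ 2 = c ((-a : ℤ) : ZMod q) := by
    rw [hcz, ← map_pow, ← sub_eq_zero, ← map_sub, hφ0]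
    have e : algebraMap O' Ω (t ^ 2 - ((-a : ℤ) : O')) = (algebraMap L Ω θ) ^ 2 + (a : Ω) := by
      rw [map_sub, map_pow, ht, map_intCast]
      push_cast
      ring
    rw [e]
    exact hθa
  have hyq : (φ y) ^ (q ^ 2) = φ y := by
    rw [← map_pow, ← sub_eq_zero, ← map_sub, hφ0]
    have e : algebraMap O' Ω (y ^ (q ^ 2) - y) = algebraMap M Ω (algebraMap R M (r ^ (q ^ 2) - r)) := by
      rw [map_sub, map_pow, hy, map_sub, map_sub, map_pow, map_pow]
    rw [e, hw, HeightOneSpectrum.valuation_lt_one_iff_mem]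
    exact hres r
  obtain ⟨i, j, hij⟩ := res_two q (φ t) _ hn ht2 (φ y) hyq
  obtain ⟨i, rfl⟩ := ZMod.intCast_surjective i
  obtain ⟨j, rfl⟩ := ZMod.intCast_surjective j
  rw [← hc, hcz, hcz, ← map_mul, ← map_add, ← sub_eq_zero, ← map_sub, hφ0] at hij
  refine ⟨(i : L) + (j : L) * θ, ?_⟩
  have e : algebraMap M Ω m - algebraMap L Ω ((i : L) + (j : L) * θ) =
      algebraMap O' Ω (y - ((i : O') + (j : O') * t)) - algebraMap M Ω (algebraMap R M r - m) := by
    simp only [map_sub, map_add, map_mul, map_intCast, hy, ht]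
    ring
  rw [e]
  refine lt_of_le_of_lt (Valuation.map_sub _ _ _) (max_lt hij ?_)
  rw [hw]
  exact hr1

/-- Approximation of integral elements. -/
theorem dn2 {q : ℕ} (hq : q.Prime) (𝔓 : HeightOneSpectrum O') (w : HeightOneSpectrum R)
    (hw : ∀ x : M, 𝔓.valuation Ω (algebraMap M Ω x) = w.valuation M x)
    (hwq : w.valuation M (q : M) = exp (-1 : ℤ))
    (hres : ∀ y : R, y ^ (q ^ 2) - y ∈ w.asIdeal)
    (h1 : ∀ m : M, w.valuation M m ≤ 1 →
      ∃ l : L, 𝔓.valuation Ω (algebraMap M Ω m - algebraMap L Ω l) < 1) (n : ℕ) :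
    ∀ m : M, w.valuation M m ≤ 1 →
      ∃ l : L, 𝔓.valuation Ω (algebraMap M Ω m - algebraMap L Ω l) ≤ exp (-(n : ℤ)) := by
  have h𝔓q : 𝔓.valuation Ω (q : Ω) = exp (-1 : ℤ) := by
    rw [← map_natCast (algebraMap M Ω), hw, hwq]
  have hq0 : (q : M) ≠ 0 := by
    intro h
    rw [h, map_zero] at hwq
    exact exp_ne_zero hwq.symm
  -- the residue classes
  have hpow : ∀ (k : ℕ) (m : M), w.valuation M m ≤ 1 →
      w.valuation M (m ^ (q ^ 2) ^ k - m) < 1 := by
    intro k m hm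
    obtain ⟨r, hr⟩ := w.exists_valuation_sub_lt_of_integer (K := M) hm 1
    have hr1 : w.valuation M (algebraMap R M r - m) < 1 := by exact_mod_cast hr
    have hrr : ∀ k : ℕ, r ^ (q ^ 2) ^ k - r ∈ w.asIdeal := by
      intro k
      induction k with
      | zero => simp
      | succ k ih =>
        have e : r ^ (q ^ 2) ^ (k + 1) - r = ((r ^ (q ^ 2) ^ k) ^ (q ^ 2) - r ^ (q ^ 2) ^ k) +
            (r ^ (q ^ 2) ^ k - r) := by
          rw [pow_succ (q ^ 2) k, pow_mul r, sub_add_sub_cancel]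
        rw [e]
        exact w.asIdeal.add_mem (hres _) ih
    have hdv : w.valuation M (algebraMap R M r ^ (q ^ 2) ^ k - m ^ (q ^ 2) ^ k) < 1 := by
      obtain ⟨z, hz⟩ : ∃ z : M, w.valuation M z ≤ 1 ∧
          algebraMap R M r ^ (q ^ 2) ^ k - m ^ (q ^ 2) ^ k = (algebraMap R M r - m) * z := by
        refine ⟨∑ i ∈ Finset.range ((q ^ 2) ^ k), algebraMap R M r ^ i *
          m ^ ((q ^ 2) ^ k - 1 - i), ?_, ?_⟩
        · refine Valuation.map_sum_le _ fun i _ => ?_
          rw [map_mul, map_pow, map_pow]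
          exact mul_le_one' (pow_le_one' (w.valuation_le_one _) _) (pow_le_one' hm _)
        · rw [mul_comm]
          exact (Commute.geom_sum₂_mul (Commute.all _ _) _).symm
      rw [hz.2, map_mul]
      calc _ ≤ w.valuation M (algebraMap R M r - m) * 1 := mul_le_mul' le_rfl hz.1
        _ < 1 := by rwa [mul_one]
    have e : m ^ (q ^ 2) ^ k - m = algebraMap R M (r ^ (q ^ 2) ^ k - r) -
        (algebraMap R M r ^ (q ^ 2) ^ k - m ^ (q ^ 2) ^ k) + (algebraMap R M r - m) := by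
      rw [map_sub, map_pow]
      ring
    rw [e]
    refine lt_of_le_of_lt (Valuation.map_add _ _ _) (max_lt ?_ hr1)
    refine lt_of_le_of_lt (Valuation.map_sub _ _ _) (max_lt ?_ hdv)
    rw [HeightOneSpectrum.valuation_lt_one_iff_mem]
    exact hrr k
  induction n with
  | zero =>
    intro m hm
    refine ⟨0, ?_⟩
    rw [map_zero, sub_zero, hw]
    simpa using hm
  | succ n ih =>
    intro m hm
    obtain ⟨l₀, hl₀⟩ := h1 m hm
    have hmΩ : 𝔓.valuation Ω (algebraMap M Ω m) ≤ 1 := by rw [hw]; exact hm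
    have hlΩ : 𝔓.valuation Ω (algebraMap L Ω l₀) ≤ 1 := by
      have e : algebraMap L Ω l₀ = algebraMap M Ω m - (algebraMap M Ω m - algebraMap L Ω l₀) := by
        ring
      rw [e]
      exact (Valuation.map_sub _ _ _).trans (max_le hmΩ hl₀.le)
    -- the quotient
    have hm' := hpow n m hm
    set m' : M := (m - m ^ (q ^ 2) ^ n) / q with hm'd
    have hm'1 : w.valuation M m' ≤ 1 := by
      rw [hm'd, map_div₀, hwq]
      refine (div_le_one₀ exp_pos).2 ?_
      rw [Valuation.map_sub_swap] at hm'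
      by_cases h0 : w.valuation M (m - m ^ (q ^ 2) ^ n) = 0
      · rw [h0]
        exact zero_le'
      · rw [← exp_log h0, ← exp_zero, exp_lt_exp] at hm'
        rw [← exp_log h0, exp_le_exp]
        omega
    obtain ⟨l', hl'⟩ := ih m' hm'1
    have hc := pow_close (𝔓.valuation Ω) h𝔓q hmΩ hlΩ hl₀ (2 * n)
    refine ⟨l₀ ^ q ^ (2 * n) + (q : L) * l', ?_⟩
    have e1 : (q ^ 2) ^ n = q ^ (2 * n) := by rw [pow_mul]
    have e2 : m = m ^ q ^ (2 * n) + q * m' := by
      rw [hm'd, e1]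
      field_simp
      ring
    have e3 : algebraMap M Ω m - algebraMap L Ω (l₀ ^ q ^ (2 * n) + (q : L) * l') =
        (algebraMap M Ω m ^ q ^ (2 * n) - algebraMap L Ω l₀ ^ q ^ (2 * n)) +
          (q : Ω) * (algebraMap M Ω m' - algebraMap L Ω l') := by
      conv_lhs => rw [e2]
      simp only [map_add, map_mul, map_pow, map_natCast]
      ring
    rw [e3]
    refine (Valuation.map_add _ _ _).trans (max_le (hc.trans ?_) ?_)
    · rw [exp_le_exp]
      push_cast
      omega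
    · rw [map_mul, h𝔓q]
      calc _ ≤ exp (-1 : ℤ) * exp (-(n : ℤ)) := mul_le_mul' le_rfl hl'
        _ = exp (-((n + 1 : ℕ) : ℤ)) := by
          rw [← exp_add]
          congr 1
          push_cast
          ring

/-- Approximation of all elements of `M`. -/
theorem dn3 {q : ℕ} (𝔓 : HeightOneSpectrum O') (w : HeightOneSpectrum R)
    (hw : ∀ x : M, 𝔓.valuation Ω (algebraMap M Ω x) = w.valuation M x)
    (hwq : w.valuation M (q : M) = exp (-1 : ℤ))
    (h2 : ∀ (n : ℕ) (m : M), w.valuation M m ≤ 1 →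
      ∃ l : L, 𝔓.valuation Ω (algebraMap M Ω m - algebraMap L Ω l) ≤ exp (-(n : ℤ)))
    (m : M) {ε : WithZero (Multiplicative ℤ)} (hε : ε ≠ 0) :
    ∃ l : L, 𝔓.valuation Ω (algebraMap M Ω m - algebraMap L Ω l) < ε := by
  have h𝔓q : 𝔓.valuation Ω (q : Ω) = exp (-1 : ℤ) := by
    rw [← map_natCast (algebraMap M Ω), hw, hwq]
  have hq0 : (q : M) ≠ 0 := by
    intro h
    rw [h, map_zero] at hwq
    exact exp_ne_zero hwq.symm
  have hqL : (q : L) ≠ 0 := by
    have : q ≠ 0 := by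
      rintro rfl
      exact hq0 Nat.cast_zero
    exact_mod_cast this
  by_cases h0 : m = 0
  · refine ⟨0, ?_⟩
    rw [h0, map_zero, map_zero, sub_zero, map_zero]
    exact zero_lt_iff.2 hε
  obtain ⟨k, hk⟩ : ∃ k : ℕ, w.valuation M (m * (q : M) ^ k) ≤ 1 := by
    have hv : w.valuation M m ≠ 0 := (Valuation.ne_zero_iff _).2 h0
    obtain ⟨r, hr⟩ : ∃ r : ℤ, w.valuation M m = exp r := ⟨log _, (exp_log hv).symm⟩
    refine ⟨r.toNat, ?_⟩
    rw [map_mul, map_pow, hwq, ← exp_nsmul, hr, ← exp_add, ← exp_zero, exp_le_exp, nsmul_eq_mul]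
    have := Int.self_le_toNat r
    push_cast
    omega
  obtain ⟨b, rfl⟩ : ∃ b : ℤ, ε = exp b := ⟨log ε, (exp_log hε).symm⟩
  obtain ⟨n, hn⟩ : ∃ n : ℕ, (k : ℤ) - n < b := ⟨((k : ℤ) - b + 1).toNat, by
    have := Int.self_le_toNat ((k : ℤ) - b + 1)
    omega⟩
  obtain ⟨l, hl⟩ := h2 n _ hk
  refine ⟨l / (q : L) ^ k, ?_⟩
  have hqΩ : (q : Ω) ≠ 0 := by
    intro h
    rw [h, map_zero] at h𝔓q
    exact exp_ne_zero h𝔓q.symm
  have e : algebraMap M Ω m - algebraMap L Ω (l / (q : L) ^ k) =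
      (algebraMap M Ω (m * (q : M) ^ k) - algebraMap L Ω l) / (q : Ω) ^ k := by
    simp only [map_mul, map_pow, map_div₀, map_natCast]
    field_simp
  rw [e, map_div₀, map_pow, h𝔓q, ← exp_nsmul, div_lt_iff₀ exp_pos, ← exp_add]
  refine lt_of_le_of_lt hl ?_
  rw [exp_lt_exp, nsmul_eq_mul]
  push_cast
  linarith

/-- Approximation by elements of `L`. -/
theorem dn4 {θ : L} [Algebra.IsAlgebraic M Ω] (hθ : M⟮algebraMap L Ω θ⟯ = ⊤)
    (𝔓 : HeightOneSpectrum O') (hint : 𝔓.valuation Ω (algebraMap L Ω θ) ≤ 1)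
    (h3 : ∀ (m : M) {ε : WithZero (Multiplicative ℤ)}, ε ≠ 0 →
      ∃ l : L, 𝔓.valuation Ω (algebraMap M Ω m - algebraMap L Ω l) < ε)
    (s : Ω) (hs : s ≠ 0) :
    ∃ s₀ : L, 𝔓.valuation Ω (s - algebraMap L Ω s₀) < 𝔓.valuation Ω s := by
  have hε : 𝔓.valuation Ω s ≠ 0 := (Valuation.ne_zero_iff _).2 hs
  have h1 : s ∈ Algebra.adjoin M {algebraMap L Ω θ} := by
    have h2 := IntermediateField.adjoin_simple_toSubalgebra_of_isAlgebraic
      (Algebra.IsAlgebraic.isAlgebraic (R := M) (algebraMap L Ω θ))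
    rw [← h2, hθ]
    trivial
  rw [Algebra.adjoin_singleton_eq_range_aeval] at h1
  obtain ⟨p, rfl⟩ := h1
  have hp : (aeval (algebraMap L Ω θ)) p ≠ 0 := hs
  change 𝔓.valuation Ω (aeval (algebraMap L Ω θ) p) ≠ 0 at hε
  choose a ha using fun i => h3 (p.coeff i) hε
  refine ⟨∑ i ∈ Finset.range (p.natDegree + 1), a i * θ ^ i, ?_⟩
  change 𝔓.valuation Ω (aeval (algebraMap L Ω θ) p - _) < 𝔓.valuation Ω (aeval (algebraMap L Ω θ) p)
  have e : aeval (algebraMap L Ω θ) p - algebraMap L Ω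
      (∑ i ∈ Finset.range (p.natDegree + 1), a i * θ ^ i) =
      ∑ i ∈ Finset.range (p.natDegree + 1), (algebraMap M Ω (p.coeff i) - algebraMap L Ω (a i)) *
        (algebraMap L Ω θ) ^ i := by
    conv_lhs => rw [aeval_eq_sum_range]
    rw [map_sum, ← Finset.sum_sub_distrib]
    refine Finset.sum_congr rfl fun i _ => ?_
    rw [map_mul, map_pow, sub_mul, Algebra.smul_def]
  rw [e]
  refine Valuation.map_sum_lt _ hε fun i _ => ?_
  rw [map_mul, map_pow]
  refine lt_of_le_of_lt ?_ (ha i)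
  exact mul_le_of_le_one_right' (pow_le_one' hint i)

end dens

end Run7.h23
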