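import Pool.Agent.N922.PQ.Big3
import Pool.Agent.N603.PM.UR
import Pool.Agent.N362.PQ.UR

/-!
# Unramified extensions without generators, over `ℤ`

Adapted from `Pool.Agent.N874.TW.Gen`, `Cnd` (helper874).
-/

set_option autoImplicit false
set_option linter.all false

open Polynomial IsDedekindDomain NumberField
open scoped Classical IntermediateField

namespace Run7.h23

open Pool.Agent.N922.PQ
open Pool.Agent.N874.PP (Ev Sq1 U0)

theorem exp_pow' {a : WithZero (Multiplicative ℤ)} {e : ℕ} (h : a ^ e = WithZero.exp (-1 : ℤ)) :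
    e = 1 := by
  have ha : a ≠ 0 := by
    rintro rfl
    rcases Nat.eq_zero_or_pos e with rfl | he
    · rw [pow_zero] at h
      have : WithZero.exp (0 : ℤ) = WithZero.exp (-1 : ℤ) := by rw [← h]; rfl
      exact absurd (WithZero.exp_injective this) (by norm_num)
    · rw [zero_pow he.ne'] at h
      exact WithZero.exp_ne_zero h.symm
  obtain ⟨m, rfl⟩ : ∃ m : ℤ, a = WithZero.exp m := ⟨WithZero.log a, (WithZero.exp_log ha).symm⟩
  rw [← WithZero.exp_nsmul] at h
  have h1 := WithZero.exp_injective h
  rw [nsmul_eq_mul] at h1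
  have h2 : (e : ℤ) ∣ 1 := ⟨-m, by linarith⟩
  have h3 : e ∣ 1 := by exact_mod_cast h2
  exact Nat.dvd_one.1 h3

theorem not_ev_exp' {F O : Type} [Field F] [CommRing O] [IsDedekindDomain O] [Algebra O F]
    [IsFractionRing O F] {v : HeightOneSpectrum O} {x : F}
    (h : v.valuation F x = WithZero.exp (-1 : ℤ)) : ¬ Ev v x := by
  rintro ⟨y, hy⟩
  rw [h] at hy
  have hy0 : v.valuation F y ≠ 0 := by
    intro h0
    rw [h0, zero_pow two_ne_zero] at hy
    exact WithZero.exp_ne_zero hy
  obtain ⟨m, hm⟩ : ∃ m : ℤ, v.valuation F y = WithZero.exp m :=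
    ⟨WithZero.log _, (WithZero.exp_log hy0).symm⟩
  rw [hm, ← WithZero.exp_nsmul] at hy
  have h1 := WithZero.exp_injective hy
  rw [nsmul_eq_mul] at h1
  push_cast at h1
  omega

section gen

variable {F F' : Type} (O O' : Type) [Field F] [NumberField F] [Field F'] [NumberField F']
  [Algebra F F'] [CommRing O] [IsDedekindDomain O]
  [Algebra O F] [IsFractionRing O F]
  [IsIntegralClosure O ℤ F]
  [CommRing O'] [IsDedekindDomain O'] [Algebra O' F'] [IsFractionRing O' F']
  [IsIntegralClosure O' ℤ F']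

/-- The primes at which `f'(θ)` is a unit are unramified. -/
theorem unr_top' {f : ℤ[X]} {θ : F'}
    (hmon : f.Monic) (hroot : aeval θ f = 0) (htop : F⟮θ⟯ = ⊤) (𝔓 : HeightOneSpectrum O')
    (h3 : 𝔓.valuation F' (aeval θ (derivative f)) = 1) :
    ∃ w : HeightOneSpectrum O, ∀ x : F, 𝔓.valuation F' (algebraMap F F' x) = w.valuation F x := by
  let _ : Algebra O F' := ((algebraMap F F').comp (algebraMap O F)).toAlgebra
  have t1 : IsScalarTower O F F' := IsScalarTower.of_algebraMap_eq fun _ => rfl
  have t3 : Algebra.IsIntegral ℤ O := IsIntegralClosure.isIntegral_algebra ℤ F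
  let l : O →ₐ[ℤ] O' := IsIntegralClosure.lift ℤ O' F'
  let _ : Algebra O O' := l.toRingHom.toAlgebra
  have t4 : IsScalarTower O O' F' := IsScalarTower.of_algebraMap_eq fun x =>
    (IsIntegralClosure.algebraMap_lift ℤ O' F' x).symm
  have t6 : IsIntegralClosure O' O F' := IsIntegralClosure.tower_top (R := ℤ)
  have t7 : Algebra.IsIntegral O O' := IsIntegralClosure.isIntegral_algebra O F'
  have hfin : FiniteDimensional F F' := Module.Finite.of_restrictScalars_finite ℚ F F'
  have hinj : Function.Injective (algebraMap O O') := by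
    have h1 : Function.Injective (algebraMap O F') := by
      rw [IsScalarTower.algebraMap_eq O F F']
      exact (algebraMap F F').injective.comp (IsFractionRing.injective O F)
    rw [IsScalarTower.algebraMap_eq O O' F'] at h1
    exact Function.Injective.of_comp h1
  have hp0 : 𝔓.asIdeal.under O ≠ ⊥ := by
    intro h0
    exact 𝔓.ne_bot (Ideal.eq_bot_of_comap_eq_bot h0)
  let v : HeightOneSpectrum O := ⟨𝔓.asIdeal.under O, inferInstance, hp0⟩
  have hl : 𝔓.asIdeal.LiesOver v.asIdeal := ⟨rfl⟩
  have hint : IsIntegral ℤ θ := ⟨f, hmon, by rw [← aeval_def]; exact hroot⟩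
  obtain ⟨y, hy⟩ := (IsIntegralClosure.isIntegral_iff (R := ℤ) (A := O')).1 hint
  have hadj : Algebra.adjoin F {algebraMap O' F' y} = ⊤ := by
    have h1 : IsIntegral F θ := hint.tower_top
    have h2 := IntermediateField.adjoin_simple_toSubalgebra_of_isAlgebraic h1.isAlgebraic
    rw [hy, ← h2, htop, IntermediateField.top_toSubalgebra]
  refine ⟨v, fun x => Pool.Agent.N603.PM.UR.core O F F' O' y hadj 𝔓 ?_ v x⟩
  intro hmem
  have : FaithfulSMul O O' := (faithfulSMul_iff_algebraMap_injective O O').2 hinj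
  have : Module.IsTorsionFree O O' := inferInstance
  have hgy : aeval y f = 0 := by
    apply IsFractionRing.injective O' F'
    rw [map_zero, ← Polynomial.aeval_algebraMap_apply, hy]
    exact hroot
  have hint' : IsIntegral O y := IsIntegral.tower_top (R := ℤ) ⟨f, hmon, hgy⟩
  have hdvd : minpoly O y ∣ f.map (algebraMap ℤ O) := by
    apply minpoly.isIntegrallyClosed_dvd hint'
    rw [aeval_map_algebraMap]
    exact hgy
  obtain ⟨q, hq⟩ := hdvd
  have h1 : aeval y (derivative f) = aeval y (derivative (minpoly O y)) * aeval y q := by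
    have h2 := congrArg (fun p : O[X] => aeval y (derivative p)) hq
    simp only [derivative_mul, map_add, map_mul, minpoly.aeval, zero_mul, add_zero] at h2
    rw [← h2, derivative_map, aeval_map_algebraMap]
  have h2 : aeval y (derivative f) ∈ 𝔓.asIdeal := by
    rw [h1]
    exact Ideal.mul_mem_right _ _ hmem
  have h4 : 𝔓.valuation F' (algebraMap O' F' (aeval y (derivative f))) < 1 := by
    rw [HeightOneSpectrum.valuation_lt_one_iff_mem]
    exact h2
  rw [← Polynomial.aeval_algebraMap_apply, hy, h3] at h4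
  exact lt_irrefl _ h4

/-- A prime over a given prime, with the ramification index. -/
theorem over_e (v : HeightOneSpectrum O) :
    ∃ (𝔓 : HeightOneSpectrum O') (e : ℕ), ∀ x : F, 𝔓.valuation F' (algebraMap F F' x) =
      v.valuation F x ^ e := by
  let _ : Algebra O F' := ((algebraMap F F').comp (algebraMap O F)).toAlgebra
  have t1 : IsScalarTower O F F' := IsScalarTower.of_algebraMap_eq fun _ => rfl
  have t3 : Algebra.IsIntegral ℤ O := IsIntegralClosure.isIntegral_algebra ℤ F
  let l : O →ₐ[ℤ] O' := IsIntegralClosure.lift ℤ O' F'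
  let _ : Algebra O O' := l.toRingHom.toAlgebra
  have t4 : IsScalarTower O O' F' := IsScalarTower.of_algebraMap_eq fun x =>
    (IsIntegralClosure.algebraMap_lift ℤ O' F' x).symm
  have t6 : IsIntegralClosure O' O F' := IsIntegralClosure.tower_top (R := ℤ)
  have t7 : Algebra.IsIntegral O O' := IsIntegralClosure.isIntegral_algebra O F'
  have hfin : FiniteDimensional F F' := Module.Finite.of_restrictScalars_finite ℚ F F'
  have hinj : Function.Injective (algebraMap O O') := by
    have h1 : Function.Injective (algebraMap O F') := by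
      rw [IsScalarTower.algebraMap_eq O F F']
      exact (algebraMap F F').injective.comp (IsFractionRing.injective O F)
    rw [IsScalarTower.algebraMap_eq O O' F'] at h1
    exact Function.Injective.of_comp h1
  have : FaithfulSMul O O' := (faithfulSMul_iff_algebraMap_injective O O').2 hinj
  have : Module.IsTorsionFree O O' := inferInstance
  have : Module.Finite O O' := IsIntegralClosure.finite O F F' O'
  obtain ⟨Q, -, hQp, hQ⟩ := Ideal.exists_ideal_over_prime_of_isIntegral (S := O') v.asIdeal ⊥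
    (by
      intro x hx
      have h1 : algebraMap O O' x = 0 := by simpa using hx
      have h2 : x = 0 := hinj (by rw [h1, map_zero])
      rw [h2]
      exact zero_mem _)
  have hQ0 : Q ≠ ⊥ := by
    rintro rfl
    apply v.ne_bot
    rw [← hQ]
    exact (RingHom.injective_iff_ker_eq_bot _).1 hinj
  let P : HeightOneSpectrum O' := ⟨Q, hQp, hQ0⟩
  have hl : P.asIdeal.LiesOver v.asIdeal := ⟨hQ.symm⟩
  exact ⟨P, _, fun x => (HeightOneSpectrum.valuation_liesOver F' v P x).symm⟩

end gen

section up

variable {L M Ω : Type} (O O' R : Type) [Field L] [NumberField L] [Field M] [NumberField M]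
  [Field Ω] [NumberField Ω] [Algebra L Ω] [Algebra M Ω]
  [CommRing O] [IsDedekindDomain O] [Algebra O L] [IsFractionRing O L] [IsIntegralClosure O ℤ L]
  [CommRing O'] [IsDedekindDomain O'] [Algebra O' Ω] [IsFractionRing O' Ω]
  [IsIntegralClosure O' ℤ Ω]
  [CommRing R] [IsDedekindDomain R] [Algebra R M] [IsFractionRing R M] [IsIntegralClosure R ℤ M]

/-- The cubic polynomial over `ℤ`. -/
noncomputable def fz (a b : ℤ) : ℤ[X] := X ^ 3 + C a * X + C b

theorem fz_monic (a b : ℤ) : (fz a b).Monic := by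
  unfold fz
  monicity!

theorem fz_root {F : Type} [Field F] [CharZero F] {a b : ℤ} {θ : F}
    (h : θ ^ 3 + (a : F) * θ + (b : F) = 0) : aeval θ (fz a b) = 0 := by
  unfold fz
  simp only [map_add, map_mul, map_pow, aeval_X, eq_intCast, map_intCast]
  exact h

theorem fz_der {F : Type} [Field F] [CharZero F] (a b : ℤ) (θ : F) :
    aeval θ (derivative (fz a b)) = 3 * θ ^ 2 + (a : F) := by
  unfold fz
  simp only [derivative_add, derivative_X_pow, derivative_C, derivative_mul, derivative_X,
    zero_mul, zero_add, mul_one, add_zero, map_add, map_mul, map_pow, aeval_X, eq_intCast,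
    map_intCast]
  norm_num

include R in
/-- The primes of `Ω` at which `f'(θ)` is a unit are unramified over `M`. -/
theorem over_M {a b : ℤ} {θ : L} (hc : IsCub a b θ)
    (hθ : M⟮algebraMap L Ω θ⟯ = ⊤) (𝔓 : HeightOneSpectrum O')
    (h2 : 𝔓.valuation Ω (3 * (algebraMap L Ω θ) ^ 2 + (a : Ω)) = 1) :
    ∃ w : HeightOneSpectrum R, ∀ x : M, 𝔓.valuation Ω (algebraMap M Ω x) = w.valuation M x := by
  have hroot : (algebraMap L Ω θ) ^ 3 + (a : Ω) * algebraMap L Ω θ + (b : Ω) = 0 := by
    have h1 := congrArg (algebraMap L Ω) hc.root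
    rw [map_zero, map_add, map_add, map_mul, map_pow, map_intCast, map_intCast] at h1
    exact h1
  exact unr_top' R O' (fz_monic a b) (fz_root hroot) hθ 𝔓 (by rw [fz_der]; exact h2)

include R in
/-- The primes over `P` at which `f'(θ)` is a unit are unramified in the compositum. -/
theorem up_prime' {a b : ℤ} {θ : L} (hc : IsCub a b θ)
    (hθ : M⟮algebraMap L Ω θ⟯ = ⊤) {P : ℤ} (hP : Prime P)
    (hun : ∀ w : HeightOneSpectrum R, Ov P w →
      w.valuation M (P : M) = WithZero.exp (-1 : ℤ))
    (𝔓 : HeightOneSpectrum O) (h1 : Ov P 𝔓)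
    (h2 : 𝔓.valuation L (3 * θ ^ 2 + (a : L)) = 1) :
    ∃ 𝔓' : HeightOneSpectrum O', (∀ x : L, 𝔓'.valuation Ω (algebraMap L Ω x) = 𝔓.valuation L x) ∧
      ∃ w : HeightOneSpectrum R, (∀ x : M, 𝔓'.valuation Ω (algebraMap M Ω x) = w.valuation M x) ∧
        Ov P w := by
  haveI : Algebra.IsIntegral ℤ O' := IsIntegralClosure.isIntegral_algebra ℤ Ω
  haveI : CharZero O' := charZero_of O' Ω
  obtain ⟨𝔓', e, he⟩ := over_e O O' (F := L) (F' := Ω) 𝔓
  obtain ⟨w, hw⟩ := over_M O' R hc hθ 𝔓' (by
    have e1 : 3 * (algebraMap L Ω θ) ^ 2 + (a : Ω) = algebraMap L Ω (3 * θ ^ 2 + (a : L)) := by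
      rw [map_add, map_mul, map_pow, map_ofNat, map_intCast]
    rw [e1, he, h2, one_pow])
  have hP𝔓 : 𝔓.valuation L (P : L) < 1 := (ov_val P 𝔓).1 h1
  have e0 : e ≠ 0 := by
    rintro rfl
    obtain ⟨P₁, a1, a3⟩ := exists_below 𝔓'
    have h3 := (ov_val (L := Ω) P₁ 𝔓').1 a3
    rw [← map_intCast (algebraMap L Ω), he, pow_zero] at h3
    exact lt_irrefl _ h3
  have hwP : Ov P w := by
    rw [ov_val (L := M), ← hw, map_intCast, ← map_intCast (algebraMap L Ω), he]
    exact pow_lt_one' hP𝔓 e0
  have h4 := hun w hwP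
  rw [← hw, map_intCast, ← map_intCast (algebraMap L Ω), he] at h4
  have h5 := exp_pow' h4
  subst h5
  exact ⟨𝔓', fun x => by rw [he, pow_one], w, hw, hwP⟩

end up

end Run7.h23
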