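import Pool.Agent.Run7.h23.Cn
import Pool.Agent.N922.PQ.Unr

/-!
# The conditions in terms of ideals
-/

set_option autoImplicit false
set_option linter.all false

open IsDedekindDomain NumberField
open scoped Classical

namespace Run7.h23

open Pool.Agent.N922.PQ

section idl

variable {K : Type} [Field K] [NumberField K]

theorem val_iff_sq (q : ℤ) (w : HeightOneSpectrum (𝓞 K)) (hq : Ov q w) :
    w.valuation K (q : K) = WithZero.exp (-1 : ℤ) ↔ (q : 𝓞 K) ∉ w.asIdeal ^ 2 := by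
  have e : (q : K) = algebraMap (𝓞 K) K (q : 𝓞 K) := by rw [map_intCast]
  rw [e, HeightOneSpectrum.valuation_of_algebraMap]
  have h1 := (w.intValuation_le_pow_iff_mem (q : 𝓞 K) 1).2 (by rw [pow_one]; exact hq)
  have h2 := w.intValuation_le_pow_iff_mem (q : 𝓞 K) 2
  rw [← h2]
  constructor
  · intro h
    rw [h, WithZero.exp_le_exp]
    norm_num
  · intro h
    rw [not_le] at h
    have h0 : w.intValuation (q : 𝓞 K) ≠ 0 := by
      intro h0
      rw [h0] at h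
      exact not_lt_zero' h
    rw [← WithZero.exp_log h0, WithZero.exp_le_exp] at h1
    rw [← WithZero.exp_log h0, WithZero.exp_lt_exp] at h
    rw [← WithZero.exp_log h0]
    congr 1
    push_cast at h1 h
    omega

/-- Small residue fields. -/
theorem res_pow {q : ℕ} (hq : q.Prime) (w : HeightOneSpectrum (𝓞 K)) (hw : Ov (q : ℤ) w)
    (hc : Nat.card (𝓞 K ⧸ w.asIdeal) ≤ q ^ 2) (y : 𝓞 K) : y ^ (q ^ 2) - y ∈ w.asIdeal := by
  haveI : Finite (𝓞 K ⧸ w.asIdeal) :=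
    Pool.Agent.N42.PQ.finite_residue (L := K) (by exact_mod_cast hq.ne_zero) hw
  haveI := w.isMaximal
  letI : Field (𝓞 K ⧸ w.asIdeal) := Ideal.Quotient.field w.asIdeal
  haveI : Fintype (𝓞 K ⧸ w.asIdeal) := Fintype.ofFinite _
  have hq0 : ((q : ℕ) : 𝓞 K ⧸ w.asIdeal) = 0 := by
    have h1 : Ideal.Quotient.mk w.asIdeal ((q : ℤ) : 𝓞 K) = 0 := Ideal.Quotient.eq_zero_iff_mem.2 hw
    rw [Int.cast_natCast, map_natCast] at h1
    exact h1
  haveI : CharP (𝓞 K ⧸ w.asIdeal) q := by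
    haveI : CharP (𝓞 K ⧸ w.asIdeal) (ringChar (𝓞 K ⧸ w.asIdeal)) := ringChar.charP _
    have h2 := ringChar.dvd hq0
    rcases (Nat.dvd_prime hq).1 h2 with h3 | h3
    · exfalso
      haveI : CharP (𝓞 K ⧸ w.asIdeal) 1 := h3 ▸ ringChar.charP _
      exact CharP.false_of_nontrivial_of_char_one (R := 𝓞 K ⧸ w.asIdeal)
    · exact h3 ▸ ringChar.charP _
  obtain ⟨n, -, hn⟩ := FiniteField.card (𝓞 K ⧸ w.asIdeal) q
  rw [Nat.card_eq_fintype_card, hn] at hc
  have hn2 : (n : ℕ) ≤ 2 := (Nat.pow_le_pow_iff_right hq.one_lt).1 hc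
  have hp := FiniteField.pow_card (Ideal.Quotient.mk w.asIdeal y)
  rw [hn] at hp
  rw [← Ideal.Quotient.eq_zero_iff_mem, map_sub, map_pow, sub_eq_zero]
  have hn1 : 1 ≤ (n : ℕ) := n.2
  obtain h | h : (n : ℕ) = 1 ∨ (n : ℕ) = 2 := by omega
  · rw [h, pow_one] at hp
    rw [pow_two, pow_mul, hp, hp]
  · rw [h] at hp
    exact hp

end idl

end Run7.h23
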