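import Pool.Agent.N849.PM.Loc2

/-!
# Local analysis at the primes dividing `D`, all cases

Adapted from `Pool.Agent.N849.PM.Loc2` (helper849): here `- a` may be a square modulo `w`.
-/

set_option autoImplicit false
set_option linter.all false

open Polynomial IsDedekindDomain WithZero
open Pool.Agent.N874.PP Pool.Agent.N874.PM
open scoped Classical

namespace Run7.h23

open Pool.Agent.N704.PP (vx near_one near sq1_of ev_of ev_of_sq1 mlt mlt' sq_or exp_odd)
open Pool.Agent.N849.PM (ploc_cases u0_of_sq1 u0_of_sq1')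

section sq

variable {Ω O : Type} [Field Ω] [CommRing O] [IsDedekindDomain O]
  [Algebra O Ω] [IsFractionRing O Ω] {𝔓 : HeightOneSpectrum O}

/-- A square up to a principal unit. -/
theorem sq1_aux {β : Ω} (hβ : β ≠ 0) {u c G : 𝔓.adicCompletion Ω} {s0 : Ω}
    (rel : algebraMap Ω (𝔓.adicCompletion Ω) β * (1 - u) = - c * G ^ 2)
    (vu : Valued.v u < 1) (vc : Valued.v c = 1)
    (hs : Valued.v (algebraMap Ω (𝔓.adicCompletion Ω) s0 ^ 2 + c) < 1) : Sq1 𝔓 β := by
  set B := algebraMap Ω (𝔓.adicCompletion Ω) β with hB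
  have hB0 : B ≠ 0 := by rw [hB, Ne, map_eq_zero]; exact hβ
  have v1 : Valued.v (1 - u) = 1 := by
    rw [Valuation.map_sub_eq_of_lt_left _ (by rw [map_one]; exact vu), map_one]
  have v2 : Valued.v (G ^ 2) = Valued.v B := by
    have := congrArg (Valued.v : 𝔓.adicCompletion Ω → WithZero (Multiplicative ℤ)) rel
    rw [map_mul, v1, mul_one, map_mul, Valuation.map_neg, vc, one_mul] at this
    exact this.symm
  refine sq1_of 𝔓 _ (algebraMap Ω (𝔓.adicCompletion Ω) s0 * G) ?_
  rw [← hB]
  have e : B - (algebraMap Ω (𝔓.adicCompletion Ω) s0 * G) ^ 2 =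
      B * u - (algebraMap Ω (𝔓.adicCompletion Ω) s0 ^ 2 + c) * G ^ 2 := by
    linear_combination rel
  rw [e]
  have vβ : 0 < Valued.v B := zero_lt_iff.2 ((Valuation.ne_zero_iff _).2 hB0)
  refine lt_of_le_of_lt (Valuation.map_sub _ _ _) (max_lt ?_ ?_)
  · rw [map_mul]
    calc _ < Valued.v B * 1 := mul_lt_mul_of_pos_left vu vβ
      _ = _ := mul_one _
  · rw [map_mul, v2]
    calc _ < 1 * Valued.v B := mul_lt_mul_of_pos_right hs vβ
      _ = _ := one_mul _

end sq

/-- The condition at the primes over `w` at which `θ` is a unit. -/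
theorem loc2u {M Ω R O : Type} [Field M] [Field Ω] [Algebra M Ω] [CommRing R]
    [IsDedekindDomain R] [Algebra R M] [IsFractionRing R M] [CommRing O] [IsDedekindDomain O]
    [Algebra O Ω] [IsFractionRing O Ω] (w : HeightOneSpectrum R) (𝔓 : HeightOneSpectrum O)
    (hL : Lies (M := M) (Ω := Ω) w 𝔓) (a b ϖ D' : M) (θ : Ω) (h : M[X])
    (hroot : θ ^ 3 + algebraMap M Ω a * θ + algebraMap M Ω b = 0)
    (h2 : w.valuation M 2 = 1) (ha : w.valuation M a = 1) (hb : w.valuation M b < 1)
    (hϖ : w.valuation M ϖ = WithZero.exp (-1 : ℤ)) (hD : w.valuation M D' = 1)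
    (hs1 : ∃ s : Ω, 𝔓.valuation Ω (s ^ 2 + algebraMap M Ω D') < 1)
    (hs2 : ∃ s : Ω, 𝔓.valuation Ω (s ^ 2 + algebraMap M Ω (2 * D')) < 1)
    (hs3 : ∃ s : Ω, 𝔓.valuation Ω (s ^ 2 - 2) < 1)
    (hl : PLoc (w.adicCompletion M) (a * (ϖ * D') ^ 2) (b * (ϖ * D') ^ 3) h)
    (hne : aeval (algebraMap M Ω (ϖ * D') * θ) h ≠ 0)
    (hθ1 : 𝔓.valuation Ω θ = 1) (hnev : ¬ Ev 𝔓 (algebraMap M Ω ϖ * θ)) :
    U0 𝔓 (algebraMap M Ω ϖ * θ) (aeval (algebraMap M Ω (ϖ * D') * θ) h) := by
  obtain ⟨j, hj1, hj2, hj3⟩ := Pool.Agent.TH115.GD.exists_compl_map w 𝔓 (algebraMap M Ω) hL.le hL.lt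
  have hΘ : (algebraMap M Ω (ϖ * D') * θ) ^ 3 + algebraMap M Ω (a * (ϖ * D') ^ 2) *
      (algebraMap M Ω (ϖ * D') * θ) + algebraMap M Ω (b * (ϖ * D') ^ 3) = 0 := by
    simp only [map_mul, map_pow]
    linear_combination (algebraMap M Ω ϖ * algebraMap M Ω D') ^ 3 * hroot
  set Θ : Ω := algebraMap M Ω (ϖ * D') * θ with hΘd
  set α : Ω := aeval Θ h with hα
  have hϖ0 : ϖ ≠ 0 := by
    rintro rfl
    rw [map_zero] at hϖ
    exact exp_ne_zero hϖ.symm
  have hD0 : D' ≠ 0 := by
    rintro rfl
    rw [map_zero] at hD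
    exact zero_ne_one hD
  have h20 : (2 : M) ≠ 0 := by
    intro h
    rw [h, map_zero] at h2
    exact zero_ne_one h2
  have hQE : algebraMap M (w.adicCompletion M) ϖ ≠ 0 := by rw [Ne, map_eq_zero]; exact hϖ0
  have hDE : algebraMap M (w.adicCompletion M) D' ≠ 0 := by rw [Ne, map_eq_zero]; exact hD0
  have hαE : algebraMap Ω (𝔓.adicCompletion Ω) α ≠ 0 := by rw [Ne, map_eq_zero]; exact hne
  -- it suffices to prove
  suffices hmain : Sq1 𝔓 α ∨ Sq1 𝔓 (α * (algebraMap M Ω ϖ * θ)) by
    rcases hmain with h3 | h3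
    · exact u0_of_sq1 h3
    · exact u0_of_sq1' hne hnev h3
  rcases ploc_cases j hj1 hΘ hl with ⟨g, hg⟩ | ⟨x, y, hy0, hxy, g, hg⟩
  · left
    refine sq1_of 𝔓 α g ?_
    rw [← hα] at hg
    rw [← hg, sub_self, map_zero]
    exact zero_lt_iff.2 ((Valuation.ne_zero_iff _).2 hαE)
  · rw [← hα] at hg
    set q := algebraMap M (w.adicCompletion M) ϖ with hq
    set d := algebraMap M (w.adicCompletion M) D' with hd
    set a' := algebraMap M (w.adicCompletion M) a with ha'
    set b' := algebraMap M (w.adicCompletion M) b with hb'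
    have hxy' : y ^ 2 = x ^ 3 + a' * (q * d) ^ 2 * x + b' * (q * d) ^ 3 := by
      rw [hxy]
      simp only [map_mul, map_pow, hq, hd, ha', hb']
    have va' : Valued.v a' ≤ 1 := by rw [ha', vx]; exact ha.le
    have vb' : Valued.v b' < 1 := by rw [hb', vx]; exact hb
    have vd : Valued.v d = 1 := by rw [hd, vx, hD]
    have vq : Valued.v q = exp (-1 : ℤ) := by rw [hq, vx, hϖ]
    have jq : j q = algebraMap Ω (𝔓.adicCompletion Ω) (algebraMap M Ω ϖ) := by rw [hq, hj1]
    have jd : j d = algebraMap Ω (𝔓.adicCompletion Ω) (algebraMap M Ω D') := by rw [hd, hj1]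
    set t := algebraMap Ω (𝔓.adicCompletion Ω) θ with ht
    have vt : Valued.v t = 1 := by rw [ht, vx]; exact hθ1
    have ht0 : t ≠ 0 := by
      intro h
      rw [h, map_zero] at vt
      exact zero_ne_one vt
    have hΘE : algebraMap Ω (𝔓.adicCompletion Ω) Θ = j q * j d * t := by
      rw [hΘd, map_mul, map_mul, map_mul, jq, jd]
    rw [hΘE] at hg
    have hjd0 : j d ≠ 0 := by rw [Ne, map_eq_zero]; exact hDE
    have hjq0 : j q ≠ 0 := by rw [Ne, map_eq_zero]; exact hQE
    have vjd : Valued.v (j d) = 1 := by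
      rw [jd, vx]; exact Pool.Agent.N849.PM.Lies.eq_one hL hD
    have hjy0 : j y ≠ 0 := by rw [Ne, map_eq_zero]; exact hy0
    have v2 : Valued.v (2 : 𝔓.adicCompletion Ω) = 1 := by
      have e : (2 : 𝔓.adicCompletion Ω) = algebraMap Ω (𝔓.adicCompletion Ω) (algebraMap M Ω 2) := by
        rw [map_ofNat, map_ofNat]
      rw [e, vx]
      exact Pool.Agent.N849.PM.Lies.eq_one hL h2
    have h2E : (2 : 𝔓.adicCompletion Ω) ≠ 0 := by
      intro h
      rw [h, map_zero] at v2
      exact zero_ne_one v2
    by_cases hx : Valued.v x ≤ Valued.v q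
    · -- `x = ϖ D' x'`
      set x' := x / (q * d) with hx'
      have ex : x = q * d * x' := by
        rw [hx']; field_simp
      have vx' : Valued.v x' ≤ 1 := by
        rw [hx', map_div₀, map_mul, vd, mul_one]
        exact (div_le_one₀ (zero_lt_iff.2 ((Valuation.ne_zero_iff _).2 hQE))).2 hx
      have hyx : y ^ 2 = (q * d) ^ 3 * (x' ^ 3 + a' * x' + b') := by
        rw [hxy', ex]; ring
      have vf : Valued.v (x' ^ 3 + a' * x' + b') < 1 := by
        have hle : Valued.v (x' ^ 3 + a' * x' + b') ≤ 1 := by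
          refine (Valuation.map_add _ _ _).trans (max_le ?_ vb'.le)
          refine (Valuation.map_add _ _ _).trans (max_le ?_ ?_)
          · rw [map_pow]
            exact pow_le_one' vx' 3
          · rw [map_mul]
            exact mul_le_one' va' vx'
        refine lt_of_le_of_ne hle fun h4 => ?_
        have h5 := congrArg (Valued.v : w.adicCompletion M → WithZero (Multiplicative ℤ)) hyx
        rw [map_pow, map_mul, h4, mul_one, map_pow, map_mul, vd, mul_one, vq, ← exp_nsmul] at h5
        refine exp_odd (x := 1) (y := Valued.v y) (n := 3 • (-1 : ℤ)) ⟨-2, by norm_num⟩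
          one_ne_zero ?_
        rw [one_pow, one_mul]
        exact h5.symm
      -- over `𝔓`
      set Y := j x' with hY
      have vY : Valued.v Y ≤ 1 := hj2 _ vx'
      have vjb : Valued.v (j b') < 1 := hj3 _ vb'
      have ja : j a' = algebraMap Ω (𝔓.adicCompletion Ω) (algebraMap M Ω a) := by rw [ha', hj1]
      have jb : j b' = algebraMap Ω (𝔓.adicCompletion Ω) (algebraMap M Ω b) := by rw [hb', hj1]
      have ht3 : t ^ 3 + j a' * t + j b' = 0 := by
        rw [ja, jb, ht, ← map_pow, ← map_mul, ← map_add, ← map_add, hroot, map_zero]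
      have vta : Valued.v (t ^ 2 + j a') < 1 := by
        have e : (t ^ 2 + j a') * t = - j b' := by linear_combination ht3
        have e2 := congrArg (Valued.v : 𝔓.adicCompletion Ω → WithZero (Multiplicative ℤ)) e
        rw [map_mul, vt, mul_one, Valuation.map_neg] at e2
        rw [e2]
        exact vjb
      have vF : Valued.v (Y * ((Y - t) * (Y + t))) < 1 := by
        have e : Y * ((Y - t) * (Y + t)) = j (x' ^ 3 + a' * x' + b') - j b' -
            Y * (t ^ 2 + j a') := by
          rw [map_add, map_add, map_mul, map_pow, ← hY]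
          ring
        rw [e]
        refine lt_of_le_of_lt (Valuation.map_sub _ _ _) (max_lt ?_ ?_)
        · exact lt_of_le_of_lt (Valuation.map_sub _ _ _) (max_lt (hj3 _ vf) vjb)
        · rw [map_mul]
          exact mlt vY vta
      have hg' : (j q * j d * Y - j q * j d * t) * algebraMap Ω (𝔓.adicCompletion Ω) α =
          g ^ 2 := by
        rw [← hg, ex, map_mul, map_mul]
      have hθ0 : θ ≠ 0 := by
        rintro rfl
        rw [map_zero] at hθ1
        exact zero_ne_one hθ1
      have hβΩ : α * (algebraMap M Ω ϖ * θ) ≠ 0 := by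
        refine mul_ne_zero hne (mul_ne_zero ?_ hθ0)
        rw [Ne, map_eq_zero]
        exact hϖ0
      have hβ' : algebraMap Ω (𝔓.adicCompletion Ω) (α * (algebraMap M Ω ϖ * θ)) =
          algebraMap Ω (𝔓.adicCompletion Ω) α * (j q * t) := by
        rw [map_mul, map_mul, jq]
      by_cases c1 : Valued.v Y < 1
      · right
        obtain ⟨s0, hs0⟩ := hs1
        refine sq1_aux hβΩ (u := Y / t) (c := j d) (G := g / j d) (s0 := s0) ?_ ?_ vjd ?_
        · rw [hβ', div_pow, ← hg']
          field_simp
          ring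
        · rw [map_div₀, vt, div_one]
          exact c1
        · rw [jd, ← map_pow, ← map_add, vx]
          exact hs0
      by_cases c2 : Valued.v (Y + t) < 1
      · right
        obtain ⟨s0, hs0⟩ := hs2
        refine sq1_aux hβΩ (u := (Y + t) / (2 * t)) (c := 2 * j d) (G := g / (2 * j d)) (s0 := s0)
          ?_ ?_ ?_ ?_
        · rw [hβ', div_pow, ← hg']
          field_simp
          ring
        · rw [map_div₀, map_mul, v2, vt, mul_one, div_one]
          exact c2
        · rw [map_mul, v2, vjd, mul_one]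
        · have e : algebraMap Ω (𝔓.adicCompletion Ω) s0 ^ 2 + 2 * j d =
              algebraMap Ω (𝔓.adicCompletion Ω) (s0 ^ 2 + algebraMap M Ω (2 * D')) := by
            rw [map_add, map_pow, map_mul, map_mul, map_ofNat, map_ofNat, jd]
          rw [e, vx]
          exact hs0
      · left
        have vY1 : Valued.v Y = 1 := le_antisymm vY (not_lt.1 c1)
        have vYt : Valued.v (Y + t) ≤ 1 := (Valuation.map_add _ _ _).trans (max_le vY vt.le)
        have vYt1 : Valued.v (Y + t) = 1 := le_antisymm vYt (not_lt.1 c2)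
        have c3 : Valued.v (Y - t) < 1 := by
          rw [map_mul, map_mul, vY1, vYt1, one_mul, mul_one] at vF
          exact vF
        obtain ⟨s0, hs0⟩ := hs3
        set v := Y ^ 2 + Y * t + t ^ 2 + j a' with hv
        have hjyx : j y ^ 2 = (j q * j d) ^ 3 * ((Y - t) * v) := by
          rw [← map_pow, hyx, hv]
          simp only [map_mul, map_pow, map_add]
          linear_combination (j q * j d) ^ 3 * ht3
        have hYt0 : Y - t ≠ 0 := by
          intro h0
          rw [h0, zero_mul, mul_zero] at hjyx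
          exact hjy0 (pow_eq_zero_iff two_ne_zero |>.1 hjyx)
        set G := g * (j q * j d) / j y with hG
        have hα1 : algebraMap Ω (𝔓.adicCompletion Ω) α = G ^ 2 * v := by
          rw [hG, div_pow, mul_pow, hjyx]
          have hv0 : v ≠ 0 := by
            intro h0
            rw [h0, mul_zero, mul_zero] at hjyx
            exact hjy0 (pow_eq_zero_iff two_ne_zero |>.1 hjyx)
          rw [← hg']
          field_simp
        have vv : Valued.v (v - 2 * t ^ 2) < 1 := by
          have e : v - 2 * t ^ 2 = (Y - t) * (Y + t) + (Y - t) * t + (t ^ 2 + j a') := by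
            rw [hv]
            ring
          rw [e]
          refine lt_of_le_of_lt (Valuation.map_add _ _ _) (max_lt ?_ vta)
          refine lt_of_le_of_lt (Valuation.map_add _ _ _) (max_lt ?_ ?_)
          · rw [map_mul, vYt1, mul_one]
            exact c3
          · rw [map_mul, vt, mul_one]
            exact c3
        have v2t : Valued.v (2 * t ^ 2) = 1 := by
          rw [map_mul, map_pow, v2, vt, one_pow, mul_one]
        have vv1 : Valued.v v = 1 := by
          have e : v = 2 * t ^ 2 + (v - 2 * t ^ 2) := by ring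
          rw [e, Valuation.map_add_eq_of_lt_left _ (by rw [v2t]; exact vv), v2t]
        have vG : Valued.v (G ^ 2) = Valued.v (algebraMap Ω (𝔓.adicCompletion Ω) α) := by
          rw [hα1, map_mul, vv1, mul_one]
        have hG0 : 0 < Valued.v (G ^ 2) := by
          rw [vG]
          exact zero_lt_iff.2 ((Valuation.ne_zero_iff _).2 hαE)
        refine sq1_of 𝔓 α (algebraMap Ω (𝔓.adicCompletion Ω) s0 * t * G) ?_
        have e : algebraMap Ω (𝔓.adicCompletion Ω) α -
            (algebraMap Ω (𝔓.adicCompletion Ω) s0 * t * G) ^ 2 =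
            G ^ 2 * ((v - 2 * t ^ 2) - algebraMap Ω (𝔓.adicCompletion Ω) (s0 ^ 2 - 2) * t ^ 2) := by
          rw [hα1, map_sub, map_pow, map_ofNat]
          ring
        rw [e, map_mul, ← vG]
        calc _ < Valued.v (G ^ 2) * 1 := by
              refine mul_lt_mul_of_pos_left ?_ hG0
              refine lt_of_le_of_lt (Valuation.map_sub _ _ _) (max_lt vv ?_)
              rw [map_mul, map_pow, vt, one_pow, mul_one, vx]
              exact hs0
          _ = _ := mul_one _
    · left
      rw [not_le] at hx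
      have hx0 : x ≠ 0 := by
        rintro rfl
        rw [map_zero] at hx
        exact absurd hx (by simp)
      set ξ := q / x with hξ
      have vξ : Valued.v ξ < 1 := by
        rw [hξ, map_div₀]
        exact (div_lt_one₀ (zero_lt_iff.2 ((Valuation.ne_zero_iff _).2 hx0))).2 hx
      have eq : q = ξ * x := by rw [hξ]; field_simp
      set ε := a' * d ^ 2 * ξ ^ 2 + b' * d ^ 3 * ξ ^ 3 with hε
      have vε : Valued.v ε < 1 := by
        refine lt_of_le_of_lt (Valuation.map_add _ _ _) (max_lt ?_ ?_)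
        · rw [map_mul, map_mul, map_pow, vd, one_pow, mul_one, map_pow]
          exact mlt va' (pow_lt_one₀ zero_le vξ two_ne_zero)
        · rw [map_mul, map_mul, map_pow, vd, one_pow, mul_one, map_pow]
          exact mlt vb'.le (pow_lt_one₀ zero_le vξ three_ne_zero)
      have hy : y ^ 2 = x ^ 3 * (1 + ε) := by
        rw [hxy', hε, eq]; ring
      have hjx0 : j x ≠ 0 := by rw [Ne, map_eq_zero]; exact hx0
      have hjy : j y ^ 2 = j x ^ 3 * (1 + j ε) := by
        rw [← map_pow, hy, map_mul, map_pow, map_add, map_one]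
      have vjε : Valued.v (j ε) < 1 := hj3 _ vε
      have vj1 : Valued.v (1 + j ε) = 1 := by
        rw [Valuation.map_add_eq_of_lt_left _ (by rw [map_one]; exact vjε), map_one]
      have hj1ε : (1 + j ε) ≠ 0 := by
        intro h
        rw [h, map_zero] at vj1
        exact zero_ne_one vj1
      set ε' := - (j d * t * j ξ) with hε'
      have vε' : Valued.v ε' < 1 := by
        rw [hε', Valuation.map_neg, map_mul, map_mul, vt, mul_one, vjd, one_mul]
        exact hj3 _ vξ
      have hg' : j x * (1 + ε') * algebraMap Ω (𝔓.adicCompletion Ω) α = g ^ 2 := by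
        rw [← hg, hε', eq, map_mul]; ring
      refine sq1_of 𝔓 α (g * j x / j y) ?_
      have e : algebraMap Ω (𝔓.adicCompletion Ω) α - (g * j x / j y) ^ 2 =
          algebraMap Ω (𝔓.adicCompletion Ω) α * ((j ε - ε') / (1 + j ε)) := by
        rw [div_pow, mul_pow, ← hg', hjy]
        field_simp
        ring
      rw [e, map_mul, map_div₀, vj1, div_one]
      calc _ < Valued.v (algebraMap Ω (𝔓.adicCompletion Ω) α) * 1 :=
            mul_lt_mul_of_pos_left (lt_of_le_of_lt (Valuation.map_sub _ _ _)
              (max_lt vjε vε')) (zero_lt_iff.2 ((Valuation.ne_zero_iff _).2 hαE))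
        _ = _ := mul_one _

end Run7.h23
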