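import Pool.Agent.N922.PQ.Stm2
import Pool.Agent.N323.PV.CAL
import Pool.Agent.N907.PV.NF2
import Pool.Agent.N951.PV.PT2
import Pool.Agent.N279.PV.SQD

/-!
# The place `2`: the classes of points of the quadratic twists

For odd `a`, `b`, both `3` modulo `4`, the local image at `2` of the twist by `e` of
`y ^ 2 = x ^ 3 + a x + b` is the same for all `e` which are not `3` modulo `4` (up to powers of `4`).
-/

set_option autoImplicit false
set_option linter.all false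

open Polynomial
open scoped Classical

namespace Run7.h23

open Pool.Agent.N922.PQ Pool.Agent.N323.PV

/-! ### rings -/

section Ring

variable {O : Type*} [CommRing O]

/-- the case of a square, with coefficients in the ring -/
lemma ringA' (h2 : ∀ u : O, 2 ∣ u ^ 2 → 2 ∣ u)
    (h0 : ∀ u w : O, 2 * u = 2 * w → u = w) (a b : ℤ) (hb : Odd b) (c₁ c₂ : O)
    (s t t0 t1 t2 : O)
    (e1 : 2 * c₁ + 4 * s = 2 * t0 * t1 - 2 * t1 * t2 * a - t2 ^ 2 * b)
    (e2 : 2 * c₂ + 4 * t = t1 ^ 2 + 2 * t0 * t2 - t2 ^ 2 * a) : (2 : O) ∣ c₁ ∧ (2 : O) ∣ c₂ := by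
  obtain ⟨k, rfl⟩ := hb
  push_cast at e1 e2
  obtain ⟨u2, hu2⟩ : (2 : O) ∣ t2 := by
    apply h2
    refine ⟨t0 * t1 - t1 * t2 * a - t2 ^ 2 * k - c₁ - 2 * s, ?_⟩
    linear_combination e1
  obtain ⟨u1, hu1⟩ : (2 : O) ∣ t1 := by
    apply h2
    refine ⟨c₂ + 2 * t - t0 * t2 + u2 * t2 * a, ?_⟩
    linear_combination -e2 + (a * t2) * hu2
  constructor
  · refine ⟨t0 * u1 - 2 * u1 * u2 * a - u2 ^ 2 * (2 * k + 1) - s, ?_⟩
    apply h0
    rw [hu1, hu2] at e1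
    linear_combination e1
  · refine ⟨u1 ^ 2 + t0 * u2 - u2 ^ 2 * a - t, ?_⟩
    apply h0
    rw [hu1, hu2] at e2
    linear_combination e2

/-- the case of an integral point of the twist by `-1` -/
lemma ringN (h1 : ¬ (2 : O) ∣ 1) (h2 : ∀ u : O, 2 ∣ u ^ 2 → 2 ∣ u)
    (h0 : ∀ u w : O, 2 * u = 2 * w → u = w) (A B : ℤ)
    (g₁ g₂ : ℤ) (r s t x t0 t1 t2 : O)
    (e0 : -(x * (1 + 4 * r) + (2 * g₂ + 4 * t) * ((3 + 4 * B : ℤ) : O)) =
      t0 ^ 2 - 2 * t1 * t2 * ((3 + 4 * B : ℤ) : O))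
    (e1 : -(x * (2 * g₁ + 4 * s) - (1 + 4 * r) + (2 * g₂ + 4 * t) * ((3 + 4 * A : ℤ) : O)) =
      2 * t0 * t1 - 2 * t1 * t2 * ((3 + 4 * A : ℤ) : O) - t2 ^ 2 * ((3 + 4 * B : ℤ) : O))
    (e2 : -(x * (2 * g₂ + 4 * t) - (2 * g₁ + 4 * s)) =
      t1 ^ 2 + 2 * t0 * t2 - t2 ^ 2 * ((3 + 4 * A : ℤ) : O)) :
    Even g₁ ↔ Even g₂ := by
  push_cast at e0 e1 e2
  -- `x = t0²` modulo `2`
  obtain ⟨u3, hu3⟩ : ∃ u3 : O, x = t0 ^ 2 + 2 * u3 := by
    refine ⟨-t0 ^ 2 + t1 * t2 * (3 + 4 * B) - 2 * r * x - (g₂ + 2 * t) * (3 + 4 * B), ?_⟩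
    linear_combination -e0
  obtain ⟨u2, hu2⟩ : (2 : O) ∣ t2 - 1 := by
    apply h2
    refine ⟨t0 * t1 - t1 * t2 * (3 + 4 * A) - t2 ^ 2 * (1 + 2 * B) + x * (g₁ + 2 * s) - 2 * r
      + (g₂ + 2 * t) * (3 + 4 * A) - t2, ?_⟩
    linear_combination e1
  have hu2' : t2 = 1 + 2 * u2 := by linear_combination hu2
  obtain ⟨u1, hu1⟩ : (2 : O) ∣ t1 - 1 := by
    apply h2
    refine ⟨-x * (g₂ + 2 * t) + (g₁ + 2 * s) - t0 * t2 + 2 * (1 + A) * t2 ^ 2 +
      (2 * u2 ^ 2 + 2 * u2 + 1) - t2 ^ 2 - t1, ?_⟩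
    linear_combination -e2 + (t2 + 1 + 2 * u2) * hu2'
  have hu1' : t1 = 1 + 2 * u1 := by linear_combination hu1
  have E1 : (2 : O) ∣ g₁ * t0 ^ 2 + g₂ + t0 + 1 := by
    refine ⟨-(g₁ * u3 + s * x - r + 2 * A * g₂ + t * (3 + 4 * A) + t0 * u1 - 2 * A
      - (u1 + u2 + 2 * u1 * u2) * (3 + 4 * A) - B - (u2 + u2 ^ 2) * (3 + 4 * B)) - g₂ + 3, ?_⟩
    apply h0
    rw [hu1', hu2'] at e1
    linear_combination -e1 - (2 * (g₁ : O)) * hu3
  have E2 : (2 : O) ∣ g₂ * t0 ^ 2 + g₁ + t0 + 1 := by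
    refine ⟨-(t * x - s + (u1 + u1 ^ 2) + t0 * u2 - A - (u2 + u2 ^ 2) * (3 + 4 * A) + g₂ * u3)
      + g₁ + 1, ?_⟩
    apply h0
    rw [hu1', hu2'] at e2
    linear_combination -e2 - (2 * (g₂ : O)) * hu3
  rcases Int.even_or_odd g₁ with hg1 | hg1 <;> rcases Int.even_or_odd g₂ with hg2 | hg2
  · exact ⟨fun _ => hg2, fun _ => hg1⟩
  · exfalso
    obtain ⟨i, rfl⟩ := hg1
    obtain ⟨j, rfl⟩ := hg2
    push_cast at E1 E2
    obtain ⟨w1, hw1⟩ := E1
    obtain ⟨w2, hw2⟩ := E2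
    apply h1
    obtain ⟨P, hP⟩ : ∃ P : O, P = w1 - i * t0 ^ 2 - j - 1 := ⟨_, rfl⟩
    have h4 : t0 = 2 * P := by linear_combination hw1 - 2 * hP
    refine ⟨w2 - j * t0 ^ 2 - i - P * (t0 + 1), ?_⟩
    linear_combination hw2 - (t0 + 1) * h4
  · exfalso
    obtain ⟨i, rfl⟩ := hg1
    obtain ⟨j, rfl⟩ := hg2
    push_cast at E1 E2
    obtain ⟨w1, hw1⟩ := E1
    obtain ⟨w2, hw2⟩ := E2
    apply h1
    obtain ⟨P, hP⟩ : ∃ P : O, P = w2 - j * t0 ^ 2 - i - 1 := ⟨_, rfl⟩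
    have h4 : t0 = 2 * P := by linear_combination hw2 - 2 * hP
    refine ⟨w1 - i * t0 ^ 2 - j - P * (t0 + 1), ?_⟩
    linear_combination hw1 - (t0 + 1) * h4
  · rw [← Int.not_odd_iff_even, ← Int.not_odd_iff_even]
    exact ⟨fun h => absurd hg1 h, fun h => absurd hg2 h⟩

end Ring

/-! ### valuations -/

section Val

variable {F Γ : Type} [Field F] [CharZero F] [LinearOrderedCommGroupWithZero Γ] (v : Valuation F Γ)

/-- the case of a square -/
lemma caseA' (hv2 : v 2 < 1) (hv : ∀ x : F, v x < 1 → v x ≤ v 2) {a b : ℤ} (hb : Odd b)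
    {c₁ c₂ r s t t0 t1 t2 : F} (hc1 : v c₁ ≤ 1) (hc2 : v c₂ ≤ 1) (hr : v r ≤ 1) (hs : v s ≤ 1)
    (ht : v t ≤ 1)
    (e0 : 1 + 4 * r = t0 ^ 2 - 2 * t1 * t2 * b)
    (e1 : 2 * c₁ + 4 * s = 2 * t0 * t1 - 2 * t1 * t2 * a - t2 ^ 2 * b)
    (e2 : 2 * c₂ + 4 * t = t1 ^ 2 + 2 * t0 * t2 - t2 ^ 2 * a) : v c₁ < 1 ∧ v c₂ < 1 := by
  let c₁' : v.integer := ⟨c₁, hc1⟩
  let c₂' : v.integer := ⟨c₂, hc2⟩
  let r' : v.integer := ⟨r, hr⟩
  let s' : v.integer := ⟨s, hs⟩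
  let t' : v.integer := ⟨t, ht⟩
  obtain ⟨k0, k1, k2⟩ := integral v hv2 hb e0 e1 e2 (1 + 4 * r' : v.integer).2
    (2 * c₁' + 4 * s' : v.integer).2 (2 * c₂' + 4 * t' : v.integer).2
  have key := ringA' (O := v.integer) (int_h2 v hv2 hv) (int_h0 v) a b hb c₁' c₂' s' t'
    ⟨t0, k0⟩ ⟨t1, k1⟩ ⟨t2, k2⟩ (Subtype.ext e1) (Subtype.ext e2)
  have hlt : ∀ c : v.integer, (2 : v.integer) ∣ c → v (c : F) < 1 := by
    rintro c ⟨d, hd⟩
    have h1 : (c : F) = 2 * (d : F) := congrArg Subtype.val hd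
    rw [h1, map_mul]
    exact mul_lt_one_of_nonneg_of_lt_one_left zero_le' hv2 d.2
  exact ⟨hlt c₁' key.1, hlt c₂' key.2⟩

lemma even_of_lt (hv2 : v 2 < 1) {n : ℤ} (h : v (n : F) < 1) : Even n := by
  by_contra hn
  rw [Int.not_even_iff_odd] at hn
  rw [odd_one v hv2 hn] at h
  exact lt_irrefl _ h

/-- the case of an integral point of a twist by `3` modulo `4` -/
lemma caseN (hv2 : v 2 < 1) (hv : ∀ x : F, v x < 1 → v x ≤ v 2) (A B : ℤ)
    (g₁ g₂ : ℤ) {r s t x t0 t1 t2 : F} (hr : v r ≤ 1) (hs : v s ≤ 1) (ht : v t ≤ 1) (hx : v x ≤ 1)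
    (e0 : -(x * (1 + 4 * r) + (2 * g₂ + 4 * t) * ((3 + 4 * B : ℤ) : F)) =
      t0 ^ 2 - 2 * t1 * t2 * ((3 + 4 * B : ℤ) : F))
    (e1 : -(x * (2 * g₁ + 4 * s) - (1 + 4 * r) + (2 * g₂ + 4 * t) * ((3 + 4 * A : ℤ) : F)) =
      2 * t0 * t1 - 2 * t1 * t2 * ((3 + 4 * A : ℤ) : F) - t2 ^ 2 * ((3 + 4 * B : ℤ) : F))
    (e2 : -(x * (2 * g₂ + 4 * t) - (2 * g₁ + 4 * s)) =
      t1 ^ 2 + 2 * t0 * t2 - t2 ^ 2 * ((3 + 4 * A : ℤ) : F)) :
    Even g₁ ↔ Even g₂ := by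
  have hb : Odd (3 + 4 * B : ℤ) := ⟨1 + 2 * B, by ring⟩
  let r' : v.integer := ⟨r, hr⟩
  let s' : v.integer := ⟨s, hs⟩
  let t' : v.integer := ⟨t, ht⟩
  let x' : v.integer := ⟨x, hx⟩
  obtain ⟨k0, k1, k2⟩ := integral v hv2 hb e0 e1 e2
    (-(x' * (1 + 4 * r') + (2 * (g₂ : v.integer) + 4 * t') * ((3 + 4 * B : ℤ) : v.integer)) :
      v.integer).2
    (-(x' * (2 * (g₁ : v.integer) + 4 * s') - (1 + 4 * r') +
      (2 * (g₂ : v.integer) + 4 * t') * ((3 + 4 * A : ℤ) : v.integer)) : v.integer).2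
    (-(x' * (2 * (g₂ : v.integer) + 4 * t') - (2 * (g₁ : v.integer) + 4 * s')) : v.integer).2
  exact ringN (O := v.integer) (int_h1 v hv2) (int_h2 v hv2 hv) (int_h0 v) A B g₁ g₂
    r' s' t' x' ⟨t0, k0⟩ ⟨t1, k1⟩ ⟨t2, k2⟩ (Subtype.ext e0) (Subtype.ext e1) (Subtype.ext e2)

/-- the case of a point near the origin of a twist by an odd number -/
lemma caseC' (hv2 : v 2 < 1) (hv : ∀ x : F, v x < 1 → v x ≤ v 2) {a b e : ℤ} (hb : Odd b)
    (he : Odd e)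
    (g₁ g₂ : ℤ) {r s t x y t0 t1 t2 : F} (hr : v r ≤ 1) (hs : v s ≤ 1) (ht : v t ≤ 1)
    (hx : 1 < v x) (hy : y ≠ 0) (hxy : y ^ 2 = e * (x ^ 3 + a * x + b))
    (e0 : e * (x * (1 + 4 * r) + (2 * g₂ + 4 * t) * b) = t0 ^ 2 - 2 * t1 * t2 * b)
    (e1 : e * (x * (2 * g₁ + 4 * s) - (1 + 4 * r) + (2 * g₂ + 4 * t) * a) =
      2 * t0 * t1 - 2 * t1 * t2 * a - t2 ^ 2 * b)
    (e2 : e * (x * (2 * g₂ + 4 * t) - (2 * g₁ + 4 * s)) = t1 ^ 2 + 2 * t0 * t2 - t2 ^ 2 * a) :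
    Even g₁ ∧ Even g₂ := by
  have hx0 : x ≠ 0 := by
    rintro rfl
    rw [map_zero] at hx
    exact absurd hx (not_lt.2 zero_le')
  have hvx : 0 < v x := lt_trans zero_lt_one hx
  have hve : v (e : F) = 1 := odd_one v hv2 he
  -- the valuation of `y`
  have hy2 : v y ^ 2 = v x ^ 3 := by
    have k1 : v (a * x + b) < v (x ^ 3) := by
      refine v.map_add_lt ?_ ?_
      · rw [map_mul, map_pow]
        calc v (a : F) * v x ≤ 1 * v x := by
              gcongr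
              exact int_le v a
          _ = v x := one_mul _
          _ < v x ^ 3 := by
              have := pow_lt_pow_right₀ hx (show 1 < 3 by norm_num)
              rwa [pow_one] at this
      · rw [map_pow]
        exact lt_of_le_of_lt (int_le v b) (one_lt_pow₀ hx (by norm_num))
    have k2 := Valuation.map_add_eq_of_lt_left v k1
    rw [← map_pow, hxy, map_mul, hve, one_mul, add_assoc, k2, map_pow]
  have hvy : 0 < v y := (Valuation.pos_iff v).2 hy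
  have hw : v (x / y) < 1 := by
    by_contra hc
    rw [not_lt, map_div₀, one_le_div₀ hvy] at hc
    have k1 : v y ^ 2 ≤ v x ^ 2 := pow_le_pow_left₀ zero_le' hc 2
    rw [hy2] at k1
    exact absurd (pow_lt_pow_right₀ hx (show 2 < 3 by norm_num)) (not_lt.2 k1)
  obtain ⟨w, hw1, hw2⟩ := half v (hv _ hw)
  -- `z = e (x / y)² = 4 ζ`
  obtain ⟨ζ, hζ⟩ : ∃ ζ : F, ζ = e * w ^ 2 := ⟨_, rfl⟩
  have hζ1 : v ζ ≤ 1 := by rw [hζ, map_mul, hve, one_mul, map_pow]; exact pow_le_one₀ zero_le' hw1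
  have hz : e * (x / y) ^ 2 = 4 * ζ := by rw [hw2, hζ]; ring
  have hinv : v (1 / x) ≤ 1 := by
    rw [map_div₀, map_one]
    exact div_le_one_of_le₀ hx.le zero_le'
  obtain ⟨i, hi⟩ : ∃ i : F, i = 1 / x := ⟨_, rfl⟩
  have hi1 : v i ≤ 1 := hi ▸ hinv
  obtain ⟨δ, hδ⟩ : ∃ δ : F, δ = -ζ * (a * i + b * i ^ 2) := ⟨_, rfl⟩
  have hxz : x * (4 * ζ) = 1 + 4 * δ := by
    have k1 : (e * (x / y) ^ 2) * (x ^ 3 + a * x + b) = x ^ 2 := by
      have k2 : (e * (x / y) ^ 2) * (x ^ 3 + a * x + b) =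
          (x / y) ^ 2 * (e * (x ^ 3 + a * x + b)) := by ring
      rw [k2, ← hxy]
      field_simp
    rw [hz] at k1
    rw [hδ, hi]
    field_simp
    linear_combination k1
  let r' : v.integer := ⟨r, hr⟩
  let s' : v.integer := ⟨s, hs⟩
  let t' : v.integer := ⟨t, ht⟩
  let ζ' : v.integer := ⟨ζ, hζ1⟩
  let i' : v.integer := ⟨i, hi1⟩
  let δ' : v.integer := -ζ' * ((a : v.integer) * i' + (b : v.integer) * i' ^ 2)
  have hδ1 : v δ ≤ 1 := by rw [hδ]; exact δ'.2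
  let d' : v.integer := ⟨δ, hδ1⟩
  let R : v.integer := r' + d' * (1 + 4 * r') + ζ' * (2 * (g₂ : v.integer) + 4 * t') * (b : v.integer)
  let S : v.integer := s' + d' * (2 * (g₁ : v.integer) + 4 * s') - ζ' * (1 + 4 * r') +
    ζ' * (2 * (g₂ : v.integer) + 4 * t') * (a : v.integer)
  let T : v.integer := t' + d' * (2 * (g₂ : v.integer) + 4 * t') - ζ' * (2 * (g₁ : v.integer) + 4 * s')
  have hR : (R : F) = r + δ * (1 + 4 * r) + ζ * (2 * g₂ + 4 * t) * b := rfl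
  have hS : (S : F) = s + δ * (2 * g₁ + 4 * s) - ζ * (1 + 4 * r) + ζ * (2 * g₂ + 4 * t) * a := rfl
  have hT : (T : F) = t + δ * (2 * g₂ + 4 * t) - ζ * (2 * g₁ + 4 * s) := rfl
  refine caseA v hv2 hv (a := a) (b := b) hb g₁ g₂ (r := R) (s := S) (t := T)
    (t0 := t0 * (x / y)) (t1 := t1 * (x / y)) (t2 := t2 * (x / y)) R.2 S.2 T.2 ?_ ?_ ?_
  · rw [hR]
    linear_combination (x / y) ^ 2 * e0 + (1 + 4 * r) * (-hxz) - (x * (1 + 4 * r) +
      (2 * g₂ + 4 * t) * b) * hz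
  · rw [hS]
    linear_combination (x / y) ^ 2 * e1 + (2 * g₁ + 4 * s) * (-hxz) - (x * (2 * g₁ + 4 * s) -
      (1 + 4 * r) + (2 * g₂ + 4 * t) * a) * hz
  · rw [hT]
    linear_combination (x / y) ^ 2 * e2 + (2 * g₂ + 4 * t) * (-hxz) - (x * (2 * g₂ + 4 * t) -
      (2 * g₁ + 4 * s)) * hz

/-- the case of a point of a twist by an even number -/
lemma caseE (hv2 : v 2 < 1) (hv : ∀ x : F, v x < 1 → v x ≤ v 2) {a b e : ℤ} (hb : Odd b)
    (g₁ g₂ : ℤ) {r s t x y t0 t1 t2 : F} (hr : v r ≤ 1) (hs : v s ≤ 1) (ht : v t ≤ 1)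
    (hx : 1 < v x) (hy : y ≠ 0) (hxy : y ^ 2 = e * (x ^ 3 + a * x + b))
    (e0 : e * (x * (1 + 4 * r) + (2 * g₂ + 4 * t) * b) = t0 ^ 2 - 2 * t1 * t2 * b)
    (e1 : e * (x * (2 * g₁ + 4 * s) - (1 + 4 * r) + (2 * g₂ + 4 * t) * a) =
      2 * t0 * t1 - 2 * t1 * t2 * a - t2 ^ 2 * b)
    (e2 : e * (x * (2 * g₂ + 4 * t) - (2 * g₁ + 4 * s)) = t1 ^ 2 + 2 * t0 * t2 - t2 ^ 2 * a) :
    Even g₂ := by
  have hx0 : x ≠ 0 := by
    rintro rfl
    rw [map_zero] at hx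
    exact absurd hx (not_lt.2 zero_le')
  have hvx : 0 < v x := lt_trans zero_lt_one hx
  have hinv : v (1 / x) < 1 := by
    rw [map_div₀, map_one, div_lt_one₀ hvx]
    exact hx
  obtain ⟨j, hj1, hj2⟩ := half v (hv _ hinv)
  have hxj : x * (2 * j) = 1 := by rw [← hj2]; field_simp
  obtain ⟨d, hd⟩ : ∃ d : F, d = a * j ^ 2 + 2 * b * j ^ 3 := ⟨_, rfl⟩
  obtain ⟨κ, hκ⟩ : ∃ κ : F, κ = (x / y) * (1 + 4 * d) := ⟨_, rfl⟩
  -- `e x κ² = 1 + 4 d`
  have hk : e * x * κ ^ 2 = 1 + 4 * d := by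
    have k1 : e * x * (x / y) ^ 2 * (1 + 4 * d) = 1 := by
      have k2 : (1 + 4 * d) * x ^ 3 = x ^ 3 + a * x + b := by
        rw [hd]
        linear_combination (a * x * (x * (2 * j) + 1) + b * ((x * (2 * j)) ^ 2 + x * (2 * j) + 1)) *
          hxj
      have k3 : e * x * (x / y) ^ 2 * (1 + 4 * d) = (e * ((1 + 4 * d) * x ^ 3)) / y ^ 2 := by
        field_simp
      rw [k3, k2, ← hxy]
      field_simp
    rw [hκ]
    linear_combination (1 + 4 * d) * k1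
  have hk2 : e * κ ^ 2 = 2 * j * (1 + 4 * d) := by
    linear_combination (2 * j) * hk - e * κ ^ 2 * hxj
  let r' : v.integer := ⟨r, hr⟩
  let s' : v.integer := ⟨s, hs⟩
  let t' : v.integer := ⟨t, ht⟩
  let j' : v.integer := ⟨j, hj1⟩
  let a' : v.integer := (a : v.integer)
  let b' : v.integer := (b : v.integer)
  let γ₁ : v.integer := (g₁ : v.integer)
  let γ₂ : v.integer := (g₂ : v.integer)
  let d' : v.integer := a' * j' ^ 2 + 2 * b' * j' ^ 3
  let R₀ : v.integer := r' + j' * (γ₂ + 2 * t') * b'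
  let S₀ : v.integer := s' - 2 * j' * r' + j' * (γ₂ + 2 * t') * a'
  let T₀ : v.integer := t' - j' * γ₁ - 2 * j' * s'
  let R : v.integer := R₀ + d' * (1 + 4 * R₀)
  let S : v.integer := S₀ + d' * (2 * (γ₁ - j') + 4 * S₀)
  let T : v.integer := T₀ + d' * (2 * γ₂ + 4 * T₀)
  have hd' : ((d' : v.integer) : F) = d := by rw [hd]; rfl
  have hR : (R : F) = (r + j * (g₂ + 2 * t) * b) + d * (1 + 4 * (r + j * (g₂ + 2 * t) * b)) := by
    rw [← hd']; rfl
  have hS : (S : F) = (s - 2 * j * r + j * (g₂ + 2 * t) * a) +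
      d * (2 * (g₁ - j) + 4 * (s - 2 * j * r + j * (g₂ + 2 * t) * a)) := by
    rw [← hd']; rfl
  have hT : (T : F) = (t - j * g₁ - 2 * j * s) + d * (2 * g₂ + 4 * (t - j * g₁ - 2 * j * s)) := by
    rw [← hd']; rfl
  have h := caseA' v hv2 hv (a := a) (b := b) hb (c₁ := g₁ - j) (c₂ := g₂) (r := R) (s := S)
    (t := T) (t0 := t0 * κ) (t1 := t1 * κ) (t2 := t2 * κ) (γ₁ - j').2 γ₂.2 R.2 S.2 T.2 ?_ ?_ ?_
  · exact even_of_lt v hv2 h.2
  · rw [hR]
    linear_combination κ ^ 2 * e0 - (1 + 4 * r) * hk - (2 * g₂ + 4 * t) * b * hk2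
  · rw [hS]
    linear_combination κ ^ 2 * e1 - (2 * g₁ + 4 * s) * hk + (1 + 4 * r) * hk2 -
      (2 * g₂ + 4 * t) * a * hk2
  · rw [hT]
    linear_combination κ ^ 2 * e2 - (2 * g₂ + 4 * t) * hk + (2 * g₁ + 4 * s) * hk2

end Val

/-! ### the classes of the points -/

/-- The class of the polynomial `h` comes from a point of `y ^ 2 = e (x ^ 3 + a x + b)`. -/
def PLt (F : Type) [Field F] (a b e : ℤ) (h : F[X]) : Prop :=
  (∃ g : F[X], ff F a b ∣ h - g ^ 2) ∨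
  ∃ x y : F, y ≠ 0 ∧ y ^ 2 = e * (x ^ 3 + a * x + b) ∧
    ∃ g : F[X], ff F a b ∣ C (e : F) * ((C x - X) * h) - g ^ 2

/-- `e` is, up to a power of `4`, `1` or `2` modulo `4`. -/
def Gd (e : ℤ) : Prop := ∃ (k : ℕ) (e' : ℤ), e = 4 ^ k * e' ∧ (e' % 4 = 1 ∨ e' % 4 = 2)

/-- `e` is, up to a power of `4`, `3` modulo `4`. -/
def Bd (e : ℤ) : Prop := ∃ (k : ℕ) (e' : ℤ), e = 4 ^ k * e' ∧ e' % 4 = 3

theorem gd_or_bd {e : ℤ} (he : e ≠ 0) : Gd e ∨ Bd e := by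
  obtain ⟨n, hn⟩ : ∃ n : ℕ, e.natAbs ≤ n := ⟨_, le_rfl⟩
  induction n generalizing e with
  | zero =>
    have := Int.natAbs_eq_zero.1 (Nat.le_zero.1 hn)
    exact absurd this he
  | succ n ih =>
    by_cases h : e % 4 = 0
    · obtain ⟨f, rfl⟩ : ∃ f, e = 4 * f := ⟨e / 4, by omega⟩
      have hf : f ≠ 0 := by
        rintro rfl
        exact he (by norm_num)
      have hfn : f.natAbs ≤ n := by omega
      rcases ih hf hfn with ⟨k, e', h1, h2⟩ | ⟨k, e', h1, h2⟩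
      · exact Or.inl ⟨k + 1, e', by rw [h1, pow_succ]; ring, h2⟩
      · exact Or.inr ⟨k + 1, e', by rw [h1, pow_succ]; ring, h2⟩
    · rcases (by omega : e % 4 = 1 ∨ e % 4 = 2 ∨ e % 4 = 3) with h | h | h
      · exact Or.inl ⟨0, e, by simp, Or.inl h⟩
      · exact Or.inl ⟨0, e, by simp, Or.inr h⟩
      · exact Or.inr ⟨0, e, by simp, h⟩

theorem plt_four {F : Type} [Field F] [CharZero F] {a b e : ℤ} {k : ℕ} {h : F[X]}
    (H : PLt F a b (4 ^ k * e) h) : PLt F a b e h := by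
  have h2 : (2 : F) ^ k ≠ 0 := pow_ne_zero _ two_ne_zero
  have h4 : ((4 ^ k * e : ℤ) : F) = (2 ^ k) ^ 2 * (e : F) := by
    push_cast
    rw [← pow_mul, mul_comm k 2, pow_mul]
    norm_num
  rcases H with H | ⟨x, y, hy, hxy, g, hg⟩
  · exact Or.inl H
  · refine Or.inr ⟨x, y / 2 ^ k, div_ne_zero hy h2, ?_, C (1 / 2 ^ k) * g, ?_⟩
    · rw [div_pow, hxy, h4]
      field_simp
    · have e1 : C (e : F) * ((C x - X) * h) - (C (1 / 2 ^ k) * g) ^ 2 =
          C ((1 / 2 ^ k) ^ 2) * (C ((4 ^ k * e : ℤ) : F) * ((C x - X) * h) - g ^ 2) := by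
        have e2 : (C ((1 / 2 ^ k : F) ^ 2) : F[X]) * C ((4 ^ k * e : ℤ) : F) = C (e : F) := by
          rw [← C_mul, h4]
          congr 1
          field_simp
        rw [mul_sub, ← mul_assoc (C ((1 / 2 ^ k : F) ^ 2)), e2, C_pow]
        ring
      rw [e1]
      exact dvd_mul_of_dvd_right hg _

section main

variable {F Γ : Type} [Field F] [CharZero F] [LinearOrderedCommGroupWithZero Γ] (v : Valuation F Γ)

/-- The class of a point of a twist. -/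
theorem cal (hv2 : v 2 < 1) (hv : ∀ x : F, v x < 1 → v x ≤ v 2) {a b : ℤ} (ha : a % 4 = 3)
    (hb : b % 4 = 3) (hnr : ∀ x : F, v x ≤ 1 → v (x ^ 3 + a * x + b) = 1) {e : ℤ}
    (he : e % 4 ≠ 0) (g₁ g₂ : ℤ) {r s t : F} (hr : v r ≤ 1) (hs : v s ≤ 1) (ht : v t ≤ 1)
    (H : PLt F a b e (pol F g₁ g₂ r s t)) :
    (Even g₁ ∧ Even g₂) ∨ ((e % 4 = 1 ∨ e % 4 = 2) ∧ Even g₂) ∨
      (e % 4 = 3 ∧ (Even g₁ ↔ Even g₂)) := by
  have hao : Odd a := by rw [Int.odd_iff]; omega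
  have hbo : Odd b := by rw [Int.odd_iff]; omega
  have hab : (4 : ℤ) ∣ a - b := by omega
  rcases H with ⟨g, hg⟩ | ⟨x, y, hy, hxy, g, hg⟩
  · left
    obtain ⟨t0, t1, t2, e0, e1, e2⟩ := sq_form (a := a) (b := b) (1 + 4 * r) (2 * g₁ + 4 * s)
      (2 * g₂ + 4 * t) g (by
        convert hg using 1
        unfold pol
        simp only [map_add, map_mul, map_ofNat, map_one]
        ring)
    exact caseA v hv2 hv hbo g₁ g₂ hr hs ht e0 e1 e2
  · obtain ⟨t0, t1, t2, e0, e1, e2⟩ := sq_form (a := a) (b := b)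
      (e * (x * (1 + 4 * r) + (2 * g₂ + 4 * t) * b))
      (e * (x * (2 * g₁ + 4 * s) - (1 + 4 * r) + (2 * g₂ + 4 * t) * a))
      (e * (x * (2 * g₂ + 4 * t) - (2 * g₁ + 4 * s))) g (by
        have h1 : ff F a b ∣ ff F a b * C (e * (2 * g₂ + 4 * t)) := dvd_mul_right _ _
        have h2 := dvd_add hg h1
        convert h2 using 1
        unfold pol ff
        simp only [map_add, map_sub, map_mul, map_ofNat, map_one]
        ring)
    by_cases hx : v x ≤ 1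
    · rcases (by omega : e % 4 = 1 ∨ e % 4 = 2 ∨ e % 4 = 3) with h4 | h4 | h4
      · -- `e = 1 + 4 m`
        obtain ⟨m, rfl⟩ : ∃ m, e = 1 + 4 * m := ⟨(e - 1) / 4, by omega⟩
        right; left
        refine ⟨Or.inl h4, ?_⟩
        have hm : v (m : F) ≤ 1 := int_le v m
        let r' : v.integer := ⟨r, hr⟩
        let s' : v.integer := ⟨s, hs⟩
        let t' : v.integer := ⟨t, ht⟩
        let m' : v.integer := ((m : ℤ) : v.integer)
        let R : v.integer := r' + m' * (1 + 4 * r')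
        let S : v.integer := s' + m' * (2 * (g₁ : v.integer) + 4 * s')
        let T : v.integer := t' + m' * (2 * (g₂ : v.integer) + 4 * t')
        have hR : (R : F) = r + m * (1 + 4 * r) := rfl
        have hS : (S : F) = s + m * (2 * g₁ + 4 * s) := rfl
        have hT : (T : F) = t + m * (2 * g₂ + 4 * t) := rfl
        push_cast at e0 e1 e2
        have key := caseB v hv2 hv hao hab g₁ g₂ (r := R) (s := S) (t := T) (x := x) (t0 := t0)
          (t1 := t1) (t2 := t2) R.2 S.2 T.2 hx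
          (by rw [hR, hT]; linear_combination e0)
          (by rw [hR, hS, hT]; linear_combination e1)
          (by rw [hS, hT]; linear_combination e2)
        rcases key with h | ⟨-, h⟩
        · exact h.2
        · rw [Int.even_iff]
          omega
      · -- `e` is even: no such points
        exfalso
        obtain ⟨u, rfl⟩ : ∃ u, e = 2 * (2 * u + 1) := ⟨(e - 2) / 4, by omega⟩
        have h1 : v ((2 * u + 1 : ℤ) : F) = 1 := odd_one v hv2 ⟨u, rfl⟩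
        have h5 : v y ^ 2 = v 2 := by
          rw [← map_pow, hxy, Int.cast_mul, map_mul, map_mul, h1, hnr x hx, Int.cast_ofNat,
            mul_one, mul_one]
        have h6 : v y < 1 := by
          by_contra hc
          rw [not_lt] at hc
          have := one_le_pow₀ (n := 2) hc
          rw [h5] at this
          exact absurd hv2 (not_lt.2 this)
        have h7 := hv y h6
        have h8 : v y ^ 2 ≤ v 2 * v 2 := by
          rw [sq]
          exact mul_le_mul' h7 h7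
        have h9 : v 2 * v 2 < v (2 : F) := by
          have hp : 0 < v (2 : F) := (Valuation.pos_iff v).2 two_ne_zero
          calc v 2 * v 2 < 1 * v (2 : F) := mul_lt_mul_of_pos_right hv2 hp
            _ = v 2 := one_mul _
        rw [h5] at h8
        exact absurd h9 (not_lt.2 h8)
      · -- `e = -(1 + 4 m)`
        obtain ⟨m, rfl⟩ : ∃ m, e = -(1 + 4 * m) := ⟨(-e - 1) / 4, by omega⟩
        obtain ⟨α, rfl⟩ : ∃ α, a = 3 + 4 * α := ⟨(a - 3) / 4, by omega⟩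
        obtain ⟨β, rfl⟩ : ∃ β, b = 3 + 4 * β := ⟨(b - 3) / 4, by omega⟩
        right; right
        refine ⟨h4, ?_⟩
        have hm : v (m : F) ≤ 1 := int_le v m
        let r' : v.integer := ⟨r, hr⟩
        let s' : v.integer := ⟨s, hs⟩
        let t' : v.integer := ⟨t, ht⟩
        let m' : v.integer := ((m : ℤ) : v.integer)
        let R : v.integer := r' + m' * (1 + 4 * r')
        let S : v.integer := s' + m' * (2 * (g₁ : v.integer) + 4 * s')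
        let T : v.integer := t' + m' * (2 * (g₂ : v.integer) + 4 * t')
        have hR : (R : F) = r + m * (1 + 4 * r) := rfl
        have hS : (S : F) = s + m * (2 * g₁ + 4 * s) := rfl
        have hT : (T : F) = t + m * (2 * g₂ + 4 * t) := rfl
        have he' : ((-(1 + 4 * m) : ℤ) : F) = -(1 + 4 * (m : F)) := by push_cast; ring
        rw [he'] at e0 e1 e2
        exact caseN v hv2 hv α β g₁ g₂ (r := R) (s := S) (t := T) (x := x) (t0 := t0)
          (t1 := t1) (t2 := t2) R.2 S.2 T.2 hx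
          (by rw [hR, hT]; linear_combination e0)
          (by rw [hR, hS, hT]; linear_combination e1)
          (by rw [hS, hT]; linear_combination e2)
    · rw [not_le] at hx
      rcases Int.even_or_odd e with h4 | h4
      · right; left
        refine ⟨Or.inr ?_, caseE v hv2 hv hbo g₁ g₂ hr hs ht hx hy hxy e0 e1 e2⟩
        rw [Int.even_iff] at h4
        omega
      · exact Or.inl (caseC' v hv2 hv hbo h4 g₁ g₂ hr hs ht hx hy hxy e0 e1 e2)

end main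

/-- From the curve `Y ^ 2 = X ^ 3 + a e ^ 2 X + b e ^ 3` to the curve `y ^ 2 = e (x ^ 3 + a x + b)`. -/
theorem plt_of_pl {F : Type} [Field F] [CharZero F] {a b e : ℤ} (he : e ≠ 0) {h : F[X]}
    (H : PL F (a * e ^ 2) (b * e ^ 3) h) : PLt F a b e (h.comp (C (e : F) * X)) := by
  have hene : (e : F) ≠ 0 := by exact_mod_cast he
  have hA : ((a * e ^ 2 : ℤ) : F) = (a : F) * (e : F) ^ 2 := by push_cast; ring
  have hB : ((b * e ^ 3 : ℤ) : F) = (b : F) * (e : F) ^ 3 := by push_cast; ring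
  unfold PL ff at H
  rw [hA, hB] at H
  unfold PLt ff
  rcases H with ⟨g, hg⟩ | ⟨x, y, hy, hxy, g, hg⟩
  · left
    refine ⟨g.comp (C (e : F) * X), ?_⟩
    have h2 := Pool.Agent.N279.PV.dvd_comp_cub _ _ _ hg
    rw [sub_comp, pow_comp] at h2
    exact h2
  · right
    refine ⟨x / e, y / e, div_ne_zero hy hene, ?_, g.comp (C (e : F) * X), ?_⟩
    · rw [div_pow, hxy]
      field_simp
    · have h2 := Pool.Agent.N279.PV.dvd_comp_cub _ _ _ hg
      rw [sub_comp, pow_comp, mul_comp, sub_comp, C_comp, X_comp] at h2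
      have h3 : C (e : F) * ((C (x / (e : F)) - X) * h.comp (C (e : F) * X)) =
          (C x - C (e : F) * X) * h.comp (C (e : F) * X) := by
        have e1 : (C x : F[X]) = C (e : F) * C (x / (e : F)) := by
          rw [← C_mul]
          congr 1
          field_simp
        rw [e1]
        ring
      rw [h3]
      exact h2

end Run7.h23
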