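import Pool.Agent.N667.PQ.Ns
import Pool.Agent.N849.PQ.Int
import Pool.Agent.N922.PQ.Big3

/-!
# Parity at the ramified primes of the cubic field and at the primes of the family

The second part is adapted from `Pool.Agent.N862.PP.Par` (helper862).
-/

set_option autoImplicit false
set_option linter.all false

open Polynomial IsDedekindDomain UniqueFactorizationMonoid
open scoped Classical

namespace Run7.h23

open Pool.Agent.N922.PQ
open Pool.Agent.N667.PQ
open Pool.Agent.N874.PP (Ev Sq1 U0)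
open Pool.Agent.N862.PP (cn cn_prod)

section ram

variable {L O : Type} [Field L] [NumberField L] [CommRing O] [IsDedekindDomain O] [Algebra O L]
  [IsFractionRing O L] [IsIntegralClosure O ℤ L] {a b : ℤ} {θ : L}

theorem theta_val (h : IsCub a b θ) (𝔓 : HeightOneSpectrum O) : 𝔓.valuation L θ ≤ 1 := by
  obtain ⟨t, ht, -⟩ := exists_theta (O := O) h
  rw [← ht]
  exact 𝔓.valuation_le_one _

theorem eta_val (h : IsCub a b θ) (𝔓 : HeightOneSpectrum O) :
    𝔓.valuation L (3 * θ ^ 2 + (a : L)) ≤ 1 := by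
  obtain ⟨t, ht, -⟩ := exists_theta (O := O) h
  have e : 3 * θ ^ 2 + (a : L) = algebraMap O L (3 * t ^ 2 + (a : O)) := by
    rw [map_add, map_mul, map_pow, map_ofNat, map_intCast, ht]
  rw [e]
  exact 𝔓.valuation_le_one _

/-- Ramified primes. -/
theorem ram (hI : S_INT) (h : IsCub a b θ) (hsq : Squarefree (dsc a b)) {P : ℤ} (hP : Prime P)
    (h2 : ¬ P ∣ 2) (h3 : ¬ P ∣ 3) (𝔓₀ : HeightOneSpectrum O) (hov : Ov P 𝔓₀)
    (hη : 𝔓₀.valuation L (3 * θ ^ 2 + (a : L)) < 1) :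
    (∃ c : ℤ, 𝔓₀.valuation L (θ - (c : L)) < 1) ∧
      ∀ 𝔓 : HeightOneSpectrum O, Ov P 𝔓 → 𝔓 ≠ 𝔓₀ → 𝔓.valuation L (3 * θ ^ 2 + (a : L)) = 1 := by
  haveI : CharZero O := charZero_of O L
  have hiff : ∀ (𝔓 : HeightOneSpectrum O), Ov P 𝔓 → ∀ c : ℤ, Ov c 𝔓 ↔ P ∣ c := by
    intro 𝔓 h𝔓 c
    exact ov_iff hP h𝔓 c
  have hle : ∀ 𝔓 : HeightOneSpectrum O, 𝔓.valuation L θ ≤ 1 := theta_val h
  have hroot := h.root
  -- `P` divides the discriminant
  have hPd : P ∣ dsc a b := by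
    rw [← hiff 𝔓₀ hov, ov_val (L := L)]
    have e : ((dsc a b : ℤ) : L) = (3 * θ ^ 2 + (a : L)) *
        ((6 * a : ℤ) * θ ^ 2 - ((9 * b : ℤ) : L) * θ + ((4 * a ^ 2 : ℤ) : L)) := by
      unfold dsc
      push_cast
      linear_combination (-(18 * (a : L) * θ) + 27 * (b : L)) * hroot
    rw [e, map_mul]
    have h4 : 𝔓₀.valuation L ((6 * a : ℤ) * θ ^ 2 - ((9 * b : ℤ) : L) * θ +
        ((4 * a ^ 2 : ℤ) : L)) ≤ 1 := by
      refine (Valuation.map_add _ _ _).trans (max_le ?_ (val_le _ _))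
      refine (Valuation.map_sub _ _ _).trans (max_le ?_ ?_)
      · rw [map_mul, map_pow]
        exact mul_le_one' (val_le _ _) (pow_le_one' (hle _) 2)
      · rw [map_mul]
        exact mul_le_one' (val_le _ _) (hle _)
    calc _ ≤ 𝔓₀.valuation L (3 * θ ^ 2 + (a : L)) * 1 := mul_le_mul' le_rfl h4
      _ < 1 := by rwa [mul_one]
  have hPa : ¬ P ∣ a := by
    intro ha
    have h4 : P ∣ 27 * b ^ 2 := by
      have e : 27 * b ^ 2 = dsc a b - 4 * a ^ 3 := by unfold dsc; ring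
      rw [e]
      exact dvd_sub hPd ((dvd_pow ha (by norm_num)).mul_left _)
    have h5 : P ∣ b := by
      rcases hP.dvd_or_dvd h4 with h5 | h5
      · exfalso
        have e : (27 : ℤ) = 3 ^ 3 := by norm_num
        rw [e] at h5
        exact h3 (hP.dvd_of_dvd_pow h5)
      · exact hP.dvd_of_dvd_pow h5
    have h6 : P * P ∣ dsc a b := by
      unfold dsc
      refine dvd_add ?_ ?_
      · refine Dvd.dvd.mul_left ?_ _
        rw [pow_succ, pow_two]
        exact (mul_dvd_mul ha ha).mul_right _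
      · refine Dvd.dvd.mul_left ?_ _
        rw [pow_two]
        exact mul_dvd_mul h5 h5
    exact hP.not_unit (hsq P h6)
  have hcop : IsCoprime P (2 * a) := by
    rw [hP.irreducible.coprime_iff_not_dvd]
    intro h4
    rcases hP.dvd_or_dvd h4 with h5 | h5
    · exact h2 h5
    · exact hPa h5
  obtain ⟨u, v, huv⟩ := hcop
  -- the root
  set c : ℤ := - (3 * b * v) with hc
  have hc1 : P ∣ 2 * a * c + 3 * b := by
    refine ⟨3 * b * u, ?_⟩
    rw [hc]
    linear_combination (-(3 * b)) * huv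
  have key : ∀ 𝔓 : HeightOneSpectrum O, Ov P 𝔓 → 𝔓.valuation L (3 * θ ^ 2 + (a : L)) < 1 →
      𝔓.valuation L (θ - (c : L)) < 1 := by
    intro 𝔓 h𝔓 hη'
    have h4 : 𝔓.valuation L (((2 * a : ℤ) : L)) = 1 := by
      refine val_eq_of _ _ fun h5 => ?_
      rw [hiff 𝔓 h𝔓] at h5
      rcases hP.dvd_or_dvd h5 with h5 | h5
      · exact h2 h5
      · exact hPa h5
    have h5 : 𝔓.valuation L (((2 * a : ℤ) : L) * (θ - (c : L))) < 1 := by
      have e : ((2 * a : ℤ) : L) * (θ - (c : L)) = -(θ * (3 * θ ^ 2 + (a : L))) -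
          ((2 * a * c + 3 * b : ℤ) : L) := by
        push_cast
        linear_combination (3 : L) * hroot
      rw [e]
      refine lt_of_le_of_lt (Valuation.map_sub _ _ _) (max_lt ?_ ?_)
      · rw [Valuation.map_neg, map_mul]
        calc _ ≤ 1 * 𝔓.valuation L (3 * θ ^ 2 + (a : L)) := mul_le_mul' (hle _) le_rfl
          _ < 1 := by rwa [one_mul]
      · rw [← ov_val, hiff 𝔓 h𝔓]
        exact hc1
    rwa [map_mul, h4, one_mul] at h5
  refine ⟨⟨c, key 𝔓₀ hov hη⟩, fun 𝔓 h𝔓 hne => ?_⟩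
  by_contra hcon
  have hη' := lt_of_le_of_ne (eta_val h 𝔓) hcon
  apply hne
  obtain ⟨t, ht, -⟩ := exists_theta (O := O) h
  have hmem : ∀ 𝔮 : HeightOneSpectrum O, 𝔮.valuation L (θ - (c : L)) < 1 →
      t - (c : O) ∈ 𝔮.asIdeal := by
    intro 𝔮 h𝔮
    rw [← HeightOneSpectrum.valuation_lt_one_iff_mem (K := L)]
    change 𝔮.valuation L (algebraMap O L (t - (c : O))) < 1
    rw [map_sub, map_intCast, ht]
    exact h𝔮
  have m1 := hmem 𝔓 (key 𝔓 h𝔓 hη')
  have m2 := hmem 𝔓₀ (key 𝔓₀ hov hη)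
  have hle' : 𝔓.asIdeal ≤ 𝔓₀.asIdeal := by
    intro x hx
    obtain ⟨v, hv⟩ := (hI L a b θ h hsq _).mp (isInt (L := L) x)
    have e : x = (t - (c : O)) * ((v 1 : O) + (v 2 : O) * (t + (c : O))) +
        ((v 0 + v 1 * c + v 2 * c ^ 2 : ℤ) : O) := by
      apply IsFractionRing.injective O L
      simp only [crd_iff, algebraMap_int_eq, eq_intCast] at hv
      push_cast
      simp only [map_add, map_mul, map_sub, map_pow, map_intCast, ht, hv]
      ring
    have h6 : Ov (v 0 + v 1 * c + v 2 * c ^ 2) 𝔓 := by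
      unfold Ov
      have e2 : ((v 0 + v 1 * c + v 2 * c ^ 2 : ℤ) : O) =
          x - (t - (c : O)) * ((v 1 : O) + (v 2 : O) * (t + (c : O))) := by
        rw [eq_sub_iff_add_eq, add_comm]
        exact e.symm
      rw [e2]
      exact 𝔓.asIdeal.sub_mem hx (Ideal.mul_mem_right _ _ m1)
    rw [hiff 𝔓 h𝔓, ← hiff 𝔓₀ hov] at h6
    rw [e]
    exact 𝔓₀.asIdeal.add_mem (Ideal.mul_mem_right _ _ m2) h6
  exact HeightOneSpectrum.ext (𝔓.isMaximal.eq_of_le 𝔓₀.isPrime.ne_top hle')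

/-- Parity at a prime of degree one. -/
theorem par1 (hI : S_INT) (h : IsCub a b θ) (hsq : Squarefree (dsc a b)) {P : ℤ} (hP : Prime P)
    (𝔓₀ : HeightOneSpectrum O) (c : ℤ) (hov : Ov P 𝔓₀)
    (hc : 𝔓₀.valuation L (θ - (c : L)) < 1) {x : L} (hx : x ≠ 0)
    (hn : IsSquare (Algebra.norm ℚ x))
    (hoth : ∀ 𝔓 : HeightOneSpectrum O, Ov P 𝔓 → 𝔓 ≠ 𝔓₀ → Ev 𝔓 x) : Ev 𝔓₀ x := by
  obtain ⟨t, ht, htr⟩ := exists_theta (O := O) h
  have hfin : Module.Finite ℤ O := fin_O hI h hsq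
  have htf : Module.IsTorsionFree ℤ O := tf_O (L := L)
  refine parity h hP 𝔓₀ hov ?_ hx hn fun 𝔓 h1 h2 => Or.inl (hoth 𝔓 h1 h2)
  rw [cn_deg_one h hsq hP hov ht (c := c)]
  · exact odd_one
  · rw [← HeightOneSpectrum.valuation_lt_one_iff_mem (K := L)]
    change 𝔓₀.valuation L (algebraMap O L (t - algebraMap ℤ O c)) < 1
    rw [map_sub, ht, algebraMap_int_eq, eq_intCast, map_intCast]
    exact hc

theorem cn_deg_two' (hI : S_INT) [Module.Finite ℤ O] [Module.IsTorsionFree ℤ O]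
    (h : IsCub a b θ)
    (hsq : Squarefree (dsc a b)) {Q : ℤ} (hQ : Prime Q) (hQb : Q ∣ b)
    (hns : ∀ z : ℤ, ¬ Q ∣ z ^ 2 + a) {t : O} (ht : algebraMap O L t = θ)
    (htr : t ^ 3 + algebraMap ℤ O a * t + algebraMap ℤ O b = 0) :
    cn ℤ (Ideal.span {Q}) (J2 Q a t) = 2 := by
  have hQ0 : algebraMap ℤ O Q ≠ 0 := by
    intro h0
    exact hQ.ne_zero (algO_inj (L := L) (by rw [h0, map_zero]))
  have hb1 : (J1 Q t : Ideal O) ≠ ⊥ := fun h0 => hQ0 (by
    have := Q_mem_J1 (O := O) Q t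
    rwa [h0, Ideal.mem_bot] at this)
  have hb2 : (J2 Q a t : Ideal O) ≠ ⊥ := fun h0 => hQ0 (by
    have := Q_mem_J2 (O := O) Q a t
    rwa [h0, Ideal.mem_bot] at this)
  have hm1 := J1_max (L := L) hI h hsq hQ hQb ht
  let 𝔓₁ : HeightOneSpectrum O := ⟨J1 Q t, hm1.isPrime, hb1⟩
  have ov1 : Ov Q 𝔓₁ := Q_mem_J1 Q t
  have h1 : cn ℤ (Ideal.span {Q}) (J1 Q t) = 1 := by
    have := cn_deg_one (𝔓 := 𝔓₁) (c := 0) h hsq hQ ov1 ht (by
      rw [map_zero, sub_zero]
      exact t_mem_J1 Q t)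
    exact this
  have h2 := cn_prod (R := ℤ) (Ideal.span {Q}) ({J1 Q t, J2 Q a t} : Multiset (Ideal O)) (by
    intro I hI'
    simp only [Multiset.insert_eq_cons, Multiset.mem_cons, Multiset.mem_singleton] at hI'
    rcases hI' with rfl | rfl
    · exact hb1
    · exact hb2)
  have h3 : cn ℤ (Ideal.span {Q}) (Ideal.span {algebraMap ℤ O Q} : Ideal O) = 3 := by
    have hcr : Crd θ ![Q, 0, 0] (algebraMap O L (algebraMap ℤ O Q)) := by
      simp only [crd_iff]
      simp [← IsScalarTower.algebraMap_apply ℤ O L]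
    have hn : Algebra.intNorm ℤ O (algebraMap ℤ O Q) = Q ^ 3 := by
      rw [intNorm_crd h hcr]
      simp only [dn, Matrix.cons_val_zero, Matrix.cons_val_one, Matrix.cons_val]
      ring
    have hirr : Irreducible (Ideal.span {Q} : Ideal ℤ) :=
      (Ideal.prime_of_isPrime (by simpa using hQ.ne_zero)
        ((Ideal.span_singleton_prime hQ.ne_zero).mpr hQ)).irreducible
    unfold cn
    rw [Ideal.relNorm_singleton, hn, ← Ideal.span_singleton_pow, normalizedFactors_pow,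
      Multiset.count_nsmul, normalizedFactors_irreducible hirr, normalize_eq,
      Multiset.count_singleton_self]
  have h4 : ({J1 Q t, J2 Q a t} : Multiset (Ideal O)).prod = J1 Q t * J2 Q a t := by simp
  rw [h4, J1_mul_J2_eq (L := L) hI h hsq hQ hQb hns ht htr, h3] at h2
  simp only [Multiset.insert_eq_cons, Multiset.map_cons, Multiset.map_singleton,
    Multiset.sum_cons, Multiset.sum_singleton, h1] at h2
  omega

/-- Parity at the small prime over `Q`. -/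
theorem parq' (hI : S_INT) (h : IsCub a b θ) (hsq : Squarefree (dsc a b)) {Q : ℤ} (hQ : Prime Q)
    (hQb : Q ∣ b) (hns : ∀ z : ℤ, ¬ Q ∣ z ^ 2 + a) (𝔓₀ : HeightOneSpectrum O) (hov : Ov Q 𝔓₀)
    (hc : 𝔓₀.valuation L θ < 1) {x : L} (hx : x ≠ 0)
    (hn : IsSquare (Algebra.norm ℚ x)) : Ev 𝔓₀ x := by
  obtain ⟨t, ht, htr⟩ := exists_theta (O := O) h
  have hfin : Module.Finite ℤ O := fin_O hI h hsq
  have htf : Module.IsTorsionFree ℤ O := tf_O (L := L)
  have ht0 : t ∈ 𝔓₀.asIdeal := by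
    rw [← HeightOneSpectrum.valuation_lt_one_iff_mem (K := L)]
    change 𝔓₀.valuation L (algebraMap O L t) < 1
    rw [ht]
    exact hc
  have h0 : 𝔓₀.asIdeal = J1 Q t := by
    rcases eq_J hI h hsq hQ hQb hns ht htr hov with h1 | h1
    · exact h1.2
    · exact absurd ht0 h1.1
  refine parity h hQ 𝔓₀ hov ?_ hx hn fun 𝔓 h1 h2 => Or.inr ?_
  · rw [cn_deg_one h hsq hQ hov ht (c := 0) (by rw [map_zero, sub_zero]; exact ht0)]
    exact odd_one
  · rcases eq_J hI h hsq hQ hQb hns ht htr h1 with h3 | h3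
    · exact absurd (HeightOneSpectrum.ext (h3.2.trans h0.symm)) h2
    · rw [h3.2, cn_deg_two' hI h hsq hQ hQb hns ht htr]
      exact even_two

end ram

end Run7.h23
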