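import Pool.Agent.Run7.h23.Tp

/-!
# The 2-Selmer groups over an arbitrary 2-extension

Adapted from `Pool.Agent.Run7.h23.Sel`.
-/

set_option autoImplicit false
set_option linter.all false

open Polynomial IsDedekindDomain WeierstrassCurve WeierstrassCurve.Affine NumberField
open Pool.Agent.TH115.GD
open scoped Classical IntermediateField

namespace Run7.h23

open Pool.Agent.N922.PQ
open Pool.Agent.N874.PP (Tup chA chB gq tau Two Ev Sq1 U0 sW IsBeta Rt)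
open Pool.Agent.N874.PM (PLoc Lies SelR ShaR)

/-- The conditions on the extension `M`, for the polynomial `X ^ 3 + a X + b`. -/
structure Mok (M R : Type) [Field M] [CommRing R] [IsDedekindDomain R] [Algebra R M]
    [IsFractionRing R M] (S T : Finset ℤ) (a b : ℤ) : Prop where
  two : ∀ w : HeightOneSpectrum R, Ov 2 w → w.valuation M 2 = WithZero.exp (-1 : ℤ)
  sun : ∀ Q ∈ S, ∀ w : HeightOneSpectrum R, Ov Q w →
    w.valuation M (Q : M) = WithZero.exp (-1 : ℤ)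
  sres : ∀ Q ∈ S, ∀ w : HeightOneSpectrum R, Ov Q w → ∀ y : R, y ^ (Q.toNat ^ 2) - y ∈ w.asIdeal
  ram : ∀ P : ℤ, IsPr P → P ∉ T → (∃ w : HeightOneSpectrum R, Ov P w ∧
    w.valuation M (P : M) ≠ WithZero.exp (-1 : ℤ)) → ∀ z : ℤ, ¬ P ∣ z ^ 3 + a * z + b

section abs

variable {L M Ω : Type} (O O' R : Type) [Field L] [NumberField L] [Field M] [NumberField M]
  [Field Ω] [NumberField Ω] [Algebra L Ω] [Algebra M Ω]
  [CommRing O] [IsDedekindDomain O] [Algebra O L] [IsFractionRing O L] [IsIntegralClosure O ℤ L]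
  [CommRing O'] [IsDedekindDomain O'] [Algebra O' Ω] [IsFractionRing O' Ω]
  [IsIntegralClosure O' ℤ Ω]
  [CommRing R] [IsDedekindDomain R] [Algebra R M] [IsFractionRing R M] [IsIntegralClosure R ℤ M]

/-- The density at the primes in `J`. -/
theorem sp_all {a b : ℤ} {θ : L} (hc : IsCub a b θ) (htop : M⟮algebraMap L Ω θ⟯ = ⊤) {Q : ℤ}
    (hQ : IsPr Q) (hQ2 : ¬ Q ∣ 2) (hQb : Q ∣ b) (hns : ∀ z : ℤ, ¬ Q ∣ z ^ 2 + a)
    (hun : ∀ w : HeightOneSpectrum R, Ov Q w → w.valuation M (Q : M) = WithZero.exp (-1 : ℤ))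
    (hres : ∀ w : HeightOneSpectrum R, Ov Q w → ∀ y : R, y ^ (Q.toNat ^ 2) - y ∈ w.asIdeal)
    (𝔓 : HeightOneSpectrum O) (h1 : Ov Q 𝔓) (h2 : 𝔓.valuation L θ = 1) :
    ∃ 𝔓' : HeightOneSpectrum O',
      (∀ x : L, 𝔓'.valuation Ω (algebraMap L Ω x) = 𝔓.valuation L x) ∧
      ∀ s : Ω, s ≠ 0 → ∃ s₀ : L, 𝔓'.valuation Ω (s - algebraMap L Ω s₀) < 𝔓'.valuation Ω s := by
  haveI : Algebra.IsIntegral ℤ R := IsIntegralClosure.isIntegral_algebra ℤ M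
  haveI : FiniteDimensional M Ω := Module.Finite.of_restrictScalars_finite ℚ M Ω
  obtain ⟨f1, f2⟩ := q_facts O hc.root hQ hQ2 hQb hns 𝔓 h1 h2
  obtain ⟨𝔓', hv, w, hw, hwQ⟩ := up_prime' O O' R hc htop hQ.2 hun 𝔓 h1 f2
  refine ⟨𝔓', hv, ?_⟩
  obtain ⟨q, rfl⟩ : ∃ q : ℕ, Q = (q : ℤ) := ⟨Q.toNat, (Int.toNat_of_nonneg hQ.1.le).symm⟩
  have hq : q.Prime := Nat.prime_iff_prime_int.2 hQ.2
  have hwq : w.valuation M (q : M) = WithZero.exp (-1 : ℤ) := by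
    have := hun w hwQ
    rwa [Int.cast_natCast] at this
  have hres' := hres w hwQ
  rw [Int.toNat_natCast] at hres'
  have hint : IsIntegral ℤ θ := by
    refine ⟨fz a b, fz_monic a b, ?_⟩
    rw [← aeval_def]
    exact fz_root hc.root
  have hθa : 𝔓'.valuation Ω ((algebraMap L Ω θ) ^ 2 + (a : Ω)) < 1 := by
    have e : (algebraMap L Ω θ) ^ 2 + (a : Ω) = algebraMap L Ω (θ ^ 2 + (a : L)) := by
      rw [map_add, map_pow, map_intCast]
    rw [e, hv]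
    exact f1
  refine dn4 O' htop 𝔓' (by rw [hv, h2]) fun m ε hε => ?_
  exact dn3 O' R 𝔓' w hw hwq (fun k m hm => dn2 O' R hq 𝔓' w hw hwq hres'
    (fun m hm => dn1 O' R hq hns hint 𝔓' w hw hwq hres' hθa m hm) k m hm) m hε

variable [IsGalois ℚ M]

include Ω O O' in
theorem selR_abs3 (hI : S_INT) (H : Parts2) {a b : ℤ} {θ : L} {X' : ℕ}
    {S T : Finset ℤ} {s A B : ℤ → ℤ} (hc : IsCub a b θ) (hS : GoodS S s)
    (hF : Fam X' S s T A B a b) (ha : a % 4 = 3) (hb : b % 4 = 3)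
    (hT : GoodT T A B) (hMok : Mok M R S T a b)
    {n : ℕ} (hM : Module.finrank ℚ M = 2 ^ n) (hΩ : Module.finrank M Ω = 3)
    (htop : M⟮algebraMap L Ω θ⟯ = ⊤)
    {J : Finset ℤ} (hJ : J ⊆ S) (hsel : Kil O J a b θ) {e : ℤ} (he : e ≠ 0) (hbd : ¬ Bd e)
    (hadm : Adm T a b e) :
    SelR R (sW (((a * ((∏ Q ∈ J, Q) * e) ^ 2 : ℤ)) : M) (((b * ((∏ Q ∈ J, Q) * e) ^ 3 : ℤ)) : M)) := by
  have hao : Odd a := by rw [Int.odd_iff]; omega
  have hbo : Odd b := by rw [Int.odd_iff]; omega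
  have h6M : (6 : M) ≠ 0 := by norm_num
  have h2K : (2 : ℚ) ≠ 0 := by norm_num
  haveI : Algebra.IsIntegral ℤ R := IsIntegralClosure.isIntegral_algebra ℤ M
  haveI : Algebra.IsIntegral ℤ O' := IsIntegralClosure.isIntegral_algebra ℤ Ω
  haveI : Algebra.IsIntegral ℤ O := IsIntegralClosure.isIntegral_algebra ℤ L
  haveI : CharZero R := charZero_of R M
  haveI : CharZero O' := charZero_of O' Ω
  haveI : CharZero O := charZero_of O L
  -- the primes without conditions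
  obtain ⟨T', hT'd⟩ : ∃ T' : Set ℤ, T' = {P : ℤ | IsPr P ∧ (P ∈ T ∨ P ∣ e ∨
    ∃ w : HeightOneSpectrum R, Ov P w ∧ w.valuation M (P : M) ≠ WithZero.exp (-1 : ℤ))} := ⟨_, rfl⟩
  have hT' : ∀ P ∈ T', IsPr P := by
    intro P hP
    rw [hT'd] at hP
    exact hP.1
  have hTT : ∀ P ∈ T, P ∈ T' := by
    intro P hP
    rw [hT'd]
    exact ⟨(hT.2.2 P hP).1, Or.inl hP⟩
  have heT : ∀ P : ℤ, IsPr P → P ∣ e → P ∈ T' := by
    intro P hP hPe
    rw [hT'd]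
    exact ⟨hP, Or.inr (Or.inl hPe)⟩
  have hun : ∀ P : ℤ, IsPr P → P ∉ T' → ∀ w : HeightOneSpectrum R, Ov P w →
      w.valuation M (P : M) = WithZero.exp (-1 : ℤ) := by
    intro P hP hPT w hw
    by_contra hne
    apply hPT
    rw [hT'd]
    exact ⟨hP, Or.inr (Or.inr ⟨w, hw, hne⟩)⟩
  have hnoz : ∀ P ∈ T', ∀ z : ℤ, ¬ P ∣ z ^ 3 + a * z + b := by
    intro P hP
    have hP1 := hT' P hP
    rw [hT'd] at hP
    rcases hP.2 with h | h | h
    · exact fam_nt hT hF h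
    · rcases hadm P hP1 h with h' | h'
      · exact fam_nt hT hF h'
      · exact h'
    · by_cases h' : P ∈ T
      · exact fam_nt hT hF h'
      · exact hMok.ram P hP1 h' h
  have hdis' : ∀ Q ∈ S, Q ∉ T' := by
    intro Q hQ hQT
    apply hnoz Q hQT 0
    have e0 : (0 : ℤ) ^ 3 + a * 0 + b = b := by ring
    rw [e0]
    exact hF.rb Q hQ
  have hJ' : ∀ Q ∈ J, IsPr Q ∧ Q ∉ T' ∧ Q ∣ b ∧ ∀ z : ℤ, ¬ Q ∣ z ^ 2 + a := fun Q hQ =>
    ⟨(hS Q (hJ hQ)).1, hdis' Q (hJ hQ), hF.rb Q (hJ hQ), fam_ns hS hF (hJ hQ)⟩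
  have hJ2 : ∀ Q ∈ J, ¬ Q ∣ 2 := fun Q hQ =>
    not_dvd_two (hS Q (hJ hQ)).2.1 (hS Q (hJ hQ)).1.1 (hS Q (hJ hQ)).1.2
  have hnr : ∀ w : HeightOneSpectrum R, Ov 2 w → ∀ t : w.adicCompletion M,
      t ^ 3 + (a : w.adicCompletion M) * t + (b : w.adicCompletion M) ≠ 0 :=
    fun w hw => H.nr M R n hM w hw a b hao hbo
  have hD1 : 0 < (∏ Q ∈ J, Q) := Finset.prod_pos fun Q hQ => (hS Q (hJ hQ)).1.1
  have hD8 : (∏ Q ∈ J, Q) % 8 = 1 := prod_mod8 fun Q hQ => (hS Q (hJ hQ)).2.1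
  obtain ⟨N, hN⟩ : ∃ N : ℤ, N = (∏ Q ∈ J, Q) * e := ⟨_, rfl⟩
  have hN0 : N ≠ 0 := by rw [hN]; exact mul_ne_zero hD1.ne' he
  have hNb : ¬ Bd N := by rw [hN]; exact not_bd_mul hD8 he hbd
  obtain ⟨w₀, hw₀⟩ := exists_over R
  have hirrD := irr_tw' (F := M) (a := a * N ^ 2) (b := b * N ^ 3)
    (fun t ht => by
      apply no_root_tw' (hnr w₀ hw₀) hN0 (algebraMap M _ t)
      have h1 := congrArg (algebraMap M (w₀.adicCompletion M)) ht
      rw [map_zero, map_add, map_add, map_mul, map_pow, map_intCast, map_intCast] at h1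
      exact h1)
  have hdisc : 4 * (((a * N ^ 2 : ℤ)) : M) ^ 3 + 27 * (((b * N ^ 3 : ℤ)) : M) ^ 2 ≠ 0 := by
    have e : 4 * (((a * N ^ 2 : ℤ)) : M) ^ 3 + 27 * (((b * N ^ 3 : ℤ)) : M) ^ 2 =
        ((N ^ 6 * dsc a b : ℤ) : M) := by
      simp only [dsc, Int.cast_mul, Int.cast_add, Int.cast_pow, Int.cast_ofNat]
      ring
    rw [e, Int.cast_ne_zero]
    exact mul_ne_zero (pow_ne_zero _ hN0) hF.sq.ne_zero
  have hdsc' : dsc (a * N ^ 2) (b * N ^ 3) ≠ 0 := by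
    intro h0
    apply hdisc
    have h1 : ((dsc (a * N ^ 2) (b * N ^ 3) : ℤ) : M) = 0 := by rw [h0, Int.cast_zero]
    unfold dsc at h1
    push_cast at h1 ⊢
    exact h1
  have hroot : (algebraMap L Ω θ) ^ 3 + (a : Ω) * algebraMap L Ω θ + (b : Ω) = 0 := by
    have h1 := congrArg (algebraMap L Ω) hc.root
    rw [map_zero, map_add, map_add, map_mul, map_pow, map_intCast, map_intCast] at h1
    exact h1
  have htop' : M⟮algebraMap L Ω ((N : L) * θ)⟯ = ⊤ := by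
    have e1 : algebraMap L Ω ((N : L) * θ) = algebraMap M Ω (N : M) * algebraMap L Ω θ := by
      rw [map_mul, map_intCast, map_intCast]
    rw [eq_top_iff, ← htop, IntermediateField.adjoin_simple_le_iff]
    have h1 := IntermediateField.mem_adjoin_simple_self M (algebraMap L Ω ((N : L) * θ))
    have h2 : algebraMap L Ω θ = algebraMap M Ω ((N : M)⁻¹) * algebraMap L Ω ((N : L) * θ) := by
      have hNM : (N : M) ≠ 0 := by exact_mod_cast hN0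
      rw [e1, ← mul_assoc, ← map_mul, inv_mul_cancel₀ hNM, map_one, one_mul]
    rw [h2]
    exact mul_mem (IntermediateField.algebraMap_mem _ _) h1
  rw [← hN]
  intro f hf h2f hloc
  -- the element
  obtain ⟨β, hβ⟩ := H.p.gb M _ _ h6M hdisc hirrD f hf h2f
  obtain ⟨h, hh, hn⟩ := H.p.gn M _ _ h6M hdisc hirrD f hf h2f β hβ
  have hRt : Rt (((a * N ^ 2 : ℤ)) : M) (((b * N ^ 3 : ℤ)) : M)
      ((N : Ω) * algebraMap L Ω θ) := by
    unfold Rt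
    rw [map_intCast, map_intCast]
    simp only [Int.cast_mul, Int.cast_pow]
    linear_combination (N : Ω) ^ 3 * hroot
  have hn2 := hn Ω _ hRt hΩ
  have hmin : minpoly M (algebraMap L Ω ((N : L) * θ)) = ff M (a * N ^ 2) (b * N ^ 3) := by
    haveI : FiniteDimensional M Ω := FiniteDimensional.of_finrank_pos (by rw [hΩ]; norm_num)
    exact (minpoly.eq_of_irreducible_of_monic hirrD (by
      have h1 := hRt
      unfold Rt at h1
      rw [map_intCast, map_intCast] at h1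
      simp only [map_add, map_mul, map_pow, aeval_X, aeval_C, map_intCast]
      exact h1) (ff_monic M _ _)).symm
  have hcnd := cn2_top O' R H.p.lie H.p.loc1 hc hF.sq htop hJ' hT' (hTT 2 hT.1) (hTT 3 hT.2.1) hun
    heT (h := h)
    (fun w hw => by
      rw [← hN]
      exact H.p.glr M R _ _ h6M hdisc f hf h2f β h hβ hh w (val_two hw) (hloc w))
    (by rw [← hN]; exact hn2.1)
  rw [← hN] at hcnd
  have hc2 := c2w_of R (N := N) hmin h (fun w hw =>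
    H.p.glr2 M R _ _ h6M hdisc f hf h2f β h hβ hh w (fun t ht => by
      apply no_root_tw' (hnr w hw) hN0 t
      rw [map_intCast, map_intCast] at ht
      exact ht) (hloc w))
  have e1 : algebraMap L Ω ((N : L) * θ) = (N : Ω) * algebraMap L Ω θ := by
    rw [map_mul, map_intCast]
  obtain ⟨c1, c2, c3⟩ := H.c2w L M Ω R (a * N ^ 2) (b * N ^ 3) ((N : L) * θ) hdsc'
    (fun w hw t => by
      exact no_root_tw' (hnr w hw) hN0 t) (cub_mul hc hN0) hΩ htop'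
  have hsq := H.p.tow n ℚ L M Ω h2K hM hc.rank hΩ
    (fun x => Cn2 O' J T' (algebraMap L Ω θ) (algebraMap L Ω (3 * θ ^ 2 + (a : L))) x ∧
      C2w M R (a * N ^ 2) (b * N ^ 3) (algebraMap L Ω ((N : L) * θ)) x)
    (fun x hx => ⟨cn2_sq hx, c1 x⟩)
    (fun x y hx hy h h' => ⟨cn2_mul H.p.cls (fun Q hQ => ⟨(hJ' Q hQ).1.2, hJ2 Q hQ⟩)
      (fun Q hQ 𝔓 h1 h2 => odd2 O' R H.p.lie hc htop (hJ' Q hQ).1 (hJ2 Q hQ) (hJ' Q hQ).2.2.1
        (hJ' Q hQ).2.2.2 (hun Q (hJ' Q hQ).1 (hJ' Q hQ).2.1) 𝔓 h1 h2)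
      hx hy h.1 h'.1, c2 x y h.2 h'.2⟩)
    (fun σ x h => ⟨cn2_sig H.p.sig rfl rfl σ h.1, c3 σ x h.2⟩)
    (fun x hx hC hN' => base2 O O' hI hc hF.sq hsel
      (fun Q hQ => ⟨(hJ' Q hQ).1, (hJ' Q hQ).2.2.1, (hJ' Q hQ).2.2.2⟩) hT' (hTT 2 hT.1)
      (hTT 3 hT.2.1)
      (fun P hP hPT 𝔓 h1 h2 => by
        obtain ⟨𝔓', hv, -⟩ := up_prime' O O' R hc htop hP.2 (hun P hP hPT) 𝔓 h1 h2
        exact ⟨𝔓', hv⟩)
      (fun Q hQ 𝔓 h1 h2 => sp_all O O' R hc htop (hJ' Q hQ).1 (hJ2 Q hQ) (hJ' Q hQ).2.2.1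
        (hJ' Q hQ).2.2.2 (hun Q (hJ' Q hQ).1 (hJ' Q hQ).2.1) (hMok.sres Q (hJ hQ)) 𝔓 h1 h2)
      (fun P hP => H.p.p3 L O a b θ hc hF.sq P (hT' P hP).2 (hnoz P hP))
      hx hC.1
      (base_tw R hc ha hb hM hMok.two hN0 hNb hx hN' hC.2) hN')
    _ hn2.1 ⟨hcnd, by rw [e1] at hc2 ⊢; exact hc2⟩ hn2.2
  exact H.p.gt M _ _ h6M hdisc hirrD f hf h2f β h hβ hh _ _ hRt hΩ hsq

end abs

end Run7.h23
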