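import Pool.Agent.N137.PV.Tor
import Pool.Agent.Run7.h23.Sel

/-!
# The twists have no points of odd order
-/

set_option autoImplicit false
set_option linter.all false

open Polynomial IsDedekindDomain WeierstrassCurve WeierstrassCurve.Affine NumberField
open Pool.Agent.TH115.GD
open scoped Classical

namespace Run7.h23

open Pool.Agent.N922.PQ
open Pool.Agent.N874.PP (sW)
open Pool.Agent.N137.PV

section val

variable {F Γ : Type} [Field F] [CharZero F] [LinearOrderedCommGroupWithZero Γ] (v : Valuation F Γ)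

open Pool.Agent.N323.PV (int_le odd_one half)

/-- `3 + 4 m` is not a square. -/
theorem three_not_sq (hv2 : v 2 < 1) (hv : ∀ x : F, v x < 1 → v x ≤ v 2) {u m : F} (hm : v m ≤ 1)
    (h : u ^ 2 = 3 + 4 * m) : False := by
  have h2 : (2 : F) ≠ 0 := two_ne_zero
  have hp : 0 < v (2 : F) := (Valuation.pos_iff v).2 h2
  have hm2 : v (1 + 2 * m) = 1 := by
    have h1 : v (2 * m) < 1 := by
      rw [map_mul]
      exact mul_lt_one_of_nonneg_of_lt_one_left zero_le' hv2 hm
    exact Valuation.map_one_add_of_lt v h1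
  have e1 : (u - 1) * (u + 1) = 2 * (1 + 2 * m) := by linear_combination h
  have h3 : v (u - 1) * v (u + 1) = v 2 := by
    rw [← map_mul, e1, map_mul, hm2, mul_one]
  rcases lt_or_ge (v (u - 1)) 1 with h4 | h4
  · have h5 := hv _ h4
    have h6 : v (u + 1) ≤ v 2 := by
      have e2 : u + 1 = (u - 1) + 2 := by ring
      rw [e2]
      exact (v.map_add _ _).trans (max_le h5 le_rfl)
    have h7 : v (u - 1) * v (u + 1) ≤ v 2 * v 2 := mul_le_mul' h5 h6
    have h8 : v 2 * v 2 < v (2 : F) := by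
      calc v 2 * v 2 < 1 * v (2 : F) := mul_lt_mul_of_pos_right hv2 hp
        _ = v 2 := one_mul _
    rw [h3] at h7
    exact absurd h8 (not_lt.2 h7)
  · have h6 : v (u + 1) = v (u - 1) := by
      have e2 : u + 1 = (u - 1) + 2 := by ring
      rw [e2]
      exact Valuation.map_add_eq_of_lt_left v (lt_of_lt_of_le hv2 h4)
    rw [h6] at h3
    have h7 : 1 ≤ v (u - 1) * v (u - 1) := by
      calc (1 : Γ) = 1 * 1 := (mul_one 1).symm
        _ ≤ _ := mul_le_mul' h4 h4
    rw [h3] at h7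
    exact absurd hv2 (not_lt.2 h7)

/-- An even number times a unit is not a square. -/
theorem even_not_sq (hv2 : v 2 < 1) (hv : ∀ x : F, v x < 1 → v x ≤ v 2) {u c : F} (hc : v c = 1)
    (h : u ^ 2 = 2 * c) : False := by
  have hp : 0 < v (2 : F) := (Valuation.pos_iff v).2 two_ne_zero
  have h5 : v u ^ 2 = v 2 := by
    rw [← map_pow, h, map_mul, hc, mul_one]
  have h6 : v u < 1 := by
    by_contra hc
    rw [not_lt] at hc
    have := one_le_pow₀ (n := 2) hc
    rw [h5] at this
    exact absurd hv2 (not_lt.2 this)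
  have h7 := hv u h6
  have h8 : v u ^ 2 ≤ v 2 * v 2 := by
    rw [sq]
    exact mul_le_mul' h7 h7
  have h9 : v 2 * v 2 < v (2 : F) := by
    calc v 2 * v 2 < 1 * v (2 : F) := mul_lt_mul_of_pos_right hv2 hp
      _ = v 2 := one_mul _
  rw [h5] at h8
  exact absurd h9 (not_lt.2 h8)

/-- Doubling an integral point. -/
theorem dbl1 (hv2 : v 2 < 1) (hv : ∀ x : F, v x < 1 → v x ≤ v 2) {a b : ℤ} (ha : a % 4 = 3)
    (hb : b % 4 = 3) (hnr : ∀ x : F, v x ≤ 1 → v (x ^ 3 + a * x + b) = 1) {N : ℤ} (hN : N ≠ 0)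
    (hNb : ¬ Bd N) {x u ξ : F} (hx : v x ≤ 1) (hu : u ^ 2 = N * (x ^ 3 + a * x + b))
    (hξ : ξ * (4 * (x ^ 3 + a * x + b)) = (x ^ 2 - a) ^ 2 - 8 * b * x) : 1 < v ξ := by
  have h20 : (2 : F) ≠ 0 := two_ne_zero
  have hD := hnr x hx
  obtain ⟨k, e', rfl, he'⟩ : ∃ (k : ℕ) (e' : ℤ), N = 4 ^ k * e' ∧ (e' % 4 = 1 ∨ e' % 4 = 2) := by
    rcases gd_or_bd hN with ⟨k, e', h1, h2⟩ | h
    · exact ⟨k, e', h1, h2⟩
    · exact absurd h hNb
  have h2k : (2 : F) ^ k ≠ 0 := pow_ne_zero _ h20
  have hu' : (u / 2 ^ k) ^ 2 = e' * (x ^ 3 + a * x + b) := by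
    rw [div_pow, hu]
    push_cast
    have h4 : (4 : F) ^ k = (2 ^ k) ^ 2 := by
      rw [← pow_mul, mul_comm k 2, pow_mul]
      norm_num
    rw [h4]
    field_simp
  have h1 : v (x ^ 2 - a) = 1 := by
    refine le_antisymm ?_ (not_lt.1 fun hlt => ?_)
    · refine (v.map_sub _ _).trans (max_le ?_ (int_le v a))
      rw [map_pow]
      exact pow_le_one' hx 2
    · rcases he' with h4 | h4
      · -- `x = 1 + 2 z`
        have ha1 : v ((a : F) - 1) < 1 := by
          obtain ⟨α, hα⟩ : ∃ α : ℤ, a = 3 + 4 * α := ⟨(a - 3) / 4, by omega⟩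
          have e1 : (a : F) - 1 = 2 * ((1 + 2 * α : ℤ) : F) := by
            rw [hα]; push_cast; ring
          rw [e1, map_mul]
          exact mul_lt_one_of_nonneg_of_lt_one_left zero_le' hv2 (int_le v _)
        have hx1 : v (x - 1) < 1 := by
          have h5 : v ((x - 1) ^ 2) < 1 := by
            have e1 : (x - 1) ^ 2 = (x ^ 2 - a) + ((a - 1) - 2 * (x - 1)) := by ring
            rw [e1]
            refine v.map_add_lt hlt (v.map_sub_lt ha1 ?_)
            rw [map_mul]
            refine mul_lt_one_of_nonneg_of_lt_one_left zero_le' hv2 ?_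
            exact (v.map_sub _ _).trans (max_le hx (by rw [map_one]))
          by_contra hc
          rw [not_lt] at hc
          rw [map_pow] at h5
          exact absurd h5 (not_lt.2 (one_le_pow₀ hc))
        obtain ⟨z, hz, hz'⟩ := half v (hv _ hx1)
        obtain ⟨α, hα⟩ : ∃ α : ℤ, a = 3 + 4 * α := ⟨(a - 3) / 4, by omega⟩
        obtain ⟨β, hβ⟩ : ∃ β : ℤ, b = 3 + 4 * β := ⟨(b - 3) / 4, by omega⟩
        obtain ⟨m, hm⟩ : ∃ m : ℤ, e' = 1 + 4 * m := ⟨(e' - 1) / 4, by omega⟩
        let z' : v.integer := ⟨z, hz⟩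
        let q : v.integer := 1 + 3 * z' + 3 * z' ^ 2 + 2 * z' ^ 3 + (α : v.integer) +
          2 * (α : v.integer) * z' + (β : v.integer)
        let p : v.integer := (m : v.integer) * (3 + 4 * q) + q
        have hq : (q : F) = 1 + 3 * z + 3 * z ^ 2 + 2 * z ^ 3 + α + 2 * α * z + β := rfl
        have hp : (p : F) = m * (3 + 4 * q) + q := rfl
        refine three_not_sq v hv2 hv (u := u / 2 ^ k) (m := p) p.2 ?_
        rw [hu', hp, hq, hα, hβ, hm]
        have hx2 : x = 1 + 2 * z := by linear_combination hz'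
        rw [hx2]
        push_cast
        ring
      · obtain ⟨m, hm⟩ : ∃ m : ℤ, e' = 2 * (2 * m + 1) := ⟨(e' - 2) / 4, by omega⟩
        refine even_not_sq v hv2 hv (u := u / 2 ^ k) (c := ((2 * m + 1 : ℤ) : F) *
          (x ^ 3 + a * x + b)) ?_ ?_
        · rw [map_mul, hD, mul_one]
          exact odd_one v hv2 ⟨m, rfl⟩
        · rw [hu', hm]
          push_cast
          ring
  have h5 : v ((x ^ 2 - a) ^ 2 - 8 * b * x) = 1 := by
    have h6 : v (8 * b * x) < 1 := by
      have e1 : (8 * b * x : F) = 2 * (4 * b * x) := by ring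
      rw [e1, map_mul]
      refine mul_lt_one_of_nonneg_of_lt_one_left zero_le' hv2 ?_
      have h7 : v ((4 : ℤ) * (b : ℤ) * x : F) ≤ 1 := by
        rw [map_mul, map_mul]
        exact mul_le_one' (mul_le_one' (int_le v 4) (int_le v b)) hx
      simpa using h7
    have h7 : v ((x ^ 2 - a) ^ 2) = 1 := by rw [map_pow, h1, one_pow]
    rw [Valuation.map_sub_eq_of_lt_left v (by rw [h7]; exact h6), h7]
  rw [← hξ, map_mul, map_mul, hD, mul_one] at h5
  have h4 : v (4 : F) < 1 := by
    have e1 : (4 : F) = 2 * 2 := by norm_num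
    rw [e1, map_mul]
    exact mul_lt_one_of_nonneg_of_lt_one_left zero_le' hv2 hv2.le
  by_contra hc
  rw [not_lt] at hc
  have h6 : v ξ * v (4 : F) < 1 := by
    calc v ξ * v (4 : F) ≤ 1 * v (4 : F) := mul_le_mul' hc le_rfl
      _ < 1 := by rw [one_mul]; exact h4
  rw [h5] at h6
  exact lt_irrefl _ h6

/-- Doubling a point which is not integral. -/
theorem dbl2 (hv2 : v 2 < 1) {a b : ℤ} {x ξ : F} (hx : 1 < v x)
    (hξ : ξ * (4 * (x ^ 3 + a * x + b)) = (x ^ 2 - a) ^ 2 - 8 * b * x) : v x < v ξ := by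
  have hvx : 0 < v x := lt_trans zero_lt_one hx
  have hD : v (x ^ 3 + a * x + b) = v x ^ 3 := by
    have k1 : v (a * x + b) < v (x ^ 3) := by
      refine v.map_add_lt ?_ ?_
      · rw [map_mul, map_pow]
        calc v (a : F) * v x ≤ 1 * v x := by
              gcongr
              exact int_le v a
          _ = v x := one_mul _
          _ < v x ^ 3 := by
              have := pow_lt_pow_right₀ hx (show 1 < 3 by norm_num)
              rwa [pow_one] at this
      · rw [map_pow]
        exact lt_of_le_of_lt (int_le v b) (one_lt_pow₀ hx (by norm_num))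
    have k2 := Valuation.map_add_eq_of_lt_left v k1
    rw [add_assoc, k2, map_pow]
  have h1 : v (x ^ 2 - a) = v x ^ 2 := by
    rw [Valuation.map_sub_eq_of_lt_left, map_pow]
    rw [map_pow]
    exact lt_of_le_of_lt (int_le v a) (one_lt_pow₀ hx (by norm_num))
  have h5 : v ((x ^ 2 - a) ^ 2 - 8 * b * x) = v x ^ 4 := by
    have h7 : v ((x ^ 2 - a) ^ 2) = v x ^ 4 := by rw [map_pow, h1, ← pow_mul]
    have h6 : v (8 * b * x) < v x ^ 4 := by
      have h8 : v ((8 : ℤ) * (b : ℤ) * x : F) ≤ v x := by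
        rw [map_mul, map_mul]
        calc v ((8 : ℤ) : F) * v ((b : ℤ) : F) * v x ≤ 1 * 1 * v x := by
              gcongr
              · exact int_le v 8
              · exact int_le v b
          _ = v x := by rw [one_mul, one_mul]
      have h9 : v x < v x ^ 4 := by
        have := pow_lt_pow_right₀ hx (show 1 < 4 by norm_num)
        rwa [pow_one] at this
      refine lt_of_le_of_lt ?_ h9
      simpa using h8
    rw [Valuation.map_sub_eq_of_lt_left v (by rw [h7]; exact h6), h7]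
  rw [← hξ, map_mul, map_mul, hD] at h5
  have h4 : v (4 : F) < 1 := by
    have e1 : (4 : F) = 2 * 2 := by norm_num
    rw [e1, map_mul]
    exact mul_lt_one_of_nonneg_of_lt_one_left zero_le' hv2 hv2.le
  by_contra hc
  rw [not_lt] at hc
  have h6 : v ξ * (v (4 : F) * v x ^ 3) < v x ^ 4 := by
    have hp : 0 < v x ^ 3 := pow_pos hvx 3
    calc v ξ * (v (4 : F) * v x ^ 3) ≤ v x * (v (4 : F) * v x ^ 3) := mul_le_mul' hc le_rfl
      _ < v x * (1 * v x ^ 3) := by
          apply mul_lt_mul_of_pos_left _ hvx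
          exact mul_lt_mul_of_pos_right h4 hp
      _ = v x ^ 4 := by rw [one_mul]; exact (pow_succ' _ _).symm
  rw [h5] at h6
  exact lt_irrefl _ h6

end val

/-- The twists have no points of odd order. -/
theorem tor_tw (M R : Type) [Field M] [NumberField M] [CommRing R] [IsDedekindDomain R]
    [Algebra R M] [IsFractionRing R M] (w : HeightOneSpectrum R)
    (hw : w.valuation M 2 = WithZero.exp (-1 : ℤ)) {a b : ℤ} (ha : a % 4 = 3) (hb : b % 4 = 3)
    (hnr : ∀ x : M, w.valuation M x ≤ 1 → w.valuation M (x ^ 3 + a * x + b) = 1) {N : ℤ}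
    (hN : N ≠ 0) (hNb : ¬ Bd N)
    (hfin : Finite (Pt (sW ((a * N ^ 2 : ℤ) : M) ((b * N ^ 3 : ℤ) : M)) M))
    (hodd : Odd (Nat.card (Pt (sW ((a * N ^ 2 : ℤ) : M) ((b * N ^ 3 : ℤ) : M)) M))) :
    Subsingleton (Pt (sW ((a * N ^ 2 : ℤ) : M) ((b * N ^ 3 : ℤ) : M)) M) := by
  set v := w.valuation M with hv
  have hNM : (N : M) ≠ 0 := by exact_mod_cast hN
  by_contra hsub
  rw [not_subsingleton_iff_nontrivial] at hsub
  -- nonzero points are not of order two
  have htwo : ∀ P : Pt (sW ((a * N ^ 2 : ℤ) : M) ((b * N ^ 3 : ℤ) : M)) M, P ≠ 0 →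
      P + P ≠ 0 := by
    intro P hP h
    have h1 : addOrderOf P ∣ 2 := by
      apply addOrderOf_dvd_of_nsmul_eq_zero
      rw [two_nsmul]; exact h
    have h2 : addOrderOf P ∣ Nat.card (Pt (sW ((a * N ^ 2 : ℤ) : M) ((b * N ^ 3 : ℤ) : M)) M) :=
      addOrderOf_dvd_natCard P
    have h3 : addOrderOf P = 1 := by
      rcases (Nat.dvd_prime Nat.prime_two).1 h1 with h4 | h4
      · exact h4
      · rw [h4] at h2
        exact absurd hodd (by rw [Nat.not_odd_iff_even]; exact (even_iff_two_dvd.2 h2))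
    exact hP (AddMonoid.addOrderOf_eq_one_iff.1 h3)
  -- doubling increases the value
  have key : ∀ P : Pt (sW ((a * N ^ 2 : ℤ) : M) ((b * N ^ 3 : ℤ) : M)) M, P ≠ 0 →
      1 < xv _ _ (fun x => v (x / N)) (P + P) ∧
        xv _ _ (fun x => v (x / N)) P < xv _ _ (fun x => v (x / N)) (P + P) := by
    intro P hP
    match P, hP with
    | .zero, hP => exact absurd rfl hP
    | .some x y h, hP =>
      have hy : y ≠ 0 := by
        rintro rfl
        apply htwo _ hP
        apply Point.add_self_of_Y_eq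
        rw [negY_eq]
        ring
      obtain ⟨D, z, h', hadd, hD⟩ := dup _ _ x y h hy
      rw [hadd]
      have he := eqn _ _ h
      show 1 < v (D / N) ∧ v (x / N) < v (D / N)
      have hA : ((a * N ^ 2 : ℤ) : M) = (a : M) * (N : M) ^ 2 := by push_cast; ring
      have hB : ((b * N ^ 3 : ℤ) : M) = (b : M) * (N : M) ^ 3 := by push_cast; ring
      rw [hA, hB] at he hD
      have hu : (y / N) ^ 2 = N * ((x / N) ^ 3 + a * (x / N) + b) := by
        rw [div_pow, he]
        field_simp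
      have hξ : D / N * (4 * ((x / N) ^ 3 + a * (x / N) + b)) =
          ((x / N) ^ 2 - a) ^ 2 - 8 * b * (x / N) := by
        have h1 : D / N * (4 * ((x / N) ^ 3 + a * (x / N) + b)) = D * (4 * y ^ 2) / (N : M) ^ 4 := by
          rw [he]
          field_simp
        rw [h1, hD]
        field_simp
      rcases le_or_gt (v (x / N)) 1 with hx | hx
      · have := dbl1 v (by
          rw [hv, hw, ← WithZero.exp_zero, WithZero.exp_lt_exp]
          norm_num) (fun z hz => Pool.Agent.N137.PV.lt_one_le v hw hz) ha hb hnr hN hNb hx hu hξ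
        exact ⟨this, lt_of_le_of_lt hx this⟩
      · have := dbl2 v (by
          rw [hv, hw, ← WithZero.exp_zero, WithZero.exp_lt_exp]
          norm_num) (a := a) (b := b) hx hξ
        exact ⟨lt_trans hx this, this⟩
  obtain ⟨Q, hQ⟩ := exists_ne (0 : Pt (sW ((a * N ^ 2 : ℤ) : M) ((b * N ^ 3 : ℤ) : M)) M)
  obtain ⟨P, hP⟩ := Finite.exists_max (xv ((a * N ^ 2 : ℤ) : M) ((b * N ^ 3 : ℤ) : M)
    (fun x => v (x / N)))
  have hP0 : P ≠ 0 := by
    rintro rfl
    have h1 := (key Q hQ).1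
    have h2 := hP (Q + Q)
    have h3 : xv ((a * N ^ 2 : ℤ) : M) ((b * N ^ 3 : ℤ) : M) (fun x => v (x / N)) 0 = 0 := rfl
    rw [h3] at h2
    exact absurd (lt_of_lt_of_le h1 h2) (not_lt.2 zero_le_one)
  exact absurd (key P hP0).2 (not_lt.2 (hP (P + P)))

end Run7.h23
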