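import Pool.Agent.Run7.h23.Cd
import Pool.Agent.Run7.h23.Dns
import Pool.Agent.Run7.h23.Lc

/-!
# The conditions for the element of a Selmer class, over an arbitrary extension

Adapted from `Pool.Agent.N922.PQ.Big3` (helper922).
-/

set_option autoImplicit false
set_option linter.all false

open Polynomial IsDedekindDomain NumberField
open scoped Classical IntermediateField

namespace Run7.h23

open Pool.Agent.N922.PQ
open Pool.Agent.N874.PP (Tup chA chB gq tau Two Ev Sq1 U0)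
open Pool.Agent.N874.PM (PLoc Lies SelR ShaR S_LOC1M S_LOC2M)

/-- Residues. -/
theorem sq_or_int {Q : ℤ} (hQ : IsPr Q) {a : ℤ} (hns : ∀ z : ℤ, ¬ Q ∣ z ^ 2 + a) (c : ℤ) :
    (∃ z : ℤ, Q ∣ z ^ 2 - c) ∨ ∃ z : ℤ, Q ∣ z ^ 2 + a * c := by
  obtain ⟨q, rfl⟩ : ∃ q : ℕ, Q = (q : ℤ) := ⟨Q.toNat, (Int.toNat_of_nonneg hQ.1.le).symm⟩
  haveI : Fact q.Prime := ⟨Nat.prime_iff_prime_int.2 hQ.2⟩
  have hn : ¬ IsSquare ((-a : ℤ) : ZMod q) := by
    rintro ⟨s, hs⟩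
    obtain ⟨z, rfl⟩ := ZMod.intCast_surjective s
    apply hns z
    rw [← ZMod.intCast_zmod_eq_zero_iff_dvd]
    push_cast at hs ⊢
    linear_combination -hs
  rcases Pool.Agent.N704.PP.sq_or hn (u := ((c : ℤ) : ZMod q)) with ⟨r, hr⟩ | ⟨r, hr⟩
  · left
    obtain ⟨z, rfl⟩ := ZMod.intCast_surjective r
    refine ⟨z, ?_⟩
    rw [← ZMod.intCast_zmod_eq_zero_iff_dvd]
    push_cast
    linear_combination -hr
  · right
    obtain ⟨z, rfl⟩ := ZMod.intCast_surjective r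
    refine ⟨z, ?_⟩
    rw [← ZMod.intCast_zmod_eq_zero_iff_dvd]
    push_cast at hr ⊢
    linear_combination -hr

section sq

variable {Ω O' : Type} [Field Ω] [CommRing O'] [IsDedekindDomain O'] [Algebra O' Ω]
  [IsFractionRing O' Ω]

/-- Integers are squares at the primes over `Q` at which `θ` is a unit. -/
theorem int_sq {Q : ℤ} (hQ : IsPr Q) {a : ℤ} (hns : ∀ z : ℤ, ¬ Q ∣ z ^ 2 + a)
    (𝔓 : HeightOneSpectrum O') (hov : Ov Q 𝔓) {θ : Ω} (h1 : 𝔓.valuation Ω θ = 1)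
    (h2 : 𝔓.valuation Ω (θ ^ 2 + (a : Ω)) < 1) (c : ℤ) :
    ∃ s : Ω, 𝔓.valuation Ω (s ^ 2 - (c : Ω)) < 1 := by
  have hd : ∀ z : ℤ, Q ∣ z → 𝔓.valuation Ω (z : Ω) < 1 := by
    rintro z ⟨d, rfl⟩
    rw [← ov_val]
    unfold Ov at hov ⊢
    rw [Int.cast_mul]
    exact Ideal.mul_mem_right _ _ hov
  have hθ : θ ≠ 0 := by
    rintro rfl
    rw [map_zero] at h1
    exact zero_ne_one h1
  rcases sq_or_int hQ hns c with ⟨z, hz⟩ | ⟨z, hz⟩
  · refine ⟨(z : Ω), ?_⟩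
    have h := hd _ hz
    push_cast at h
    exact h
  · refine ⟨(z : Ω) / θ, ?_⟩
    have e : ((z : Ω) / θ) ^ 2 - (c : Ω) =
        (((z ^ 2 + a * c : ℤ) : Ω) - (c : Ω) * (θ ^ 2 + (a : Ω))) / θ ^ 2 := by
      push_cast
      field_simp
      ring
    rw [e, map_div₀, map_pow, h1, one_pow, div_one]
    refine lt_of_le_of_lt (Valuation.map_sub _ _ _) (max_lt (hd _ hz) ?_)
    rw [map_mul]
    calc _ ≤ 1 * 𝔓.valuation Ω (θ ^ 2 + (a : Ω)) := mul_le_mul' (val_le _ _) le_rfl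
      _ < 1 := by rwa [one_mul]

end sq

section top

variable {L M Ω : Type} (O O' R : Type) [Field L] [NumberField L] [Field M] [NumberField M]
  [Field Ω] [NumberField Ω] [Algebra L Ω] [Algebra M Ω]
  [CommRing O] [IsDedekindDomain O] [Algebra O L] [IsFractionRing O L] [IsIntegralClosure O ℤ L]
  [CommRing O'] [IsDedekindDomain O'] [Algebra O' Ω] [IsFractionRing O' Ω]
  [IsIntegralClosure O' ℤ Ω]
  [CommRing R] [IsDedekindDomain R] [Algebra R M] [IsFractionRing R M] [IsIntegralClosure R ℤ M]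

/-- The primes over `Q` at which `θ` is a unit. -/
theorem q_facts {a b : ℤ} {θ : Ω} (hroot : θ ^ 3 + (a : Ω) * θ + (b : Ω) = 0) {Q : ℤ}
    (hQ : IsPr Q) (hQ2 : ¬ Q ∣ 2) (hQb : Q ∣ b) (hns : ∀ z : ℤ, ¬ Q ∣ z ^ 2 + a)
    (𝔓 : HeightOneSpectrum O') (hov : Ov Q 𝔓) (h1 : 𝔓.valuation Ω θ = 1) :
    𝔓.valuation Ω (θ ^ 2 + (a : Ω)) < 1 ∧ 𝔓.valuation Ω (3 * θ ^ 2 + (a : Ω)) = 1 := by
  have hd : ∀ z : ℤ, Q ∣ z → 𝔓.valuation Ω (z : Ω) < 1 := by
    rintro z ⟨d, rfl⟩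
    rw [← ov_val]
    unfold Ov at hov ⊢
    rw [Int.cast_mul]
    exact Ideal.mul_mem_right _ _ hov
  have h2 : 𝔓.valuation Ω (θ ^ 2 + (a : Ω)) < 1 := by
    have e : (θ ^ 2 + (a : Ω)) * θ = - (b : Ω) := by linear_combination hroot
    have h3 := congrArg (𝔓.valuation Ω) e
    rw [map_mul, h1, mul_one, Valuation.map_neg] at h3
    rw [h3]
    exact hd b hQb
  refine ⟨h2, ?_⟩
  have h4 : 𝔓.valuation Ω ((-(2 * a) : ℤ) : Ω) = 1 := by
    refine val_eq_of _ _ fun h => ?_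
    have hnd : ¬ Q ∣ -(2 * a) := by
      intro h5
      rw [dvd_neg] at h5
      rcases hQ.2.dvd_or_dvd h5 with h6 | h6
      · exact hQ2 h6
      · apply hns 0
        simpa using h6
    exact one_mem_of ((hQ.2.irreducible.coprime_iff_not_dvd).2 hnd) hov h
  have e : 3 * θ ^ 2 + (a : Ω) = ((-(2 * a) : ℤ) : Ω) + 3 * (θ ^ 2 + (a : Ω)) := by
    push_cast
    ring
  have h5 : 𝔓.valuation Ω (3 * (θ ^ 2 + (a : Ω))) < 1 := by
    rw [map_mul]
    have h3 : 𝔓.valuation Ω (3 : Ω) ≤ 1 := by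
      have := val_le (L := Ω) 3 𝔓
      exact_mod_cast this
    calc _ ≤ 1 * 𝔓.valuation Ω (θ ^ 2 + (a : Ω)) := mul_le_mul' h3 le_rfl
      _ < 1 := by rwa [one_mul]
  rw [e, Valuation.map_add_eq_of_lt_left _ (by rw [h4]; exact h5), h4]

include R in
/-- `Q θ` has odd valuation. -/
theorem odd2 (hLIE : S_LIE) {a b : ℤ} {θ : L} (hc : IsCub a b θ)
    (htop : M⟮algebraMap L Ω θ⟯ = ⊤) {Q : ℤ} (hQ : IsPr Q)
    (hQ2 : ¬ Q ∣ 2) (hQb : Q ∣ b) (hns : ∀ z : ℤ, ¬ Q ∣ z ^ 2 + a)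
    (hun : ∀ w : HeightOneSpectrum R, Ov Q w → w.valuation M (Q : M) = WithZero.exp (-1 : ℤ))
    (𝔓 : HeightOneSpectrum O') (hov : Ov Q 𝔓)
    (h1 : 𝔓.valuation Ω (algebraMap L Ω θ) = 1) :
    ¬ Ev 𝔓 ((Q : Ω) * algebraMap L Ω θ) := by
  have hroot : (algebraMap L Ω θ) ^ 3 + (a : Ω) * algebraMap L Ω θ + (b : Ω) = 0 := by
    have h1 := congrArg (algebraMap L Ω) hc.root
    rw [map_zero, map_add, map_add, map_mul, map_pow, map_intCast, map_intCast] at h1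
    exact h1
  obtain ⟨h2, h3⟩ := q_facts O' hroot hQ hQ2 hQb hns 𝔓 hov h1
  obtain ⟨w, hw⟩ := over_M O' R hc htop 𝔓 h3
  have hwQ : Ov Q w := by
    rw [ov_val (L := M), ← hw, map_intCast, ← ov_val]
    exact hov
  apply not_ev_exp'
  rw [map_mul, h1, mul_one, ← map_intCast (algebraMap M Ω), hw, hun w hwQ]

theorem cn2_top (hLIE : S_LIE) (hLOC1M : S_LOC1M) {a b : ℤ} {θ : L} {J : Finset ℤ} {T' : Set ℤ}
    (hc : IsCub a b θ) (hsqf : Squarefree (dsc a b))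
    (htop : M⟮algebraMap L Ω θ⟯ = ⊤)
    (hJ : ∀ Q ∈ J, IsPr Q ∧ Q ∉ T' ∧ Q ∣ b ∧ ∀ z : ℤ, ¬ Q ∣ z ^ 2 + a)
    (hT' : ∀ P ∈ T', IsPr P) (h2T : (2 : ℤ) ∈ T') (h3T : (3 : ℤ) ∈ T')
    (hun : ∀ P : ℤ, IsPr P → P ∉ T' → ∀ w : HeightOneSpectrum R, Ov P w →
      w.valuation M (P : M) = WithZero.exp (-1 : ℤ))
    {e : ℤ} (heT : ∀ P : ℤ, IsPr P → P ∣ e → P ∈ T') {h : M[X]}
    (hloc : ∀ w : HeightOneSpectrum R, ¬ Ov 2 w → PLoc (w.adicCompletion M)
      (((a * ((∏ Q ∈ J, Q) * e) ^ 2 : ℤ)) : M) (((b * ((∏ Q ∈ J, Q) * e) ^ 3 : ℤ)) : M) h)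
    (h0 : aeval ((((∏ Q ∈ J, Q) * e : ℤ) : Ω) * algebraMap L Ω θ) h ≠ 0) :
    Cn2 O' J T' (algebraMap L Ω θ) (algebraMap L Ω (3 * θ ^ 2 + (a : L)))
      (aeval ((((∏ Q ∈ J, Q) * e : ℤ) : Ω) * algebraMap L Ω θ) h) := by
  haveI : Algebra.IsIntegral ℤ R := IsIntegralClosure.isIntegral_algebra ℤ M
  haveI : Algebra.IsIntegral ℤ O' := IsIntegralClosure.isIntegral_algebra ℤ Ω
  haveI : CharZero R := charZero_of R M
  haveI : CharZero O' := charZero_of O' Ω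
  have hroot0 : (algebraMap L Ω θ) ^ 3 + (a : Ω) * algebraMap L Ω θ + (b : Ω) = 0 := by
    have h1 := congrArg (algebraMap L Ω) hc.root
    rw [map_zero, map_add, map_add, map_mul, map_pow, map_intCast, map_intCast] at h1
    exact h1
  have hroot : (algebraMap L Ω θ) ^ 3 + algebraMap M Ω (a : M) * algebraMap L Ω θ +
      algebraMap M Ω (b : M) = 0 := by
    rw [map_intCast, map_intCast]
    exact hroot0
  have not2 : ∀ P : ℤ, IsPr P → P ∉ T' → ¬ P ∣ 2 := by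
    intro P hP hPT h
    have h4 := Pool.Agent.N707.PQ.pr_eq hP.1 hP.2 ⟨by norm_num, Int.prime_two⟩ h
    exact hPT (h4 ▸ h2T)
  -- the primes below
  have hnot : ∀ P : ℤ, IsPr P → P ∉ T' → ∀ w : HeightOneSpectrum R, Ov P w →
      ∀ P' ∈ T', ¬ Ov P' w := by
    intro P hP hPT w hw P' hP' h
    have := below_unique (hT' P' hP') hP h hw
    exact hPT (this ▸ hP')
  have hew : ∀ w : HeightOneSpectrum R, (∀ P ∈ T', ¬ Ov P w) → ¬ Ov e w := by
    intro w hw h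
    obtain ⟨P, hP1, hP3⟩ := exists_below w
    by_cases hPe : P ∣ e
    · exact hw P (heT P hP1 hPe) hP3
    · exact one_mem_of ((hP1.2.irreducible.coprime_iff_not_dvd).2 hPe) hP3 h
  refine ⟨fun 𝔓 h1 h2 _ => ?_, fun Q hQ 𝔓 h𝔓 hθ1 => ?_⟩
  · obtain ⟨w, hw, hO⟩ := hLIE M Ω R O' 𝔓
    have hnT : ∀ P ∈ T', ¬ Ov P w := fun P hP h => h1 P hP ((hO P).1 h)
    have hew' := hew w hnT
    have hD : w.valuation M ((((∏ Q ∈ J, Q) * e : ℤ)) : M) = 1 := by
      refine val_eq_of _ w fun h => ?_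
      rcases ov_mul h with h | h
      · obtain ⟨Q, hQ, h'⟩ := ov_prod h
        exact h2 Q hQ ((hO Q).1 h')
      · exact hew' h
    -- the prime below `w`
    obtain ⟨P, hP, hPw⟩ := exists_below w
    have hPT : P ∉ T' := fun h => hnT P h hPw
    have hPv := hun P hP hPT w hPw
    have hdisc : WithZero.exp (-1 : ℤ) ≤ w.valuation M (4 * (a : M) ^ 3 +
        27 * (b : M) ^ 2) := by
      have e1 : 4 * (a : M) ^ 3 + 27 * (b : M) ^ 2 = ((dsc a b : ℤ) : M) := by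
        simp [dsc]
      rw [e1]
      by_cases hd : P ∣ dsc a b
      · obtain ⟨d, hd'⟩ := hd
        have hnd : ¬ P ∣ d := by
          rintro ⟨d', rfl⟩
          refine hP.2.not_unit (hsqf P ⟨d', ?_⟩)
          rw [hd']
          ring
        have hv : w.valuation M ((d : ℤ) : M) = 1 := by
          refine val_eq_of _ w fun h => ?_
          exact one_mem_of ((hP.2.irreducible.coprime_iff_not_dvd).2 hnd) hPw h
        rw [hd', Int.cast_mul, map_mul, hv, mul_one, hPv]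
      · have hv : w.valuation M ((dsc a b : ℤ) : M) = 1 := by
          refine val_eq_of _ w fun h => ?_
          exact one_mem_of ((hP.2.irreducible.coprime_iff_not_dvd).2 hd) hPw h
        rw [hv, ← WithZero.exp_zero, WithZero.exp_le_exp]
        norm_num
    have e3 : algebraMap M Ω ((((∏ P ∈ J, P) * e : ℤ)) : M) = ((((∏ P ∈ J, P) * e : ℤ)) : Ω) :=
      map_intCast _ _
    have hl := hloc w (hnT 2 h2T)
    have hl' : PLoc (w.adicCompletion M) ((a : M) * ((((∏ Q ∈ J, Q) * e : ℤ)) : M) ^ 2)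
        ((b : M) * ((((∏ Q ∈ J, Q) * e : ℤ)) : M) ^ 3) h := by
      have e1 : (((a * ((∏ Q ∈ J, Q) * e) ^ 2 : ℤ)) : M) =
          (a : M) * ((((∏ Q ∈ J, Q) * e : ℤ)) : M) ^ 2 := by
        simp only [Int.cast_mul, Int.cast_pow]
      have e2 : (((b * ((∏ Q ∈ J, Q) * e) ^ 3 : ℤ)) : M) =
          (b : M) * ((((∏ Q ∈ J, Q) * e : ℤ)) : M) ^ 3 := by
        simp only [Int.cast_mul, Int.cast_pow]
      rw [← e1, ← e2]
      exact hl
    have h3 := hLOC1M M Ω R O' w 𝔓 hw (a : M) (b : M)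
      ((((∏ P ∈ J, P) * e : ℤ)) : M) (algebraMap L Ω θ) h hroot
      (val_six (hnT 2 h2T) (hnT 3 h3T)) (val_le a w) (val_le b w) hD hdisc hl'
      (by rw [e3]; exact h0)
    rw [e3] at h3
    exact h3
  · obtain ⟨hQP, hQT, hQb, hns⟩ := hJ Q hQ
    obtain ⟨w, hw, hO⟩ := hLIE M Ω R O' 𝔓
    have hQw : Ov Q w := (hO Q).2 h𝔓
    have hnT := hnot Q hQP hQT w hQw
    have hew' := hew w hnT
    have hQ2 := not2 Q hQP hQT
    have h2w : ¬ Ov 2 w := hnT 2 h2T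
    have hϖ : w.valuation M (Q : M) = WithZero.exp (-1 : ℤ) := hun Q hQP hQT w hQw
    have hprod : ((∏ P ∈ J, P) * e) = Q * ((∏ P ∈ J.erase Q, P) * e) := by
      rw [← mul_assoc]
      congr 1
      exact (Finset.mul_prod_erase J id hQ).symm
    obtain ⟨D', hD'd⟩ : ∃ D' : ℤ, D' = (∏ P ∈ J.erase Q, P) * e := ⟨_, rfl⟩
    rw [← hD'd] at hprod
    have hD' : w.valuation M ((D' : ℤ) : M) = 1 := by
      refine val_eq_of _ w fun h => ?_
      rw [hD'd] at h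
      rcases ov_mul h with h | h
      · obtain ⟨P, hP, hP'⟩ := ov_prod h
        have hPJ := Finset.mem_of_mem_erase hP
        exact Finset.ne_of_mem_erase hP (below_unique (hJ P hPJ).1 hQP hP' hQw)
      · exact hew' h
    have ha1 : w.valuation M (a : M) = 1 := by
      refine val_eq_of _ w fun h => ?_
      have hnd : ¬ Q ∣ a := fun h5 => hns 0 (by simpa using h5)
      exact one_mem_of ((hQP.2.irreducible.coprime_iff_not_dvd).2 hnd) hQw h
    have hb1 : w.valuation M (b : M) < 1 := by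
      rw [← ov_val]
      obtain ⟨c, hc⟩ := hQb
      unfold Ov at hQw ⊢
      rw [hc, Int.cast_mul]
      exact Ideal.mul_mem_right _ _ hQw
    obtain ⟨f1, f2⟩ := q_facts O' hroot0 hQP hQ2 hQb hns 𝔓 h𝔓 hθ1
    have sqs := int_sq hQP hns 𝔓 h𝔓 hθ1 f1
    have e1 : (((a * ((∏ Q ∈ J, Q) * e) ^ 2 : ℤ)) : M) = (a : M) * ((Q : M) * (D' : M)) ^ 2 := by
      rw [hprod]
      simp only [Int.cast_mul, Int.cast_pow]
    have e2 : (((b * ((∏ Q ∈ J, Q) * e) ^ 3 : ℤ)) : M) = (b : M) * ((Q : M) * (D' : M)) ^ 3 := by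
      rw [hprod]
      simp only [Int.cast_mul, Int.cast_pow]
    have e3 : algebraMap M Ω ((Q : M) * (D' : M)) = ((((∏ P ∈ J, P) * e : ℤ)) : Ω) := by
      rw [hprod, map_mul, map_intCast, map_intCast, Int.cast_mul Q]
    have hl := hloc w h2w
    rw [e1, e2] at hl
    have h2 := loc2u w 𝔓 hw (a : M) (b : M) (Q : M) (D' : M) (algebraMap L Ω θ) h hroot
      (val_two h2w) ha1 hb1 hϖ hD'
      (by
        obtain ⟨s, hs⟩ := sqs (-D')
        refine ⟨s, ?_⟩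
        rw [map_intCast]
        push_cast at hs
        rwa [sub_neg_eq_add] at hs)
      (by
        obtain ⟨s, hs⟩ := sqs (-(2 * D'))
        refine ⟨s, ?_⟩
        rw [map_mul, map_intCast, map_ofNat]
        push_cast at hs
        rwa [sub_neg_eq_add] at hs)
      (by
        obtain ⟨s, hs⟩ := sqs 2
        refine ⟨s, ?_⟩
        push_cast at hs
        exact hs) hl (by rw [e3]; exact h0) hθ1
      (by
        rw [map_intCast]
        exact odd2 O' R hLIE hc htop hQP hQ2 hQb hns (hun Q hQP hQT) 𝔓 h𝔓 hθ1)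
    rw [e3, map_intCast (algebraMap M Ω)] at h2
    exact h2

end top

end Run7.h23
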