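import Pool.Agent.N922.PQ.Final2
import Pool.Agent.Run7.h23.Sel2
import Pool.Agent.Run7.h23.Tor

/-!
# The Selmer groups over `ℚ` of all the twists have at most two elements
-/

set_option autoImplicit false
set_option linter.all false

open Polynomial IsDedekindDomain WeierstrassCurve WeierstrassCurve.Affine NumberField
open Pool.Agent.TH115.GD
open scoped Classical IntermediateField

namespace Run7.h23

open Pool.Agent.N922.PQ
open Pool.Agent.N874.PP (Tup chA chB gq tau Two Ev Sq1 U0 sW IsBeta Rt sg)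
open Pool.Agent.N874.PM (PLoc Lies SelR ShaR)

/-! ### the classes at `2` -/

/-- The rational numbers with odd denominators. -/
def oddR : Subring ℚ where
  carrier := {q | Odd q.den}
  mul_mem' := by
    intro p q hp hq
    exact Odd.of_dvd_nat (Odd.mul hp hq) (Rat.mul_den_dvd p q)
  one_mem' := by
    show Odd (1 : ℚ).den
    simp
  add_mem' := by
    intro p q hp hq
    exact Odd.of_dvd_nat (Odd.mul hp hq) (Rat.add_den_dvd p q)
  zero_mem' := by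
    show Odd (0 : ℚ).den
    simp
  neg_mem' := by
    intro p hp
    show Odd (-p).den
    rw [Rat.neg_den]
    exact hp

theorem kl_mul {L : Type} [Field L] [NumberField L] {a b : ℤ} {θ : L} (hc : IsCub a b θ)
    {g₁ g₂ g₁' g₂' : ℤ} {x y : L} (hx : Kl θ g₁ g₂ x) (hy : Kl θ g₁' g₂' y) :
    Kl θ (g₁ + g₁') (g₂ + g₂') (x * y) := by
  obtain ⟨c, r, s, t, hc0, hr, hs, ht, rfl⟩ := hx
  obtain ⟨c', r', s', t', hc0', hr', hs', ht', rfl⟩ := hy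
  let R : oddR := ⟨r, hr⟩
  let S : oddR := ⟨s, hs⟩
  let T : oddR := ⟨t, ht⟩
  let R' : oddR := ⟨r', hr'⟩
  let S' : oddR := ⟨s', hs'⟩
  let T' : oddR := ⟨t', ht'⟩
  let p0 : oddR := 2 * R
  let p1 : oddR := (g₁ : oddR) + 2 * S
  let p2 : oddR := (g₂ : oddR) + 2 * T
  let q0 : oddR := 2 * R'
  let q1 : oddR := (g₁' : oddR) + 2 * S'
  let q2 : oddR := (g₂' : oddR) + 2 * T'
  let c3 : oddR := p1 * q2 + p2 * q1
  let c4 : oddR := p2 * q2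
  let R2 : oddR := R + R' + (p0 * q0) - (b : oddR) * c3
  let S2 : oddR := S + S' + (p0 * q1 + p1 * q0) - (a : oddR) * c3 - (b : oddR) * c4
  let T2 : oddR := T + T' + (p0 * q2 + p1 * q1 + p2 * q0) - (a : oddR) * c4
  have h3 : (c3 : ℚ) = (g₁ + 2 * s) * (g₂' + 2 * t') + (g₂ + 2 * t) * (g₁' + 2 * s') := rfl
  have h4 : (c4 : ℚ) = (g₂ + 2 * t) * (g₂' + 2 * t') := rfl
  have hR2 : (R2 : ℚ) = r + r' + (2 * r) * (2 * r') - b * c3 := rfl
  have hS2 : (S2 : ℚ) = s + s' + ((2 * r) * (g₁' + 2 * s') + (g₁ + 2 * s) * (2 * r')) -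
    a * c3 - b * c4 := rfl
  have hT2 : (T2 : ℚ) = t + t' + ((2 * r) * (g₂' + 2 * t') + (g₁ + 2 * s) * (g₁' + 2 * s') +
    (g₂ + 2 * t) * (2 * r')) - a * c4 := rfl
  refine ⟨c * c', R2, S2, T2, mul_ne_zero hc0 hc0', R2.2, S2.2, T2.2, ?_⟩
  rw [hR2, hS2, hT2, h3, h4]
  have hθ := hc.root
  simp only [pol, map_add, map_mul, map_sub, map_pow, map_one, aeval_X, aeval_C, map_ofNat,
    map_intCast, eq_ratCast]
  push_cast
  set rr : L := (r : L)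
  set ss : L := (s : L)
  set tt : L := (t : L)
  set rr' : L := (r' : L)
  set ss' : L := (s' : L)
  set tt' : L := (t' : L)
  set G1 : L := (g₁ : L)
  set G2 : L := (g₂ : L)
  set G1' : L := (g₁' : L)
  set G2' : L := (g₂' : L)
  set aa : L := (a : L)
  set bb : L := (b : L)
  linear_combination (c ^ 2 * c' ^ 2 * 4 * (((G1 + 2 * ss) * (G2' + 2 * tt') +
    (G2 + 2 * tt) * (G1' + 2 * ss')) + (G2 + 2 * tt) * (G2' + 2 * tt') * θ)) * hθ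

/-- The classes are well defined. -/
theorem kl_unique {L : Type} [Field L] [NumberField L] {a b : ℤ} {θ : L} (hc : IsCub a b θ)
    (hb : Odd b)
    {F Γ : Type} [Field F] [CharZero F] [LinearOrderedCommGroupWithZero Γ] (v : Valuation F Γ)
    (hv2 : v 2 < 1) (hv : ∀ x : F, v x < 1 → v x ≤ v 2)
    {g₁ g₂ g₁' g₂' : ℤ} {x : L} (hx0 : x ≠ 0) (hx : Kl θ g₁ g₂ x) (hy : Kl θ g₁' g₂' x) :
    Even (g₁ + g₁') ∧ Even (g₂ + g₂') := by
  obtain ⟨c, r, s, t, hc0, hr, hs, ht, hα⟩ := kl_mul hc hx hy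
  -- the element is a square
  obtain ⟨k, hk⟩ := hc.exists_poly (x / c)
  have e1 : aeval θ (pol ℚ (g₁ + g₁') (g₂ + g₂') r s t) = aeval θ (k ^ 2) := by
    rw [map_pow, hk, div_pow, eq_div_iff (pow_ne_zero 2 hc0), mul_comm, ← hα]
    ring
  have h4 := Pool.Agent.N951.PV.cast_congr hc F e1
  rw [Pool.Agent.N951.PV.pol_map, Polynomial.map_pow] at h4
  obtain ⟨t0, t1, t2, f0, f1, f2⟩ := Pool.Agent.N323.PV.sq_form (a := a) (b := b)
    (1 + 4 * (r : F)) (2 * ((g₁ + g₁' : ℤ) : F) + 4 * (s : F))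
    (2 * ((g₂ + g₂' : ℤ) : F) + 4 * (t : F)) (k.map (algebraMap ℚ F)) (by
      convert h4 using 1
      unfold pol
      simp only [map_add, map_mul, map_ofNat, map_one]
      ring)
  exact Pool.Agent.N323.PV.caseA v hv2 hv hb (g₁ + g₁') (g₂ + g₂')
    (Pool.Agent.N951.PV.v_rat v hv2 r hr) (Pool.Agent.N951.PV.v_rat v hv2 s hs)
    (Pool.Agent.N951.PV.v_rat v hv2 t ht) f0 f1 f2

/-! ### sums of cocycles -/

/-- The function `β` for a sum of two cocycles. -/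
theorem beta_add {K : Type} [Field K] {A B : K} (h6 : (6 : K) ≠ 0)
    (hd : 4 * A ^ 3 + 27 * B ^ 2 ≠ 0) (hirr : Irreducible (X ^ 3 + C A * X + C B : K[X]))
    {f f' : (Sep K ≃ₐ[K] Sep K) → Pt (sW A B) (Sep K)} (h2 : ∀ σ, (2 : ℕ) • f σ = 0)
    (h2' : ∀ σ, (2 : ℕ) • f' σ = 0) {β β' : Sep K → Sep K} (hβ : IsBeta A B f β)
    (hβ' : IsBeta A B f' β') :
    IsBeta A B (fun σ => f σ + f' σ) (fun t => β t * β' t) := by
  obtain ⟨t₁, t₂, t₃, n1, n2, n3, r1, r2, r3, -⟩ := Pool.Agent.N187.PP.exists_roots h6 hirr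
  obtain ⟨-, G2, -, -⟩ := Pool.Agent.N630.PP.gp3 K (Sep K) A B h6 hd t₁ t₂ t₃ r1 r2 r3 n1 n2 n3
  intro t ht
  refine ⟨mul_ne_zero (hβ t ht).1 (hβ' t ht).1, fun σ => ?_⟩
  rw [map_mul, (hβ t ht).2 σ, (hβ' t ht).2 σ, G2 _ _ _ (h2 σ) (h2' σ)
    (Pool.Agent.N187.PP.rt_map' σ ht)]
  ring

/-- A sum of two cocycles. -/
theorem coc_add' {K : Type} [Field K] {W : WeierstrassCurve K}
    {f f' : (Sep K ≃ₐ[K] Sep K) → Pt W (Sep K)} (hf : IsCoc W f) (hf' : IsCoc W f') :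
    IsCoc W (fun σ => f σ + f' σ) where
  lc := hf.lc.add hf'.lc
  mul := fun σ τ => by
    rw [hf.mul, hf'.mul, map_add]
    abel

/-- There are at most two classes in the 2-Selmer group: of two classes one is zero or they are
equal. -/
def SelR2 (R : Type) {M : Type} [Field M] [CommRing R] [IsDedekindDomain R] [Algebra R M]
    [IsFractionRing R M] (W : WeierstrassCurve M) : Prop :=
  ∀ f f' : (Sep M ≃ₐ[M] Sep M) → Pt W (Sep M), IsCoc W f → (∀ σ, (2 : ℕ) • f σ = 0) →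
    (∀ v : HeightOneSpectrum R, LocTriv W (Comp R M v) (Sep (Comp R M v)) f) →
    IsCoc W f' → (∀ σ, (2 : ℕ) • f' σ = 0) →
    (∀ v : HeightOneSpectrum R, LocTriv W (Comp R M v) (Sep (Comp R M v)) f') →
    ∃ T : Pt W (Sep M), (2 : ℕ) • T = 0 ∧
      ((∀ σ, f σ = act W (rs M σ) T - T) ∨ (∀ σ, f' σ = act W (rs M σ) T - T) ∨
        ∀ σ, f σ + f' σ = act W (rs M σ) T - T)

/-- The trivial generator of `ℚ`. -/
theorem gen_rat (F F' : Type) [Field F] [Field F'] [Algebra F F'] (x : F') (hx : x = 0)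
    (htop : F⟮x⟯ = ⊤) : Gen F x X 1 where
  top := htop
  monic := monic_X
  root := by rw [aeval_X, hx]
  ne := one_ne_zero
  comb := ⟨0, 1, by simp⟩

theorem split_X (Q : ℤ) : SplitMod Q X := ⟨{0}, 0, by simp⟩

theorem not_dvd_one {P : ℤ} (hP : IsPr P) : ¬ P ∣ 1 := fun h => hP.2.not_unit (isUnit_of_dvd_one h)

/-- The value of `2` at the primes over `2` of `ℚ`. -/
theorem val_two_rat (R : Type) [CommRing R] [IsDedekindDomain R] [Algebra R ℚ]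
    [IsFractionRing R ℚ] [IsIntegralClosure R ℤ ℚ] (w : HeightOneSpectrum R) (hw : Ov 2 w) :
    w.valuation ℚ 2 = WithZero.exp (-1 : ℤ) := by
  have hG : Gen ℚ (0 : ℚ) X 1 := gen_rat ℚ ℚ 0 rfl (by
    rw [eq_top_iff]
    intro x _
    exact (ℚ⟮(0 : ℚ)⟯).algebraMap_mem x)
  have h1 : ¬ Ov 1 w := by
    unfold Ov
    rw [Int.cast_one]
    exact fun h => w.isPrime.ne_top ((Ideal.eq_top_iff_one _).2 h)
  obtain ⟨v, hv⟩ := (parts2.p.ur ℚ ℚ ℤ R 0 X 1 hG).1 w h1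
  have h2 : w.valuation ℚ (2 : ℚ) = v.valuation ℚ ((2 : ℤ) : ℚ) := by
    rw [← hv]
    simp
  refine le_antisymm (val_le_exp w two_ne_zero ?_) ?_
  · have h3 := (ov_val (L := ℚ) 2 w).1 hw
    simpa using h3
  · rw [h2]
    exact val_sqfree Int.prime_two.irreducible.squarefree v

theorem comp_back {F : Type} [Field F] [CharZero F] (φ ψ : ℚ →+* F) {N : ℤ} (hN : N ≠ 0)
    (h : ℚ[X]) : ((h.comp (C (1 / (N : ℚ)) * X)).map φ).comp (C (N : F) * X) = h.map ψ := by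
  have hNF : (N : F) ≠ 0 := by exact_mod_cast hN
  rw [Polynomial.map_comp, Polynomial.map_mul, map_C, map_X, map_div₀, map_one, map_intCast,
    comp_assoc]
  have e1 : (C (1 / (N : F)) * X : F[X]).comp (C (N : F) * X) = X := by
    rw [mul_comp, C_comp, X_comp, ← mul_assoc, ← C_mul, one_div, inv_mul_cancel₀ hNF, C_1,
      one_mul]
  rw [e1, comp_X, RingHom.ext_rat φ ψ]

theorem gal_rat : @IsGalois ℚ _ ℚ _ (DivisionRing.toRatAlgebra) := by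
  have h := IsGalois.self ℚ
  have e : (DivisionRing.toRatAlgebra : Algebra ℚ ℚ) = Algebra.id ℚ := Subsingleton.elim _ _
  rw [e]
  exact h

/-- The 2-Selmer groups over `ℚ` of all the twists have at most two elements. -/
theorem two_tw (H : Parts2) {a b : ℤ} (R : Type) [CommRing R] [IsDedekindDomain R] [Algebra R ℚ]
    [IsFractionRing R ℚ] [IsIntegralClosure R ℤ ℚ]
    {L : Type} [Field L] [NumberField L] {θ : L} {X' : ℕ}
    {S T : Finset ℤ} {s A B : ℤ → ℤ} (hc : IsCub a b θ) (hS : GoodS S s)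
    (hF : Fam X' S s T A B a b) (ha : a % 4 = 3) (hb : b % 4 = 3)
    (hT : GoodT T A B) (hdis : Disjoint S T)
    {J : Finset ℤ} (hJ : J ⊆ S) (hsel : Kil (𝓞 L) J a b θ) {e : ℤ} (he : e ≠ 0)
    (hadm : Adm T a b e) :
    SelR2 R (sW (((a * ((∏ Q ∈ J, Q) * e) ^ 2 : ℤ)) : ℚ) (((b * ((∏ Q ∈ J, Q) * e) ^ 3 : ℤ)) : ℚ)) := by
  haveI := gal_rat
  have hao : Odd a := by rw [Int.odd_iff]; omega
  have hbo : Odd b := by rw [Int.odd_iff]; omega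
  have h6M : (6 : ℚ) ≠ 0 := by norm_num
  have hT0 : ∀ P ∈ T, IsPr P := fun P hP => (hT.2.2 P hP).1
  haveI : Algebra.IsIntegral ℤ R := IsIntegralClosure.isIntegral_algebra ℤ ℚ
  haveI : CharZero R := charZero_of R ℚ
  haveI : Algebra.IsIntegral ℤ (𝓞 L) := IsIntegralClosure.isIntegral_algebra ℤ L
  haveI : CharZero (𝓞 L) := charZero_of (𝓞 L) L
  have hG : Gen ℚ (0 : ℚ) X 1 := gen_rat ℚ ℚ 0 rfl (by
    rw [eq_top_iff]
    intro x _
    exact (ℚ⟮(0 : ℚ)⟯).algebraMap_mem x)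
  have hG' : Gen L (algebraMap ℚ L 0) X 1 := gen_rat L L _ (map_zero _) (by
    rw [eq_top_iff]
    intro x _
    exact (L⟮algebraMap ℚ L 0⟯).algebraMap_mem x)
  obtain ⟨T', hTT, hT', heT, hTor⟩ := exists_T' hT0 he
  have hδ' : ∀ P : ℤ, IsPr P → P ∣ 1 → P ∈ T' := fun P h1 h2 => absurd h2 (not_dvd_one h1)
  have hnoz : ∀ P ∈ T', ∀ z : ℤ, ¬ P ∣ z ^ 3 + a * z + b := by
    intro P hP
    rcases hTor P hP with h | h
    · exact fam_nt hT hF h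
    · rcases hadm P (hT' P hP) h with h' | h'
      · exact fam_nt hT hF h'
      · exact h'
  have hdis' : Disjoint S T' := by
    rw [Finset.disjoint_left]
    intro Q hQ hQT
    apply hnoz Q hQT 0
    have e0 : (0 : ℤ) ^ 3 + a * 0 + b = b := by ring
    rw [e0]
    exact hF.rb Q hQ
  have hM : Module.finrank ℚ ℚ = 2 ^ 0 := by simp
  have htop : ℚ⟮algebraMap L L θ⟯ = ⊤ := by
    rw [eq_top_iff]
    intro x _
    obtain ⟨p, hp⟩ := hc.exists_poly x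
    rw [← hp]
    exact IntermediateField.algebra_adjoin_le_adjoin _ _ (by
      rw [Algebra.adjoin_singleton_eq_range_aeval]
      exact ⟨p, rfl⟩)
  have hnr : ∀ w : HeightOneSpectrum R, Ov 2 w → ∀ t : w.adicCompletion ℚ,
      t ^ 3 + (a : w.adicCompletion ℚ) * t + (b : w.adicCompletion ℚ) ≠ 0 :=
    fun w hw => H.nr ℚ R 0 hM w hw a b hao hbo
  have hD1 : 0 < (∏ Q ∈ J, Q) := Finset.prod_pos fun Q hQ => (hS Q (hJ hQ)).1.1
  have hD8 : (∏ Q ∈ J, Q) % 8 = 1 := prod_mod8 fun Q hQ => (hS Q (hJ hQ)).2.1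
  obtain ⟨N, hN⟩ : ∃ N : ℤ, N = (∏ Q ∈ J, Q) * e := ⟨_, rfl⟩
  have hN0 : N ≠ 0 := by rw [hN]; exact mul_ne_zero hD1.ne' he
  have hirrD := irr_tw' (F := ℚ) (a := a * N ^ 2) (b := b * N ^ 3)
    (fun t ht => by
      obtain ⟨w₀, hw₀⟩ := exists_over R
      apply no_root_tw' (hnr w₀ hw₀) hN0 (algebraMap ℚ _ t)
      have h1 := congrArg (algebraMap ℚ (w₀.adicCompletion ℚ)) ht
      rw [map_zero, map_add, map_add, map_mul, map_pow, map_intCast, map_intCast] at h1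
      exact h1)
  have hdisc : 4 * (((a * N ^ 2 : ℤ)) : ℚ) ^ 3 + 27 * (((b * N ^ 3 : ℤ)) : ℚ) ^ 2 ≠ 0 := by
    have e : 4 * (((a * N ^ 2 : ℤ)) : ℚ) ^ 3 + 27 * (((b * N ^ 3 : ℤ)) : ℚ) ^ 2 =
        ((N ^ 6 * dsc a b : ℤ) : ℚ) := by
      simp only [dsc, Int.cast_mul, Int.cast_add, Int.cast_pow, Int.cast_ofNat]
      ring
    rw [e, Int.cast_ne_zero]
    exact mul_ne_zero (pow_ne_zero _ hN0) hF.sq.ne_zero
  obtain ⟨w, hw⟩ := exists_over R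
  obtain ⟨k1, k2⟩ := val_two_comp (val_two_rat R w hw)
  rw [← hN]
  -- the element of a class, its conditions and its class at `2`
  have main : ∀ f : (Sep ℚ ≃ₐ[ℚ] Sep ℚ) → Pt (sW (((a * N ^ 2 : ℤ)) : ℚ)
      (((b * N ^ 3 : ℤ)) : ℚ)) (Sep ℚ), IsCoc (sW (((a * N ^ 2 : ℤ)) : ℚ)
      (((b * N ^ 3 : ℤ)) : ℚ)) f → (∀ σ, (2 : ℕ) • f σ = 0) →
      (∀ v : HeightOneSpectrum R, LocTriv (sW (((a * N ^ 2 : ℤ)) : ℚ) (((b * N ^ 3 : ℤ)) : ℚ))
        (Comp R ℚ v) (Sep (Comp R ℚ v)) f) →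
      ∃ (β : Sep ℚ → Sep ℚ) (h : ℚ[X]) (x : L) (g₁ g₂ : ℤ),
        IsBeta (((a * N ^ 2 : ℤ)) : ℚ) (((b * N ^ 3 : ℤ)) : ℚ) f β ∧
        (∀ t : Sep ℚ, Rt (((a * N ^ 2 : ℤ)) : ℚ) (((b * N ^ 3 : ℤ)) : ℚ) t →
          aeval t h = β t ^ 2) ∧
        Rt (((a * N ^ 2 : ℤ)) : ℚ) (((b * N ^ 3 : ℤ)) : ℚ) ((N : L) * θ) ∧
        x = aeval ((N : L) * θ) h ∧ x ≠ 0 ∧ IsSquare (Algebra.norm ℚ x) ∧
        Cnd (𝓞 L) J T' θ x ∧ Kl θ g₁ g₂ x ∧ (Even g₂ ∨ (¬ Even g₁ ∧ ¬ Even g₂)) := by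
    intro f hf h2f hloc
    obtain ⟨β, h, hβ, hh, hRt, hx0, hx2, hcnd, hc2⟩ := sel_elt (L := L) (M := ℚ) (Ω := L) (𝓞 L)
      (𝓞 L) R H hc hS hF hT hG hG' (fun Q _ => split_X Q) hM hc.rank htop hJ he hTT hT' hδ' heT
      hdis' hN f hf h2f hloc
    obtain ⟨g₁, g₂, hK, -⟩ := loc2_of hc ha hb hx0 hx2
    refine ⟨β, h, _, g₁, g₂, hβ, hh, hRt, rfl, hx0, hx2, hcnd, hK, ?_⟩
    have h3 := cls_of hc ha hb (F := w.adicCompletion ℚ) Valued.v k1 k2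
      (fun t ht => nr' ℚ R 0 hM w hw a b hao hbo t ht) hN0 (fun h' hh' => by
        have hNL : (N : L) ≠ 0 := by exact_mod_cast hN0
        have hNF : (N : w.adicCompletion ℚ) ≠ 0 := by exact_mod_cast hN0
        have h1 := hc2 w hw (h'.comp (C (1 / (N : ℚ)) * X)) (by
          rw [aeval_comp, map_mul, aeval_X, aeval_C]
          change aeval ((algebraMap ℚ L) (1 / (N : ℚ)) * ((N : L) * θ)) h' = _
          rw [map_div₀, map_one, map_intCast, ← mul_assoc, one_div, inv_mul_cancel₀ hNL, one_mul,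
            hh'])
        have h2 := plt_of_pl hN0 h1
        rw [comp_back _ (algebraMap ℚ (w.adicCompletion ℚ)) hN0] at h2
        exact h2) hK
    rcases h3 with h | h | h
    · exact Or.inl h.2
    · exact Or.inl h.2
    · by_cases h5 : Even g₂
      · exact Or.inl h5
      · exact Or.inr ⟨fun h6 => h5 (h.2.1 h6), h5⟩
  -- a class with even `g₂` is zero
  have zero : ∀ (f : (Sep ℚ ≃ₐ[ℚ] Sep ℚ) → Pt (sW (((a * N ^ 2 : ℤ)) : ℚ)
      (((b * N ^ 3 : ℤ)) : ℚ)) (Sep ℚ)), IsCoc (sW (((a * N ^ 2 : ℤ)) : ℚ)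
      (((b * N ^ 3 : ℤ)) : ℚ)) f → (∀ σ, (2 : ℕ) • f σ = 0) → ∀ (β : Sep ℚ → Sep ℚ) (h : ℚ[X])
      (x : L) (g₁ g₂ : ℤ),
        IsBeta (((a * N ^ 2 : ℤ)) : ℚ) (((b * N ^ 3 : ℤ)) : ℚ) f β →
        (∀ t : Sep ℚ, Rt (((a * N ^ 2 : ℤ)) : ℚ) (((b * N ^ 3 : ℤ)) : ℚ) t →
          aeval t h = β t ^ 2) →
        Rt (((a * N ^ 2 : ℤ)) : ℚ) (((b * N ^ 3 : ℤ)) : ℚ) ((N : L) * θ) →
        x = aeval ((N : L) * θ) h → x ≠ 0 → IsSquare (Algebra.norm ℚ x) →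
        Cnd (𝓞 L) J T' θ x → Kl θ g₁ g₂ x → Even g₂ →
        ∃ T : Pt (sW (((a * N ^ 2 : ℤ)) : ℚ) (((b * N ^ 3 : ℤ)) : ℚ)) (Sep ℚ), (2 : ℕ) • T = 0 ∧
          ∀ σ, f σ = act (sW (((a * N ^ 2 : ℤ)) : ℚ) (((b * N ^ 3 : ℤ)) : ℚ)) (rs ℚ σ) T - T := by
    intro f hf h2f β h x g₁ g₂ hβ hh hRt hx hx0 hx2 hC hK hg2
    obtain ⟨g₁', g₂', hK', hl⟩ := loc2_of hc ha hb hx0 hx2
    have h5 := (kl_unique hc hbo (F := w.adicCompletion ℚ) Valued.v k1 k2 hx0 hK hK').2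
    have h6 : Even g₂' := (Int.even_add.1 h5).1 hg2
    have hsq : IsSquare x := base_sq (𝓞 L) (𝓞 L) hsel (H.p.ur L L (𝓞 L) (𝓞 L) _ X 1 hG').2
      (fun Q hQ => H.p.spd L L (𝓞 L) _ X 1 hG' Q (hS Q (hJ hQ)).1.2 (split_X Q))
      (fun P hP => H.p.p3 L (𝓞 L) a b θ hc hF.sq P (hT' P hP).2 (hnoz P hP))
      (fun 𝔓 h => ov_delta hδ' h)
      (fun Q hQ 𝔓 h => not_ov_delta hδ' hS hT' hdis' (hJ hQ) h) hx0 hC (hl h6) hx2
    rw [hx] at hsq
    exact H.p.gt ℚ _ _ h6M hdisc hirrD f hf h2f β h hβ hh _ _ hRt hc.rank hsq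
  intro f f' hf h2f hloc hf' h2f' hloc'
  obtain ⟨β, h, x, g₁, g₂, hβ, hh, hRt, hx, hx0, hx2, hC, hK, hp⟩ := main f hf h2f hloc
  obtain ⟨β', h', x', g₁', g₂', hβ', hh', -, hx', hx0', hx2', hC', hK', hp'⟩ :=
    main f' hf' h2f' hloc'
  rcases hp with hp | hp
  · obtain ⟨T, h1, h2⟩ := zero f hf h2f β h x g₁ g₂ hβ hh hRt hx hx0 hx2 hC hK hp
    exact ⟨T, h1, Or.inl h2⟩
  · rcases hp' with hp' | hp'
    · obtain ⟨T, h1, h2⟩ := zero f' hf' h2f' β' h' x' g₁' g₂' hβ' hh' hRt hx' hx0' hx2' hC' hK' hp'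
      exact ⟨T, h1, Or.inr (Or.inl h2)⟩
    · obtain ⟨T, h1, h2⟩ := zero (fun σ => f σ + f' σ) (coc_add' hf hf')
        (fun σ => by rw [smul_add, h2f, h2f', add_zero]) (fun t => β t * β' t) (h * h') (x * x')
        (g₁ + g₁') (g₂ + g₂') (beta_add h6M hdisc hirrD h2f h2f' hβ hβ')
        (fun t ht => by rw [map_mul, hh t ht, hh' t ht]; ring) hRt (by rw [map_mul, hx, hx'])
        (mul_ne_zero hx0 hx0') (by rw [map_mul]; exact hx2.mul hx2')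
        (cnd_mul H.p.cls (fun Q hQ => ⟨(hS Q (hJ hQ)).1.2,
            not_dvd_two (hS Q (hJ hQ)).2.1 (hS Q (hJ hQ)).1.1 (hS Q (hJ hQ)).1.2⟩)
          (fun Q hQ 𝔓 h1 h2 => odd_top (𝓞 L) (𝓞 L) H.p.exq H.p.ur hc hF.sq hG' (hS Q (hJ hQ)).1.2
            (hF.rb Q (hJ hQ)) (fam_ns hS hF (hJ hQ)) 𝔓 h1
            (not_ov_delta hδ' hS hT' hdis' (hJ hQ) h1) h2) hx0 hx0' hC hC')
        (kl_mul hc hK hK') (Int.even_add.2 ⟨fun h => absurd h hp.2, fun h => absurd h hp'.2⟩)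
      exact ⟨T, h1, Or.inr (Or.inr h2)⟩

end Run7.h23
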